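import Pool.Agent.N282.WB.Stm

/-!
# Project WB: Bernoulli measures for `D = 2`
-/

set_option autoImplicit false

open scoped ComplexConjugate Matrix ComplexOrder
open Filter Topology MeasureTheory

noncomputable section

namespace Pool.Agent.N282.WB

/-! ### Tensor powers -/

lemma BE_tp_mul {D : ℕ} (A B : Matrix (Fin D) (Fin D) ℂ) (n : ℕ) :
    tp (A * B) n = tp A n * tp B n := by
  ext u v
  simp only [tp, Matrix.mul_apply]
  have h := Finset.prod_univ_sum (fun _ : Fin n => (Finset.univ : Finset (Fin D)))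
    (fun i x => A (u i) x * B x (v i))
  rw [Fintype.piFinset_univ] at h
  rw [h]
  exact Finset.sum_congr rfl fun w _ => Finset.prod_mul_distrib

lemma BE_tp_star {D : ℕ} (A : Matrix (Fin D) (Fin D) ℂ) (n : ℕ) : (tp A n)ᴴ = tp Aᴴ n := by
  ext u v
  simp only [tp, Matrix.conjTranspose_apply, star_prod]

/-! ### The matrix of the Fourier transform -/

/-- `1 / √2` -/
def BE_s : ℂ := ((Real.sqrt 2 : ℝ) : ℂ)⁻¹

lemma BE_ss : BE_s * BE_s = 1 / 2 := by
  unfold BE_s
  rw [← mul_inv, ← Complex.ofReal_mul, Real.mul_self_sqrt (by norm_num)]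
  norm_num

lemma BE_sconj : conj BE_s = BE_s := by
  unfold BE_s
  rw [map_inv₀, Complex.conj_ofReal]

lemma BE_dft : dft 2 = !![BE_s, BE_s; BE_s, -BE_s] := by
  ext a b
  unfold dft BE_s
  fin_cases a <;> fin_cases b
  · simp
  · simp
  · simp
  · simp only [Fin.mk_one, Fin.isValue, Fin.val_one, Nat.cast_one, mul_one, Nat.cast_ofNat,
      Matrix.of_apply, Matrix.cons_val', Matrix.cons_val_one, Matrix.cons_val_fin_one]
    have h : -(2 * (Real.pi : ℂ) * Complex.I / 2) = -((Real.pi : ℂ) * Complex.I) := by ring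
    rw [h, Complex.exp_neg, Complex.exp_pi_mul_I]
    norm_num

/-- the density matrix of one site -/
def BE_R (p : ℝ) : Matrix (Fin 2) (Fin 2) ℂ :=
  !![((1 - p : ℝ) : ℂ), ((1 / 2 - p : ℝ) : ℂ); ((1 / 2 - p : ℝ) : ℂ), (p : ℂ)]

lemma BE_inv (p : ℝ) : (dft 2)ᴴ * BE_R p * dft 2 = BE_R p := by
  rw [BE_dft]
  have h := BE_ss
  ext a b
  fin_cases a <;> fin_cases b <;>
    simp [BE_R, Matrix.mul_apply, Fin.sum_univ_two, BE_sconj] <;>
    ring_nf <;> rw [pow_two, h] <;> ring

lemma BE_trace (p : ℝ) : ∑ a, BE_R p a a = 1 := by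
  rw [Fin.sum_univ_two]
  simp [BE_R]

/-- the square root -/
def BE_C (p : ℝ) : Matrix (Fin 2) (Fin 2) ℂ :=
  !![((Real.sqrt (1 - p) : ℝ) : ℂ), (((1 / 2 - p) / Real.sqrt (1 - p) : ℝ) : ℂ);
    0, ((Real.sqrt (p - (1 / 2 - p) ^ 2 / (1 - p)) : ℝ) : ℂ)]

lemma BE_CC (p : ℝ) (h1 : p < 1) (h2 : (2 * p - 1) ^ 2 ≤ 1 / 2) :
    (BE_C p)ᴴ * BE_C p = BE_R p := by
  have h3 : 0 < 1 - p := by linarith
  have h4 : 0 ≤ p - (1 / 2 - p) ^ 2 / (1 - p) := by
    rw [sub_nonneg, div_le_iff₀ h3]
    nlinarith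
  have h5 := Real.mul_self_sqrt h3.le
  have h6 := Real.mul_self_sqrt h4
  have h7 : Real.sqrt (1 - p) ≠ 0 := (Real.sqrt_pos.2 h3).ne'
  ext a b
  fin_cases a <;> fin_cases b <;>
    simp only [BE_R, BE_C, Matrix.mul_apply, Fin.sum_univ_two, Matrix.conjTranspose_apply,
      Matrix.of_apply, Matrix.cons_val', Matrix.cons_val_zero, Matrix.cons_val_one,
      Matrix.cons_val_fin_one, Fin.zero_eta, Fin.mk_one, Fin.isValue, RCLike.star_def,
      Complex.conj_ofReal, map_zero, zero_mul, mul_zero, add_zero, zero_add]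
  · rw [← Complex.ofReal_mul, h5]
  · rw [← Complex.ofReal_mul, mul_div_cancel₀ _ h7]
  · rw [← Complex.ofReal_mul, div_mul_cancel₀ _ h7]
  · rw [← Complex.ofReal_mul, ← Complex.ofReal_mul, ← Complex.ofReal_add, h6]
    congr 1
    rw [div_mul_div_comm, h5]
    ring

theorem t_BE : S_BE := by
  intro p hp0 hp1
  constructor
  · rintro ⟨ρ, hρ, hd⟩
    set w0 : Fin 1 → Fin 2 := fun _ => 0 with hw0
    set w1 : Fin 1 → Fin 2 := fun _ => 1 with hw1
    have hsum : ∀ f : (Fin 1 → Fin 2) → ℂ, ∑ u, f u = f w0 + f w1 := by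
      intro f
      rw [← (Equiv.funUnique (Fin 1) (Fin 2)).symm.sum_comp f, Fin.sum_univ_two]
      rfl
    have h0 : (ρ 1 w0 w0).re = 1 - p := by
      rw [hd 1 w0]
      simp [hw0]
    have h1 : (ρ 1 w1 w1).re = p := by
      rw [hd 1 w1]
      simp [hw1]
    have hH := (hρ.psd 1).isHermitian
    have h10 : ρ 1 w1 w0 = conj (ρ 1 w0 w1) := (hH.apply w1 w0).symm
    have htp : ∀ u v : Fin 1 → Fin 2, tp (dft 2) 1 u v = dft 2 (u 0) (v 0) := by
      intro u v
      simp [tp]
    -- the invariance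
    have hi := congrFun (congrFun (hρ.inv 1) w0) w0
    simp only [Matrix.mul_apply, hsum, Matrix.conjTranspose_apply, htp] at hi
    have e0 : w0 0 = 0 := rfl
    have e1 : w1 0 = 1 := rfl
    rw [e0, e1, BE_dft] at hi
    simp only [Matrix.of_apply, Matrix.cons_val', Matrix.cons_val_zero, Matrix.cons_val_one,
      Matrix.cons_val_fin_one, Fin.isValue] at hi
    have hc : star BE_s = BE_s := BE_sconj
    rw [hc] at hi
    have hi2 : (1 / 2 : ℂ) * (ρ 1 w0 w0 + ρ 1 w0 w1 + ρ 1 w1 w0 + ρ 1 w1 w1) = ρ 1 w0 w0 := by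
      rw [← BE_ss]
      linear_combination hi
    rw [h10] at hi2
    have hre := congrArg Complex.re hi2
    have e2 : (1 / 2 : ℂ) = ((1 / 2 : ℝ) : ℂ) := by norm_num
    rw [e2, Complex.re_ofReal_mul] at hre
    simp only [Complex.add_re, Complex.conj_re] at hre
    rw [h0, h1] at hre
    -- the positivity
    have hq : ∀ x : ℝ, 0 ≤ (1 - p) * (x * x) + (2 * (ρ 1 w0 w1).re) * x + p := by
      intro x
      have h := (hρ.psd 1).dotProduct_mulVec_nonneg (fun u => if u = w0 then (x : ℂ) else 1)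
      have h2 := (Complex.le_def.1 h).1
      have hne : w1 ≠ w0 := by
        intro h
        have := congrFun h 0
        simp [hw0, hw1] at this
      simp only [dotProduct, Matrix.mulVec, hsum, Pi.star_apply, if_true, if_neg hne, star_one,
        RCLike.star_def, Complex.conj_ofReal, Complex.zero_re] at h2
      rw [h10] at h2
      simp only [map_one, mul_one, one_mul, Complex.add_re, Complex.re_ofReal_mul,
        Complex.re_mul_ofReal, Complex.conj_re] at h2
      rw [h0, h1] at h2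
      linarith
    have hdisc := discrim_le_zero hq
    unfold discrim at hdisc
    have hc2 : (ρ 1 w0 w1).re = (1 - 2 * p) / 2 := by linarith
    rw [hc2] at hdisc
    nlinarith
  · intro h
    have hp : p < 1 := by
      rcases lt_or_eq_of_le hp1 with h1 | h1
      · exact h1
      · rw [h1] at h
        norm_num at h
    refine ⟨fun n => tp (BE_R p) n, ⟨fun n => ?_, fun u v => ?_, fun n u v => ?_,
      fun n u v => ?_, fun n => ?_⟩, fun n w => ?_⟩
    · rw [← BE_CC p hp h, BE_tp_mul, ← BE_tp_star]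
      exact Matrix.posSemidef_conjTranspose_mul_self _
    · simp [tp]
    · simp only [tp, Fin.prod_univ_castSucc, Fin.snoc_castSucc, Fin.snoc_last]
      rw [← Finset.mul_sum, BE_trace, mul_one]
    · simp only [tp, Fin.prod_univ_succ, Fin.cons_zero, Fin.cons_succ]
      rw [← Finset.sum_mul, BE_trace, one_mul]
    · rw [BE_tp_star, ← BE_tp_mul, ← BE_tp_mul, BE_inv]
    · have e : ∀ x : Fin 2, BE_R p x x = ((if x = 1 then p else 1 - p : ℝ) : ℂ) := by
        intro x
        fin_cases x <;> simp [BE_R]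
      simp only [tp, e]
      rw [← Complex.ofReal_prod, Complex.ofReal_re]

end Pool.Agent.N282.WB
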