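import Pool.Agent.N282.WB.Stm

/-!
# Project WB: the baker's map (written by helper87)
-/

set_option autoImplicit false

open scoped ComplexConjugate Matrix ComplexOrder

noncomputable section

namespace Pool.Agent.N282.WB

variable {D k : ℕ}

theorem BK_apply (F : Matrix (Fin D) (Fin D) ℂ) (ψ : St D (Fin (k + 1)))
    (w : Fin (k + 1) → Fin D) : bk F k ψ w = ∑ a, conj (F a (w (Fin.last k))) *
      ψ (Fin.cons a fun i : Fin k => w i.castSucc) := rfl

theorem BK_op_apply {ι : Type} [Fintype ι] [DecidableEq ι] (i : ι)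
    (M : Matrix (Fin D) (Fin D) ℂ) (ψ : St D ι) (w : ι → Fin D) :
    op i M ψ w = ∑ a, M (w i) a * ψ (Function.update w i a) := rfl

theorem BK_snoc (f : (Fin (k + 1) → Fin D) → ℂ) :
    ∑ w, f w = ∑ v : Fin k → Fin D, ∑ b, f (Fin.snoc (α := fun _ => Fin D) v b) := by
  rw [← (Fin.snocEquiv fun _ : Fin (k + 1) => Fin D).sum_comp, Fintype.sum_prod_type,
    Finset.sum_comm]
  rfl

theorem BK_cons (f : (Fin (k + 1) → Fin D) → ℂ) :
    ∑ w, f w = ∑ a, ∑ v : Fin k → Fin D, f (Fin.cons (α := fun _ => Fin D) a v) := by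
  rw [← (Fin.consEquiv fun _ : Fin (k + 1) => Fin D).sum_comp, Fintype.sum_prod_type]
  rfl

theorem BK_bk_snoc (F : Matrix (Fin D) (Fin D) ℂ) (ψ : St D (Fin (k + 1)))
    (v : Fin k → Fin D) (b : Fin D) :
    bk F k ψ (Fin.snoc (α := fun _ => Fin D) v b) = ∑ a, conj (F a b) *
      ψ (Fin.cons (α := fun _ => Fin D) a v) := by
  rw [BK_apply]
  refine Finset.sum_congr rfl fun a _ => ?_
  rw [Fin.snoc_last]
  congr 3
  funext i
  rw [Fin.snoc_castSucc]

theorem BK_isom (F : Matrix (Fin D) (Fin D) ℂ) (hF : Fᴴ * F = 1) (φ ψ : St D (Fin (k + 1))) :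
    ip (bk F k φ) (bk F k ψ) = ip φ ψ := by
  have hF' : F * Fᴴ = 1 := mul_eq_one_comm.1 hF
  have h1 : ∀ a a', ∑ b, F a b * conj (F a' b) = if a = a' then 1 else 0 := by
    intro a a'
    have := congrFun (congrFun hF' a) a'
    rw [Matrix.mul_apply, Matrix.one_apply] at this
    rw [← this]
    rfl
  unfold ip
  rw [BK_snoc, BK_cons, Finset.sum_comm (s := (Finset.univ : Finset (Fin D)))]
  refine Finset.sum_congr rfl fun v _ => ?_
  simp only [BK_bk_snoc, map_sum, map_mul, Complex.conj_conj]
  calc ∑ b, (∑ a, F a b * conj (φ (Fin.cons (α := fun _ => Fin D) a v))) *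
        ∑ a', conj (F a' b) * ψ (Fin.cons (α := fun _ => Fin D) a' v)
      = ∑ a', ∑ a, (∑ b, F a b * conj (F a' b)) *
        (conj (φ (Fin.cons (α := fun _ => Fin D) a v)) *
          ψ (Fin.cons (α := fun _ => Fin D) a' v)) := by
        simp only [Finset.sum_mul, Finset.mul_sum]
        rw [Finset.sum_comm]
        refine Finset.sum_congr rfl fun a' _ => ?_
        rw [Finset.sum_comm]
        refine Finset.sum_congr rfl fun a _ => ?_
        refine Finset.sum_congr rfl fun b _ => ?_
        ring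
    _ = _ := by
        refine Finset.sum_congr rfl fun a _ => ?_
        simp [h1]

theorem BK_zero_sub : (0 : Fin (k + 1)) - 1 = Fin.last k := by
  rw [sub_eq_iff_eq_add]
  exact (Fin.last_add_one k).symm

theorem BK_succ_sub (j : Fin k) : j.succ - 1 = j.castSucc := by
  rw [sub_eq_iff_eq_add]
  exact (Fin.coeSucc_eq_succ).symm

theorem BK_comm (F : Matrix (Fin D) (Fin D) ℂ) (hF : Fᴴ * F = 1) (i : Fin (k + 1))
    (M : Matrix (Fin D) (Fin D) ℂ) : ∃ M' : Matrix (Fin D) (Fin D) ℂ,
    bk F k * op i M = op (i - 1) M' * bk F k := by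
  have hF' : F * Fᴴ = 1 := mul_eq_one_comm.1 hF
  refine Fin.cases ?_ (fun j => ?_) i
  · refine ⟨Fᴴ * M * F, ?_⟩
    rw [BK_zero_sub]
    refine LinearMap.ext fun ψ => funext fun w => ?_
    rw [Module.End.mul_apply, Module.End.mul_apply, BK_apply, BK_op_apply]
    simp only [BK_op_apply, BK_apply, Fin.cons_zero, Fin.update_cons_zero,
      Function.update_self, Finset.mul_sum]
    have h0 : ∀ c (i : Fin k), Function.update w (Fin.last k) c i.castSucc = w i.castSucc :=
      fun c i => Function.update_of_ne (Fin.castSucc_lt_last i).ne _ _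
    simp only [h0]
    rw [Finset.sum_comm, Finset.sum_comm (s := (Finset.univ : Finset (Fin D)))
      (f := fun c b => (Fᴴ * M * F) (w (Fin.last k)) c * (conj (F b c) * _))]
    refine Finset.sum_congr rfl fun b _ => ?_
    have h1 : (Fᴴ * M * F * Fᴴ) (w (Fin.last k)) b = (Fᴴ * M) (w (Fin.last k)) b := by
      rw [Matrix.mul_assoc (Fᴴ * M), hF', Matrix.mul_one]
    rw [Matrix.mul_apply, Matrix.mul_apply] at h1
    simp only [Matrix.conjTranspose_apply] at h1
    simp only [← mul_assoc, ← Finset.sum_mul]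
    congr 1
    exact h1.symm
  · refine ⟨M, ?_⟩
    rw [BK_succ_sub]
    refine LinearMap.ext fun ψ => funext fun w => ?_
    rw [Module.End.mul_apply, Module.End.mul_apply, BK_apply, BK_op_apply]
    simp only [BK_op_apply, BK_apply, Fin.cons_succ, Finset.mul_sum]
    rw [Finset.sum_comm]
    refine Finset.sum_congr rfl fun b _ => Finset.sum_congr rfl fun a _ => ?_
    have h0 : Function.update w j.castSucc b (Fin.last k) = w (Fin.last k) :=
      Function.update_of_ne (Fin.castSucc_lt_last j).ne' _ _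
    have h1 : (fun i : Fin k => Function.update w j.castSucc b i.castSucc) =
        Function.update (fun i : Fin k => w i.castSucc) j b := by
      funext i
      by_cases h : i = j
      · subst h; simp
      · rw [Function.update_of_ne h, Function.update_of_ne]
        intro h'
        exact h (Fin.castSucc_injective _ h')
    rw [h0, h1, Fin.cons_update]
    ring

theorem BK_ofNat (m : ℕ) : Fin.ofNat (k + 1) (m + 1) = Fin.ofNat (k + 1) m + 1 := by
  open Fin.CommRing in
  rw [Fin.ofNat_eq_cast, Fin.ofNat_eq_cast]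
  push_cast
  rfl

/-- the matrix element at the site `i` of the power `m` -/
def BK_c (F : Matrix (Fin D) (Fin D) ℂ) (k m i : ℕ) (y u : Fin D) : ℂ :=
  if k + 1 ≤ i + m then conj (F u y) else if y = u then 1 else 0

theorem BK_pow (F : Matrix (Fin D) (Fin D) ℂ) (m : ℕ) (hm : m ≤ k + 1) :
    ∀ (ψ : St D (Fin (k + 1))) (y : Fin (k + 1) → Fin D),
    (bk F k ^ m) ψ y = ∑ u : Fin (k + 1) → Fin D,
      (∏ i : Fin (k + 1), BK_c F k m i (y i) (u i)) * ψ (fun i => u (i - Fin.ofNat (k + 1) m)) := by
  induction m with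
  | zero =>
    intro ψ y
    rw [pow_zero, Module.End.one_apply]
    have h1 : ∀ u : Fin (k + 1) → Fin D, (∏ i : Fin (k + 1), BK_c F k 0 i (y i) (u i)) =
        if y = u then 1 else 0 := by
      intro u
      have h2 : ∀ i : Fin (k + 1), BK_c F k 0 i (y i) (u i) = if y i = u i then 1 else 0 := by
        intro i
        unfold BK_c
        rw [if_neg (by have := i.2; omega)]
      rw [Finset.prod_congr rfl fun i _ => h2 i]
      by_cases h : y = u
      · subst h; simp
      · obtain ⟨i, hi⟩ := Function.ne_iff.1 h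
        rw [if_neg h]
        exact Finset.prod_eq_zero (Finset.mem_univ i) (if_neg hi)
    simp only [h1, ite_mul, one_mul, zero_mul, Finset.sum_ite_eq, Finset.mem_univ, if_true]
    congr 1
    funext i
    simp
  | succ m ih =>
    intro ψ y
    have ih' := ih (by omega)
    rw [pow_succ', Module.End.mul_apply, BK_apply]
    simp only [ih', Finset.mul_sum]
    -- the product
    have h1 : ∀ (a : Fin D) (u : Fin (k + 1) → Fin D),
        ∏ i : Fin (k + 1), BK_c F k m i ((Fin.cons a fun i : Fin k => y i.castSucc :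
          Fin (k + 1) → Fin D) i) (u i) = (if a = u 0 then 1 else 0) *
          ∏ j : Fin k, BK_c F k (m + 1) j (y j.castSucc) (u j.succ) := by
      intro a u
      rw [Fin.prod_univ_succ]
      congr 1
      · unfold BK_c
        rw [if_neg (by simp; omega), Fin.cons_zero]
      · refine Finset.prod_congr rfl fun j _ => ?_
        rw [Fin.cons_succ]
        unfold BK_c
        have : ((j.succ : Fin (k + 1)) : ℕ) + m = (j : ℕ) + (m + 1) := by
          rw [Fin.val_succ]; ring
        rw [this]
    simp only [h1]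
    rw [Finset.sum_comm]
    let e : (Fin (k + 1) → Fin D) ≃ (Fin (k + 1) → Fin D) :=
      (Equiv.addRight (1 : Fin (k + 1))).symm.arrowCongr (Equiv.refl _)
    have he : ∀ u i, e u i = u (i + 1) := fun u i => rfl
    refine Fintype.sum_equiv e _ _ fun u => ?_
    have h2 : ∑ a : Fin D, conj (F a (y (Fin.last k))) *
        ((if a = u 0 then 1 else 0) *
          (∏ j : Fin k, BK_c F k (m + 1) j (y j.castSucc) (u j.succ)) *
          ψ fun i => u (i - Fin.ofNat (k + 1) m)) =
        conj (F (u 0) (y (Fin.last k))) *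
          ((∏ j : Fin k, BK_c F k (m + 1) j (y j.castSucc) (u j.succ)) *
          ψ fun i => u (i - Fin.ofNat (k + 1) m)) := by
      rw [Finset.sum_eq_single (u 0)]
      · rw [if_pos rfl, one_mul]
      · intro a _ ha
        rw [if_neg ha]; ring
      · intro h; exact absurd (Finset.mem_univ _) h
    rw [h2, Fin.prod_univ_castSucc]
    have h3 : BK_c F k (m + 1) (Fin.last k : Fin (k + 1)) (y (Fin.last k))
        (e u (Fin.last k)) = conj (F (u 0) (y (Fin.last k))) := by
      unfold BK_c
      rw [if_pos (by rw [Fin.val_last]; omega), he, Fin.last_add_one]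
    have h4 : ∀ j : Fin k, e u j.castSucc = u j.succ := by
      intro j
      rw [he, Fin.coeSucc_eq_succ]
    have h5 : (fun i => e u (i - Fin.ofNat (k + 1) (m + 1))) =
        fun i => u (i - Fin.ofNat (k + 1) m) := by
      funext i
      rw [he, BK_ofNat]
      congr 1
      abel
    rw [h3, h5]
    simp only [h4, Fin.val_castSucc]
    ring

theorem t_BK : S_BK := by
  intro D k F hF
  have h3 : ∀ m : ℕ, m ≤ k + 1 → ∀ (ψ : St D (Fin (k + 1))) (y : Fin (k + 1) → Fin D),
    (bk F k ^ m) ψ y = ∑ u : Fin (k + 1) → Fin D,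
      (∏ i : Fin (k + 1), if k + 1 ≤ (i : ℕ) + m then conj (F (u i) (y i)) else
        if y i = u i then 1 else 0) * ψ (fun i => u (i - Fin.ofNat (k + 1) m)) := by
    intro m hm ψ y
    rw [BK_pow F m hm ψ y]
    rfl
  refine ⟨BK_isom F hF, BK_comm F hF, h3, ?_⟩
  refine LinearMap.ext fun ψ => funext fun y => ?_
  rw [h3 (k + 1) le_rfl]
  change _ = ∑ u : Fin (k + 1) → Fin D, (∏ i, Fᴴ (y i) (u i)) * ψ u
  refine Finset.sum_congr rfl fun u _ => ?_
  congr 1
  · refine Finset.prod_congr rfl fun i _ => ?_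
    rw [if_pos (by omega)]
    rfl
  · congr 1
    funext i
    have h0 : Fin.ofNat (k + 1) (k + 1) = 0 := by
      ext
      simp
    rw [h0, sub_zero]

end Pool.Agent.N282.WB
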