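import Pool.Agent.N282.WB.Stm

/-!
# Project WB: corollaries of the classification
-/

set_option autoImplicit false

open scoped ComplexConjugate Matrix ComplexOrder
open Filter Topology MeasureTheory

noncomputable section

namespace Pool.Agent.N282.WB

variable {D : ℕ}

lemma CO_meas (m : ℤ) {n : ℕ} (w : Fin n → Fin D) : MeasurableSet (cyl m w) := by
  have : cyl m w = ⋂ i : Fin n, (fun x : ℤ → Fin D => x (m + i)) ⁻¹' {w i} := by
    ext x
    simp [cyl]
  rw [this]
  exact MeasurableSet.iInter fun i => (measurable_pi_apply _) (measurableSet_singleton _)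

lemma CO_snoc (μ : Measure (ℤ → Fin D)) [IsProbabilityMeasure μ] (m : ℤ) (n : ℕ)
    (w : Fin n → Fin D) :
    ∑ a, μ.real (cyl m (Fin.snoc w a : Fin (n + 1) → Fin D)) = μ.real (cyl m w) := by
  rw [← measureReal_biUnion_finset]
  · congr 1
    ext x
    simp only [Set.mem_iUnion, Finset.mem_univ, exists_prop, true_and, cyl, Set.mem_ofPred_eq]
    constructor
    · rintro ⟨a, h⟩ i
      have := h i.castSucc
      rw [Fin.snoc_castSucc] at this
      exact this
    · intro h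
      refine ⟨x (m + n), fun i => ?_⟩
      refine Fin.lastCases ?_ (fun i => ?_) i
      · rw [Fin.snoc_last]
        simp
      · rw [Fin.snoc_castSucc]
        exact h i
  · intro a _ b _ hab
    refine Set.disjoint_left.2 fun x hx hx' => hab ?_
    have h1 := hx (Fin.last n)
    have h2 := hx' (Fin.last n)
    rw [Fin.snoc_last] at h1 h2
    rw [← h1, ← h2]
  · intro a _
    exact CO_meas _ _

lemma CO_cons (μ : Measure (ℤ → Fin D)) [IsProbabilityMeasure μ] (m : ℤ) (n : ℕ)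
    (w : Fin n → Fin D) :
    ∑ a, μ.real (cyl m (Fin.cons a w : Fin (n + 1) → Fin D)) = μ.real (cyl (m + 1) w) := by
  rw [← measureReal_biUnion_finset]
  · congr 1
    ext x
    simp only [Set.mem_iUnion, Finset.mem_univ, exists_prop, true_and, cyl, Set.mem_ofPred_eq]
    constructor
    · rintro ⟨a, h⟩ i
      have := h i.succ
      rw [Fin.cons_succ] at this
      rw [← this]
      congr 1
      rw [Fin.val_succ]
      push_cast
      ring
    · intro h
      refine ⟨x m, fun i => ?_⟩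
      refine Fin.cases ?_ (fun i => ?_) i
      · rw [Fin.cons_zero]
        simp
      · rw [Fin.cons_succ, ← h i]
        congr 1
        rw [Fin.val_succ]
        push_cast
        ring
  · intro a _ b _ hab
    refine Set.disjoint_left.2 fun x hx hx' => hab ?_
    have h1 := hx 0
    have h2 := hx' 0
    rw [Fin.cons_zero] at h1 h2
    rw [← h1, ← h2]
  · intro a _
    exact CO_meas _ _

lemma CO_nil (μ : Measure (ℤ → Fin D)) [IsProbabilityMeasure μ] (m : ℤ)
    (w : Fin 0 → Fin D) : μ.real (cyl m w) = 1 := by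
  have : cyl m w = Set.univ := by
    ext x
    simp [cyl]
  rw [this]
  simp

lemma CO_shift (ν : Measure (ℤ → Fin D))
    (hν : ∀ (m : ℤ) (n : ℕ) (w : Fin n → Fin D), ν.real (cyl (m + 1) w) = ν.real (cyl m w))
    (m : ℤ) (n : ℕ) (w : Fin n → Fin D) : ν.real (cyl m w) = ν.real (cyl 0 w) := by
  induction m using Int.induction_on with
  | zero => rfl
  | succ i ih => rw [hν, ih]
  | pred i ih =>
    rw [← ih, ← hν]
    congr 2
    ring

/-- mixtures of invariant measures with the uniform measure are diagonals of invariant states -/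
theorem CO_mix (hMX : S_MX) (hD : 2 ≤ D) (μ ν : Measure (ℤ → Fin D)) [IsProbabilityMeasure μ]
    [IsProbabilityMeasure ν]
    (hν : ∀ (m : ℤ) (n : ℕ) (w : Fin n → Fin D), ν.real (cyl (m + 1) w) = ν.real (cyl m w))
    (hμ : ∀ (m : ℤ) (n : ℕ) (w w' : Fin n → Fin D), (∀ i, ((w i : ℕ) + (w' i : ℕ)) % D = 0) →
      μ.real (cyl m w) =
        1 / 4 * ν.real (cyl m w) + 1 / 4 * ν.real (cyl m w') + 1 / 2 * ((D : ℝ) ^ n)⁻¹) :
    ∃ ρ : (n : ℕ) → Matrix (Fin n → Fin D) (Fin n → Fin D) ℂ, IsInv (dft D) ρ ∧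
      ∀ (m : ℤ) (n : ℕ) (w : Fin n → Fin D), μ.real (cyl m w) = (ρ n w w).re := by
  obtain ⟨ρ, h1, h2⟩ := hMX D hD (fun n w => ν.real (cyl 0 w)) (fun n w => measureReal_nonneg)
    (fun w => CO_nil ν 0 w) (fun n w => CO_snoc ν 0 n w)
    (fun n w => by rw [CO_cons ν 0 n w, hν])
  refine ⟨ρ, h1, fun m n w => ?_⟩
  have hpos : 0 < D := by omega
  set w' : Fin n → Fin D := fun i => ⟨(D - (w i : ℕ)) % D, Nat.mod_lt _ hpos⟩ with hw'
  have h3 : ∀ i, ((w i : ℕ) + (w' i : ℕ)) % D = 0 := by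
    intro i
    simp only [hw', Nat.add_mod_mod]
    have := (w i).2
    rw [Nat.add_sub_cancel' this.le, Nat.mod_self]
  rw [h2 n w w' h3, hμ m n w w' h3, CO_shift ν hν m n w, CO_shift ν hν m n w']

/-- Bernoulli measures -/
theorem CO_ber (hBE : S_BE) (p : ℝ) (h0 : 0 ≤ p) (h1 : p ≤ 1) (μ : Measure (ℤ → Fin 2))
    (hμ : ∀ (m : ℤ) (n : ℕ) (w : Fin n → Fin 2),
      μ.real (cyl m w) = ∏ i, if w i = 1 then p else 1 - p) :
    (∃ ρ : (n : ℕ) → Matrix (Fin n → Fin 2) (Fin n → Fin 2) ℂ, IsInv (dft 2) ρ ∧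
      ∀ (m : ℤ) (n : ℕ) (w : Fin n → Fin 2), μ.real (cyl m w) = (ρ n w w).re) ↔
    (2 * p - 1) ^ 2 ≤ 1 / 2 := by
  rw [← hBE p h0 h1]
  constructor
  · rintro ⟨ρ, h2, h3⟩
    exact ⟨ρ, h2, fun n w => by rw [← h3 0 n w, hμ]⟩
  · rintro ⟨ρ, h2, h3⟩
    exact ⟨ρ, h2, fun m n w => by rw [h3 n w, hμ]⟩

theorem CO_entropy : Real.log 2 / 2 < Real.binEntropy (1 / 8) := by
  rw [Real.binEntropy]
  have h8 : Real.log ((1 / 8 : ℝ)⁻¹) = 3 * Real.log 2 := by
    rw [show ((1 / 8 : ℝ)⁻¹) = 2 ^ 3 by norm_num, Real.log_pow]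
    norm_num
  have h7 : Real.log ((1 - 1 / 8 : ℝ)⁻¹) = 3 * Real.log 2 - Real.log 7 := by
    rw [show ((1 - 1 / 8 : ℝ)⁻¹) = 2 ^ 3 / 7 by norm_num, Real.log_div (by norm_num) (by norm_num),
      Real.log_pow]
    norm_num
  rw [h8, h7]
  have h : 7 * Real.log 7 < 20 * Real.log 2 := by
    have e1 : (7 : ℝ) * Real.log 7 = Real.log (7 ^ 7) := by rw [Real.log_pow]; norm_num
    have e2 : (20 : ℝ) * Real.log 2 = Real.log (2 ^ 20) := by rw [Real.log_pow]; norm_num
    rw [e1, e2]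
    exact Real.log_lt_log (by norm_num) (by norm_num)
  linarith

end Pool.Agent.N282.WB
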