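import Pool.Agent.N282.WB.Stm

/-!
# Project WB, module CR: the choice of the marker (helper935)
-/

set_option autoImplicit false

open scoped ComplexConjugate Matrix ComplexOrder
open Filter Topology MeasureTheory

noncomputable section

namespace Pool.Agent.N282.WB

section general

variable {D : ℕ} {ι : Type} [Fintype ι] [DecidableEq ι]

theorem CR_nsq_nonneg (ψ : St D ι) : 0 ≤ nsq ψ := Finset.sum_nonneg fun _ _ => by positivity

theorem CR_ip_self (ψ : St D ι) : ip ψ ψ = (nsq ψ : ℝ) := by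
  unfold ip nsq
  push_cast
  refine Finset.sum_congr rfl fun w _ => ?_
  rw [← Complex.conj_mul']

theorem CR_ip_conj (φ ψ : St D ι) : ‖ip φ ψ‖ = ‖ip ψ φ‖ := by
  have h : ip ψ φ = conj (ip φ ψ) := by
    unfold ip
    rw [map_sum]
    refine Finset.sum_congr rfl fun w _ => ?_
    rw [map_mul, Complex.conj_conj, mul_comm]
  rw [h, RCLike.norm_conj]

theorem CR_cs (φ ψ : St D ι) : ‖ip φ ψ‖ ^ 2 ≤ nsq φ * nsq ψ := by
  have h1 : ‖ip φ ψ‖ ≤ ∑ w, ‖φ w‖ * ‖ψ w‖ := by
    unfold ip
    refine (norm_sum_le _ _).trans (le_of_eq ?_)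
    refine Finset.sum_congr rfl fun w _ => ?_
    rw [norm_mul, RCLike.norm_conj]
  calc ‖ip φ ψ‖ ^ 2 ≤ (∑ w, ‖φ w‖ * ‖ψ w‖) ^ 2 := by
        gcongr
    _ ≤ _ := Finset.sum_mul_sq_le_sq_mul_sq _ _ _

/-- `A` preserves the norm if it preserves the scalar product. -/
theorem CR_nsq_of_ip {A : Module.End ℂ (St D ι)} (h : ∀ φ ψ, ip (A φ) (A ψ) = ip φ ψ) (ψ : St D ι) :
    nsq (A ψ) = nsq ψ := by
  have h1 := h ψ ψ
  rw [CR_ip_self, CR_ip_self] at h1
  exact_mod_cast h1

theorem CR_pj_apply (X : Finset ι) (α : ι → Fin D) (ψ : St D ι) (w : ι → Fin D) :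
    pj X α ψ w = if ∀ i ∈ X, w i = α i then ψ w else 0 := rfl

omit [Fintype ι] in
theorem CR_op_apply (i : ι) (M : Matrix (Fin D) (Fin D) ℂ) (ψ : St D ι) (w : ι → Fin D) :
    op i M ψ w = ∑ a, M (w i) a * ψ (Function.update w i a) := rfl

theorem CR_pj_nsq_le (X : Finset ι) (α : ι → Fin D) (ψ : St D ι) : nsq (pj X α ψ) ≤ nsq ψ := by
  unfold nsq
  refine Finset.sum_le_sum fun w _ => ?_
  rw [CR_pj_apply]
  split_ifs
  · exact le_rfl
  · simp

theorem CR_pj_empty (α : ι → Fin D) : (pj ∅ α : Module.End ℂ (St D ι)) = 1 := by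
  refine LinearMap.ext fun ψ => ?_
  funext w
  rw [CR_pj_apply]
  simp

theorem CR_pj_congr (X : Finset ι) {α β : ι → Fin D} (h : ∀ i ∈ X, α i = β i) :
    (pj X α : Module.End ℂ (St D ι)) = pj X β := by
  refine LinearMap.ext fun ψ => ?_
  funext w
  rw [CR_pj_apply, CR_pj_apply]
  have : (∀ i ∈ X, w i = α i) ↔ ∀ i ∈ X, w i = β i :=
    forall₂_congr fun i hi => by rw [h i hi]
  simp only [this]

/-- A projection commutes with the operators at the other sites. -/
theorem CR_pj_op (X : Finset ι) (α : ι → Fin D) (i : ι) (hi : i ∉ X)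
    (M : Matrix (Fin D) (Fin D) ℂ) :
    (pj X α * op i M : Module.End ℂ (St D ι)) = op i M * pj X α := by
  refine LinearMap.ext fun ψ => ?_
  funext w
  rw [Module.End.mul_apply, Module.End.mul_apply, CR_pj_apply, CR_op_apply, CR_op_apply]
  have h1 : ∀ a, pj X α ψ (Function.update w i a) =
      if ∀ j ∈ X, w j = α j then ψ (Function.update w i a) else 0 := by
    intro a
    rw [CR_pj_apply]
    have : (∀ j ∈ X, Function.update w i a j = α j) ↔ ∀ j ∈ X, w j = α j :=
      forall₂_congr fun j hj => by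
        rw [Function.update_of_ne (fun h => hi (by rw [← h]; exact hj))]
    simp only [this]
  simp only [h1]
  split_ifs <;> simp

/-- An operator which commutes with all operators at the sites of `X` commutes with the
projections. -/
theorem CR_comm_pj (h1 : S_OP) (A : Module.End ℂ (St D ι)) (X : Finset ι) (α : ι → Fin D)
    (h : ∀ i ∈ X, ∀ M, A * op i M = op i M * A) : A * pj X α = pj X α * A := by
  induction X using Finset.induction_on with
  | empty => rw [CR_pj_empty, mul_one, one_mul]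
  | insert i X hi ih =>
    have h2 := (h1 D ι).2.2.2.2.2.2.2.2 X α i hi
    rw [h2, ← mul_assoc, h i (Finset.mem_insert_self i X), mul_assoc,
      ih fun j hj => h j (Finset.mem_insert_of_mem hj), mul_assoc]

/-- The matrix units are contractions. -/
theorem CR_unit_le (i : ι) (c b : Fin D) (ψ : St D ι) :
    nsq (op i (Matrix.single c b 1) ψ) ≤ nsq ψ := by
  have h1 : ∀ w, op i (Matrix.single c b (1 : ℂ)) ψ w =
      if w i = c then ψ (Function.update w i b) else 0 := by
    intro w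
    rw [CR_op_apply]
    by_cases hw : w i = c
    · rw [if_pos hw, Finset.sum_eq_single b]
      · rw [hw, Matrix.single_apply_same, one_mul]
      · intro a _ hab
        rw [Matrix.single_apply_of_ne, zero_mul]
        tauto
      · intro h; exact absurd (Finset.mem_univ b) h
    · rw [if_neg hw]
      refine Finset.sum_eq_zero fun a _ => ?_
      rw [Matrix.single_apply_of_ne, zero_mul]
      tauto
  unfold nsq
  calc ∑ w, ‖op i (Matrix.single c b (1 : ℂ)) ψ w‖ ^ 2
      = ∑ w ∈ Finset.univ.filter (fun w : ι → Fin D => w i = c),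
          ‖ψ (Function.update w i b)‖ ^ 2 := by
        rw [Finset.sum_filter]
        refine Finset.sum_congr rfl fun w _ => ?_
        rw [h1]
        split_ifs <;> simp
    _ = ∑ v ∈ (Finset.univ.filter (fun w : ι → Fin D => w i = c)).image
          (fun w => Function.update w i b), ‖ψ v‖ ^ 2 := by
        rw [Finset.sum_image]
        intro w hw w' hw' h
        have e1 : w i = c := by simpa using hw
        have e2 : w' i = c := by simpa using hw'
        funext j
        by_cases hj : j = i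
        · subst hj; rw [e1, e2]
        · have := congrFun h j
          simpa [Function.update_of_ne hj] using this
    _ ≤ ∑ v, ‖ψ v‖ ^ 2 :=
        Finset.sum_le_sum_of_subset_of_nonneg (Finset.subset_univ _) fun _ _ _ => by positivity

theorem CR_prod_sum (f : ι → Fin D → ℝ) :
    ∑ b : ι → Fin D, ∏ i, f i (b i) = ∏ i, ∑ c, f i c := by
  rw [Finset.prod_univ_sum, Fintype.piFinset_univ]

/-- The number of words with given letters on `X`. -/
theorem CR_count (X : Finset ι) (w : ι → Fin D) :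
    (∑ b : ι → Fin D, if ∀ i ∈ X, w i = b i then (1 : ℝ) else 0) * (D : ℝ) ^ X.card =
      (D : ℝ) ^ Fintype.card ι := by
  have h1 : ∀ b : ι → Fin D, (if ∀ i ∈ X, w i = b i then (1 : ℝ) else 0) =
      ∏ i, if i ∈ X then (if w i = b i then (1 : ℝ) else 0) else 1 := by
    intro b
    rw [Finset.prod_ite_mem, Finset.univ_inter]
    split_ifs with h
    · exact (Finset.prod_eq_one fun i hi => if_pos (h i hi)).symm
    · push Not at h
      obtain ⟨i, hi, hne⟩ := h
      exact (Finset.prod_eq_zero hi (if_neg hne)).symm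
  simp only [h1]
  rw [CR_prod_sum (fun i c => if i ∈ X then (if w i = c then (1 : ℝ) else 0) else 1)]
  have h2 : (D : ℝ) ^ X.card = ∏ i : ι, if i ∈ X then (D : ℝ) else 1 := by
    rw [Finset.prod_ite_mem, Finset.univ_inter, Finset.prod_const]
  have h3 : (D : ℝ) ^ Fintype.card ι = ∏ _i : ι, (D : ℝ) := by
    rw [Finset.prod_const, Finset.card_univ]
  rw [h2, h3, ← Finset.prod_mul_distrib]
  refine Finset.prod_congr rfl fun i _ => ?_
  by_cases hi : i ∈ X
  · simp [hi]
  · simp [hi]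

/-- The sum of the squares of the norms of the projections. -/
theorem CR_pj_sum (X : Finset ι) (χ : St D ι) :
    (∑ b : ι → Fin D, nsq (pj X b χ)) * (D : ℝ) ^ X.card = (D : ℝ) ^ Fintype.card ι * nsq χ := by
  have h1 : ∑ b : ι → Fin D, nsq (pj X b χ) =
      ∑ w, ‖χ w‖ ^ 2 * ∑ b : ι → Fin D, if ∀ i ∈ X, w i = b i then (1 : ℝ) else 0 := by
    unfold nsq
    rw [Finset.sum_comm]
    refine Finset.sum_congr rfl fun w _ => ?_
    rw [Finset.mul_sum]
    refine Finset.sum_congr rfl fun b _ => ?_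
    rw [CR_pj_apply]
    split_ifs <;> simp
  rw [h1, Finset.sum_mul]
  unfold nsq
  rw [Finset.mul_sum]
  refine Finset.sum_congr rfl fun w _ => ?_
  rw [mul_assoc, CR_count, mul_comm]

/-- The exchange of the letters on `X`. -/
theorem CR_swap (X : Finset ι) (f : (ι → Fin D) → (ι → Fin D) → ℝ)
    (hf : ∀ a b, f (X.piecewise b a) (X.piecewise b a) = f a b) :
    ∑ a, ∑ b, f a b = (D : ℝ) ^ Fintype.card ι * ∑ c, f c c := by
  let e : ((ι → Fin D) × (ι → Fin D)) ≃ ((ι → Fin D) × (ι → Fin D)) :=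
    { toFun := fun p => (X.piecewise p.2 p.1, X.piecewise p.1 p.2)
      invFun := fun p => (X.piecewise p.2 p.1, X.piecewise p.1 p.2)
      left_inv := by
        intro p
        refine Prod.ext ?_ ?_ <;>
        · funext i
          by_cases hi : i ∈ X <;> simp [hi]
      right_inv := by
        intro p
        refine Prod.ext ?_ ?_ <;>
        · funext i
          by_cases hi : i ∈ X <;> simp [hi] }
  calc ∑ a, ∑ b, f a b = ∑ p : (ι → Fin D) × (ι → Fin D), f p.1 p.2 :=
        (Fintype.sum_prod_type' f).symm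
    _ = ∑ p : (ι → Fin D) × (ι → Fin D), f p.1 p.1 := by
        rw [← Equiv.sum_comp e (fun p => f p.1 p.1)]
        refine Finset.sum_congr rfl fun p _ => ?_
        exact (hf p.1 p.2).symm
    _ = ∑ c, ∑ _b : ι → Fin D, f c c := Fintype.sum_prod_type' (fun c _ => f c c)
    _ = (D : ℝ) ^ Fintype.card ι * ∑ c, f c c := by
        rw [Finset.mul_sum]
        refine Finset.sum_congr rfl fun c _ => ?_
        rw [Finset.sum_const, Finset.card_univ, Fintype.card_fun, Fintype.card_fin, nsmul_eq_mul]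
        push_cast
        ring

/-- The case of a shift without overlap. -/
theorem CR_case1 (X : Finset ι) (ψ : (ι → Fin D) → St D ι)
    (U V : Module.End ℂ (St D ι)) (hVU : V * U = 1) (hUV : U * V = 1)
    (hV : ∀ φ, nsq (V φ) = nsq φ) (hU : ∀ φ, nsq (U φ) = nsq φ)
    (hX : ∀ i ∈ X, ∃ j, j ∉ X ∧ ∀ M, ∃ M', U * op i M = op j M' * U)
    (hψ : ∀ i ∈ X, ∀ a c, ψ (Function.update a i c) = op i (Matrix.single c (a i) 1) (ψ a))
    (hn : ∀ a, nsq (ψ a) = 1) :
    (∑ a, nsq (pj X a (U (ψ a)))) * (D : ℝ) ^ X.card = (D : ℝ) ^ Fintype.card ι := by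
  obtain ⟨G, hGd⟩ : ∃ G : (ι → Fin D) → Module.End ℂ (St D ι), ∀ b, G b = V * pj X b * U :=
    ⟨_, fun _ => rfl⟩
  -- the operators commute with the operators at the sites of `X`
  have hG : ∀ b, ∀ i ∈ X, ∀ M, G b * op i M = op i M * G b := by
    intro b i hi M
    rw [hGd]
    obtain ⟨j, hj, hM⟩ := hX i hi
    obtain ⟨M', hM'⟩ := hM M
    have e1 : V * op j M' = op i M * V := by
      calc V * op j M' = V * op j M' * (U * V) := by rw [hUV, mul_one]
        _ = V * (op j M' * U) * V := by simp only [mul_assoc]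
        _ = V * (U * op i M) * V := by rw [hM']
        _ = (V * U) * op i M * V := by simp only [mul_assoc]
        _ = op i M * V := by rw [hVU, one_mul]
    calc (V * pj X b * U) * op i M = V * pj X b * (U * op i M) := by rw [mul_assoc]
      _ = V * (pj X b * op j M') * U := by rw [hM']; simp only [mul_assoc]
      _ = (V * op j M') * pj X b * U := by rw [CR_pj_op X b j hj]; simp only [mul_assoc]
      _ = op i M * (V * pj X b * U) := by rw [e1]; simp only [mul_assoc]
  have hle : ∀ b, ∀ i ∈ X, ∀ a c, nsq (G b (ψ (Function.update a i c))) ≤ nsq (G b (ψ a)) := by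
    intro b i hi a c
    rw [hψ i hi a c, ← Module.End.mul_apply, hG b i hi, Module.End.mul_apply]
    exact CR_unit_le _ _ _ _
  have heq : ∀ b, ∀ i ∈ X, ∀ a c, nsq (G b (ψ (Function.update a i c))) = nsq (G b (ψ a)) := by
    intro b i hi a c
    refine le_antisymm (hle b i hi a c) ?_
    have := hle b i hi (Function.update a i c) (a i)
    rwa [Function.update_idem, Function.update_eq_self] at this
  have hpw : ∀ b, ∀ Y ⊆ X, ∀ a a', nsq (G b (ψ (Y.piecewise a' a))) = nsq (G b (ψ a)) := by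
    intro b Y
    induction Y using Finset.induction_on with
    | empty =>
      intro _ a a'
      rw [Finset.piecewise_empty]
    | insert i Y hi ih =>
      intro hY a a'
      rw [Finset.piecewise_insert, heq b i (hY (Finset.mem_insert_self i Y))]
      exact ih ((Finset.subset_insert i Y).trans hY) a a'
  have hfG : ∀ a b, nsq (pj X b (U (ψ a))) = nsq (G b (ψ a)) := by
    intro a b
    rw [hGd, Module.End.mul_apply, Module.End.mul_apply, hV]
  have hf : ∀ a b, nsq (pj X (X.piecewise b a) (U (ψ (X.piecewise b a)))) =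
      nsq (pj X b (U (ψ a))) := by
    intro a b
    rw [CR_pj_congr X (β := b) (fun i hi => Finset.piecewise_eq_of_mem X b a hi), hfG, hfG]
    exact hpw b X (Finset.Subset.refl X) a b
  have h2 := CR_swap X (fun a b => nsq (pj X b (U (ψ a)))) hf
  have h3 : (∑ a, ∑ b, nsq (pj X b (U (ψ a)))) * (D : ℝ) ^ X.card =
      (D : ℝ) ^ Fintype.card ι * (D : ℝ) ^ Fintype.card ι := by
    rw [Finset.sum_mul]
    have h4 : ∀ a : ι → Fin D, (∑ b, nsq (pj X b (U (ψ a)))) * (D : ℝ) ^ X.card =
        (D : ℝ) ^ Fintype.card ι := by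
      intro a
      rw [CR_pj_sum, hU, hn, mul_one]
    rw [Finset.sum_congr rfl fun a _ => h4 a, Finset.sum_const, Finset.card_univ,
      Fintype.card_fun, Fintype.card_fin, nsmul_eq_mul]
    push_cast
    ring
  rw [h2] at h3
  rcases Nat.eq_zero_or_pos D with hD | hD
  · subst hD
    rcases isEmpty_or_nonempty ι with hι | hι
    · have e1 : X = ∅ := Finset.eq_empty_of_isEmpty X
      subst e1
      simp only [Finset.card_empty, pow_zero, mul_one, Fintype.card_eq_zero] at h3 ⊢
      linarith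
    · have : IsEmpty (ι → Fin 0) := ⟨fun a => (a (Classical.arbitrary ι)).elim0⟩
      rw [Finset.univ_eq_empty, Finset.sum_empty, zero_mul]
      have : 0 < Fintype.card ι := Fintype.card_pos
      simp [this.ne']
  · have hD' : (0 : ℝ) < (D : ℝ) ^ Fintype.card ι := by positivity
    rw [mul_assoc] at h3
    exact mul_left_cancel₀ hD'.ne' h3

theorem CR_opA_pow (h1 : S_OP) (M : Matrix (Fin D) (Fin D) ℂ) (j : ℕ) :
    (opA M ^ j : Module.End ℂ (St D ι)) = opA (M ^ j) := by
  obtain ⟨-, -, -, -, hmul, hone, -⟩ := h1 D ι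
  induction j with
  | zero => rw [pow_zero, pow_zero, hone]
  | succ j ih => rw [pow_succ, ih, hmul, ← pow_succ]

theorem CR_opA_nsq (h1 : S_OP) (M : Matrix (Fin D) (Fin D) ℂ) (hM : Mᴴ * M = 1) (φ : St D ι) :
    nsq (opA M φ) = nsq φ := by
  obtain ⟨-, -, -, -, hmul, hone, hadj, -⟩ := h1 D ι
  refine CR_nsq_of_ip (A := opA M) (fun φ ψ => ?_) φ
  rw [hadj, ← Module.End.mul_apply, hmul, hM, hone, Module.End.one_apply]

omit [Fintype ι] in
/-- A set of sites without overlap with its image. -/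
theorem CR_disj (τ : ι ≃ ι) (hτ : ∀ i, τ i ≠ i) : ∀ (m : ℕ) (Y : Finset ι), Y.card = m →
    ∃ X ⊆ Y, Y.card ≤ 3 * X.card ∧ ∀ i ∈ X, τ i ∉ X := by
  intro m
  induction m using Nat.strong_induction_on with
  | _ m ih =>
    intro Y hY
    rcases Y.eq_empty_or_nonempty with rfl | ⟨y, hy⟩
    · exact ⟨∅, Finset.Subset.refl _, by simp, by simp⟩
    · obtain ⟨X, hX1, hX2, hX3⟩ := ih (((Y.erase y).erase (τ y)).erase (τ.symm y)).card
        (by
          rw [← hY]
          exact (Finset.card_le_card ((Finset.erase_subset _ _).trans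
            (Finset.erase_subset _ _))).trans_lt (Finset.card_erase_lt_of_mem hy)) _ rfl
      have hy1 : y ∉ X := fun h => by
        have := hX1 h
        simp at this
      have hy2 : τ y ∉ X := fun h => by
        have := hX1 h
        simp at this
      have hy3 : τ.symm y ∉ X := fun h => by
        have := hX1 h
        simp at this
      refine ⟨insert y X, ?_, ?_, ?_⟩
      · intro z hz
        rcases Finset.mem_insert.1 hz with rfl | hz
        · exact hy
        · exact Finset.mem_of_mem_erase (Finset.mem_of_mem_erase (Finset.mem_of_mem_erase (hX1 hz)))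
      · rw [Finset.card_insert_of_notMem hy1]
        have e1 := Finset.card_erase_of_mem hy
        have e2 := Finset.pred_card_le_card_erase (s := Y.erase y) (a := τ y)
        have e3 := Finset.pred_card_le_card_erase (s := (Y.erase y).erase (τ y)) (a := τ.symm y)
        omega
      · intro z hz
        rcases Finset.mem_insert.1 hz with rfl | hz
        · rw [Finset.mem_insert, not_or]
          exact ⟨hτ z, hy2⟩
        · rw [Finset.mem_insert, not_or]
          refine ⟨fun h => hy3 ?_, hX3 z hz⟩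
          rw [← h, Equiv.symm_apply_apply]
          exact hz

end general

section cutting

variable {D k n : ℕ}

theorem CR_cut_apply (w : Fin n → Fin D) (ψ : St D (Fin k)) (y : Fin k → Fin D) :
    cut w ψ y = if ∀ (i : Fin n) (h : (i : ℕ) < k), y ⟨i, h⟩ = w i then ψ y else 0 := rfl

theorem CR_cut_le (w : Fin n → Fin D) (ψ : St D (Fin k)) : nsq (cut w ψ) ≤ nsq ψ := by
  unfold nsq
  refine Finset.sum_le_sum fun y _ => ?_
  rw [CR_cut_apply]
  split_ifs
  · exact le_rfl
  · simp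

theorem CR_cut_adj (w : Fin n → Fin D) (φ ψ : St D (Fin k)) :
    ip φ (cut w ψ) = ip (cut w φ) ψ := by
  unfold ip
  refine Finset.sum_congr rfl fun y _ => ?_
  rw [CR_cut_apply, CR_cut_apply]
  split_ifs <;> simp

theorem CR_cut_op (w : Fin n → Fin D) (i : Fin k) (hi : n ≤ (i : ℕ))
    (M : Matrix (Fin D) (Fin D) ℂ) :
    (cut w * op i M : Module.End ℂ (St D (Fin k))) = op i M * cut w := by
  refine LinearMap.ext fun ψ => ?_
  funext y
  rw [Module.End.mul_apply, Module.End.mul_apply, CR_cut_apply, CR_op_apply, CR_op_apply]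
  have h1 : ∀ a, cut w ψ (Function.update y i a) =
      if ∀ (l : Fin n) (h : (l : ℕ) < k), y ⟨l, h⟩ = w l then ψ (Function.update y i a) else 0 := by
    intro a
    rw [CR_cut_apply]
    have : (∀ (l : Fin n) (h : (l : ℕ) < k), Function.update y i a ⟨l, h⟩ = w l) ↔
        ∀ (l : Fin n) (h : (l : ℕ) < k), y ⟨l, h⟩ = w l :=
      forall₂_congr fun l h => by
        rw [Function.update_of_ne]
        intro h2
        have := congrArg Fin.val h2
        simp only at this
        omega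
    simp only [this]
  simp only [h1]
  split_ifs <;> simp

end cutting

section marker

variable {D M L : ℕ} (Φ : St D (Fin M))

/-- The wave function with the marker given by the letters of `a` at the last sites. -/
def CRpsi (L : ℕ) (a : Fin (M + L + 1) → Fin D) : St D (Fin (M + L + 1)) :=
  mkr Φ fun i => a (Fin.natAdd M i)

theorem CRpsi_apply (a w : Fin (M + (L + 1)) → Fin D) : CRpsi Φ L a w =
    Φ (fun i => w (Fin.castAdd (L + 1) i)) *
      if (∀ i : Fin (L + 1), w (Fin.natAdd M i) = a (Fin.natAdd M i)) then 1 else 0 := by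
  have : CRpsi Φ L a w = Φ (fun i => w (Fin.castAdd (L + 1) i)) *
      if (fun i : Fin (L + 1) => w (Fin.natAdd M i)) = (fun i => a (Fin.natAdd M i)) then 1
        else 0 := rfl
  rw [this]
  congr 1
  simp only [funext_iff]

/-- Sums over the words of length `M + (L + 1)`. -/
theorem CR_sum_add {R : Type} [AddCommMonoid R] {a b : ℕ} (f : (Fin (a + b) → Fin D) → R) :
    ∑ w, f w = ∑ u : Fin a → Fin D, ∑ v : Fin b → Fin D, f (Fin.append u v) := by
  rw [← Fintype.sum_prod_type' (fun u v => f (Fin.append u v))]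
  exact (Equiv.sum_comp (Fin.appendEquiv a b) f).symm

theorem CRpsi_nsq (a : Fin (M + L + 1) → Fin D) : nsq (CRpsi Φ L a) = nsq Φ := by
  unfold nsq
  have h0 : ∑ w, ‖CRpsi Φ L a w‖ ^ 2 =
      ∑ w : Fin (M + (L + 1)) → Fin D, ‖CRpsi Φ L a w‖ ^ 2 := rfl
  rw [h0, CR_sum_add (a := M) (b := L + 1)]
  refine Finset.sum_congr rfl fun u _ => ?_
  rw [Finset.sum_eq_single (fun i => a (Fin.natAdd M i))]
  · rw [CRpsi_apply]
    simp
  · intro v _ hv
    rw [CRpsi_apply, if_neg]
    · simp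
    · intro h
      apply hv
      funext i
      have := h i
      simpa using this
  · intro h
    exact absurd (Finset.mem_univ _) h

theorem CRpsi_update (a : Fin (M + (L + 1)) → Fin D) (i : Fin (L + 1)) (c : Fin D) :
    CRpsi Φ L (Function.update a (Fin.natAdd M i) c) =
      op (D := D) (ι := Fin (M + (L + 1))) (Fin.natAdd M i)
        (Matrix.single c (a (Fin.natAdd M i)) 1) (CRpsi Φ L a) := by
  funext w
  rw [CR_op_apply]
  have h1 : ∀ j : Fin M, Fin.castAdd (L + 1) j ≠ Fin.natAdd M i := by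
    intro j h
    have := congrArg Fin.val h
    simp only [Fin.val_castAdd, Fin.val_natAdd] at this
    omega
  have hR : ∀ x, CRpsi Φ L a (Function.update w (Fin.natAdd M i) x) =
      Φ (fun j => w (Fin.castAdd (L + 1) j)) * if (∀ j : Fin (L + 1),
        Function.update w (Fin.natAdd M i) x (Fin.natAdd M j) = a (Fin.natAdd M j)) then 1
          else 0 := by
    intro x
    rw [CRpsi_apply]
    congr 2
    funext j
    rw [Function.update_of_ne (h1 j)]
  have hL := CRpsi_apply Φ (Function.update a (Fin.natAdd M i) c) w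
  rw [hL]
  by_cases hw : w (Fin.natAdd M i) = c
  · rw [Finset.sum_eq_single (a (Fin.natAdd M i))]
    · rw [hw, Matrix.single_apply_same, one_mul, hR]
      congr 1
      have : (∀ j : Fin (L + 1), w (Fin.natAdd M j) =
          Function.update a (Fin.natAdd M i) c (Fin.natAdd M j)) ↔
          ∀ j : Fin (L + 1), Function.update w (Fin.natAdd M i) (a (Fin.natAdd M i))
            (Fin.natAdd M j) = a (Fin.natAdd M j) := by
        refine forall_congr' fun j => ?_
        by_cases hj : j = i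
        · subst hj
          simp [hw]
        · have hne : (Fin.natAdd M j : Fin (M + (L + 1))) ≠ Fin.natAdd M i := by
            intro h
            apply hj
            have := congrArg Fin.val h
            simp only [Fin.val_natAdd] at this
            exact Fin.ext (by omega)
          rw [Function.update_of_ne hne, Function.update_of_ne hne]
      simp only [this]
    · intro x _ hx
      rw [Matrix.single_apply_of_ne, zero_mul]
      tauto
    · intro h; exact absurd (Finset.mem_univ _) h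
  · rw [if_neg, mul_zero]
    · symm
      refine Finset.sum_eq_zero fun x _ => ?_
      rw [Matrix.single_apply_of_ne, zero_mul]
      tauto
    · intro h
      apply hw
      have := h i
      rwa [Function.update_self] at this

theorem CRpsi_pj (X : Finset (Fin (M + (L + 1)))) (hX : ∀ i ∈ X, ∃ j, i = Fin.natAdd M j)
    (a : Fin (M + (L + 1)) → Fin D) :
    pj (D := D) (ι := Fin (M + (L + 1))) X a (CRpsi Φ L a) = CRpsi Φ L a := by
  funext w
  rw [CR_pj_apply]
  split_ifs with h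
  · rfl
  · have hL := CRpsi_apply Φ a w
    rw [hL, if_neg, mul_zero]
    intro h2
    apply h
    intro i hi
    obtain ⟨j, rfl⟩ := hX i hi
    exact h2 j

theorem CR_col (N : Matrix (Fin D) (Fin D) ℂ) (hN : Nᴴ * N = 1) (b : Fin D) :
    ∑ c, ‖N c b‖ ^ 2 = 1 := by
  have h := congrFun (congrFun hN b) b
  rw [Matrix.mul_apply, Matrix.one_apply_eq] at h
  have h2 : ((∑ c, ‖N c b‖ ^ 2 : ℝ) : ℂ) = 1 := by
    rw [← h]
    push_cast
    refine Finset.sum_congr rfl fun c _ => ?_
    rw [Matrix.conjTranspose_apply, ← Complex.conj_mul']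
    rfl
  exact_mod_cast h2

/-- The case of a multiple of the length: one word. -/
theorem CR_case2_one (h1 : S_OP) (X : Finset (Fin (M + (L + 1))))
    (N : Matrix (Fin D) (Fin D) ℂ) (hN : Nᴴ * N = 1)
    (a : Fin (M + (L + 1)) → Fin D) :
    nsq (pj (D := D) (ι := Fin (M + (L + 1))) X a (opA N (CRpsi Φ L a))) ≤
      nsq Φ * ∏ j : Fin (L + 1), if Fin.natAdd M j ∈ X then
        ‖N (a (Fin.natAdd M j)) (a (Fin.natAdd M j))‖ ^ 2 else 1 := by
  have hop : ∀ w : Fin (M + (L + 1)) → Fin D,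
      opA (D := D) (ι := Fin (M + (L + 1))) N (CRpsi Φ L a) w =
      opA (D := D) (ι := Fin M) N Φ (fun i => w (Fin.castAdd (L + 1) i)) *
        ∏ j : Fin (L + 1), N (w (Fin.natAdd M j)) (a (Fin.natAdd M j)) := by
    intro w
    have e0 : opA (D := D) (ι := Fin (M + (L + 1))) N (CRpsi Φ L a) w =
      ∑ u : Fin (M + (L + 1)) → Fin D, (∏ i, N (w i) (u i)) * CRpsi Φ L a u := rfl
    have e1 : opA (D := D) (ι := Fin M) N Φ (fun i => w (Fin.castAdd (L + 1) i)) =
      ∑ u : Fin M → Fin D, (∏ i, N (w (Fin.castAdd (L + 1) i)) (u i)) * Φ u := rfl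
    rw [e0, e1, CR_sum_add, Finset.sum_mul]
    refine Finset.sum_congr rfl fun u _ => ?_
    rw [Finset.sum_eq_single (fun i => a (Fin.natAdd M i))]
    · rw [CRpsi_apply, Fin.prod_univ_add]
      simp only [Fin.append_left, Fin.append_right, implies_true, if_true]
      ring
    · intro v _ hv
      rw [CRpsi_apply, if_neg]
      · simp
      · intro h
        apply hv
        funext i
        have := h i
        simpa using this
    · intro h
      exact absurd (Finset.mem_univ _) h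
  have hsum : nsq (pj (D := D) (ι := Fin (M + (L + 1))) X a (opA N (CRpsi Φ L a))) =
      ∑ w : Fin (M + (L + 1)) → Fin D,
        ‖pj (D := D) (ι := Fin (M + (L + 1))) X a (opA N (CRpsi Φ L a)) w‖ ^ 2 := rfl
  rw [hsum, CR_sum_add]
  have hterm : ∀ (u : Fin M → Fin D) (v : Fin (L + 1) → Fin D),
      ‖pj (D := D) (ι := Fin (M + (L + 1))) X a (opA N (CRpsi Φ L a)) (Fin.append u v)‖ ^ 2 ≤
      ‖opA (D := D) (ι := Fin M) N Φ u‖ ^ 2 * ∏ j : Fin (L + 1),
        if Fin.natAdd M j ∈ X then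
          (if v j = a (Fin.natAdd M j) then ‖N (v j) (a (Fin.natAdd M j))‖ ^ 2 else 0)
        else ‖N (v j) (a (Fin.natAdd M j))‖ ^ 2 := by
    intro u v
    rw [CR_pj_apply]
    split_ifs with h
    · rw [hop]
      simp only [Fin.append_left, Fin.append_right]
      rw [norm_mul, mul_pow, norm_prod, ← Finset.prod_pow]
      apply le_of_eq
      congr 1
      refine Finset.prod_congr rfl fun j _ => ?_
      split_ifs with h2 h3
      · rfl
      · exfalso
        apply h3
        have := h _ h2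
        rwa [Fin.append_right] at this
      · rfl
    · rw [norm_zero, zero_pow two_ne_zero]
      refine mul_nonneg (by positivity) (Finset.prod_nonneg fun j _ => ?_)
      split_ifs <;> positivity
  have hN2 : nsq (opA (D := D) (ι := Fin M) N Φ) = nsq Φ := CR_opA_nsq h1 N hN Φ
  calc ∑ u : Fin M → Fin D, ∑ v : Fin (L + 1) → Fin D,
        ‖pj (D := D) (ι := Fin (M + (L + 1))) X a (opA N (CRpsi Φ L a)) (Fin.append u v)‖ ^ 2
      ≤ ∑ u : Fin M → Fin D, ∑ v : Fin (L + 1) → Fin D,
        ‖opA (D := D) (ι := Fin M) N Φ u‖ ^ 2 * ∏ j : Fin (L + 1),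
        (if Fin.natAdd M j ∈ X then
          (if v j = a (Fin.natAdd M j) then ‖N (v j) (a (Fin.natAdd M j))‖ ^ 2 else 0)
        else ‖N (v j) (a (Fin.natAdd M j))‖ ^ 2) :=
        Finset.sum_le_sum fun u _ => Finset.sum_le_sum fun v _ => hterm u v
    _ = (∑ u : Fin M → Fin D, ‖opA (D := D) (ι := Fin M) N Φ u‖ ^ 2) *
        ∑ v : Fin (L + 1) → Fin D, ∏ j : Fin (L + 1),
        (if Fin.natAdd M j ∈ X then
          (if v j = a (Fin.natAdd M j) then ‖N (v j) (a (Fin.natAdd M j))‖ ^ 2 else 0)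
        else ‖N (v j) (a (Fin.natAdd M j))‖ ^ 2) := by
        rw [Finset.sum_mul]
        refine Finset.sum_congr rfl fun u _ => ?_
        rw [Finset.mul_sum]
    _ = nsq Φ * ∏ j : Fin (L + 1), if Fin.natAdd M j ∈ X then
        ‖N (a (Fin.natAdd M j)) (a (Fin.natAdd M j))‖ ^ 2 else 1 := by
        have e : ∑ u : Fin M → Fin D, ‖opA (D := D) (ι := Fin M) N Φ u‖ ^ 2 = nsq Φ := hN2
        rw [e, CR_prod_sum (fun (j : Fin (L + 1)) c => if Fin.natAdd M j ∈ X then
          (if c = a (Fin.natAdd M j) then ‖N c (a (Fin.natAdd M j))‖ ^ 2 else 0)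
        else ‖N c (a (Fin.natAdd M j))‖ ^ 2)]
        congr 1
        refine Finset.prod_congr rfl fun j _ => ?_
        split_ifs with h
        · rw [Finset.sum_ite_eq' Finset.univ, if_pos (Finset.mem_univ _)]
        · exact CR_col N hN _

/-- The case of a multiple of the length. -/
theorem CR_case2 (h1 : S_OP) (X : Finset (Fin (M + (L + 1))))
    (hX : ∀ i ∈ X, ∃ j, i = Fin.natAdd M j)
    (N : Matrix (Fin D) (Fin D) ℂ) (hN : Nᴴ * N = 1) (q : ℝ)
    (hNq : ∑ c, ‖N c c‖ ^ 2 ≤ q * D) (hΦ : nsq Φ = 1) :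
    ∑ a : Fin (M + (L + 1)) → Fin D,
      nsq (pj (D := D) (ι := Fin (M + (L + 1))) X a (opA N (CRpsi Φ L a))) ≤
      (D : ℝ) ^ (M + L + 1) * q ^ X.card := by
  have hterm : ∀ a : Fin (M + (L + 1)) → Fin D,
      nsq (pj (D := D) (ι := Fin (M + (L + 1))) X a (opA N (CRpsi Φ L a))) ≤
      ∏ k : Fin (M + (L + 1)), if k ∈ X then ‖N (a k) (a k)‖ ^ 2 else 1 := by
    intro a
    refine (CR_case2_one Φ h1 X N hN a).trans (le_of_eq ?_)
    rw [hΦ, one_mul, Fin.prod_univ_add (fun k : Fin (M + (L + 1)) =>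
      if k ∈ X then ‖N (a k) (a k)‖ ^ 2 else 1)]
    have e : ∏ i : Fin M, (if Fin.castAdd (L + 1) i ∈ X then
        ‖N (a (Fin.castAdd (L + 1) i)) (a (Fin.castAdd (L + 1) i))‖ ^ 2 else 1) = 1 := by
      refine Finset.prod_eq_one fun i _ => ?_
      rw [if_neg]
      intro h
      obtain ⟨j, hj⟩ := hX _ h
      have := congrArg Fin.val hj
      simp only [Fin.val_castAdd, Fin.val_natAdd] at this
      omega
    rw [e, one_mul]
  refine (Finset.sum_le_sum fun a _ => hterm a).trans ?_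
  rw [CR_prod_sum (fun (k : Fin (M + (L + 1))) c => if k ∈ X then ‖N c c‖ ^ 2 else 1)]
  calc ∏ k : Fin (M + (L + 1)), ∑ c, (if k ∈ X then ‖N c c‖ ^ 2 else 1)
      ≤ ∏ k : Fin (M + (L + 1)), (D : ℝ) * (if k ∈ X then q else 1) := by
        refine Finset.prod_le_prod (fun k _ => Finset.sum_nonneg fun c _ => ?_) fun k _ => ?_
        · split_ifs <;> positivity
        · split_ifs with h
          · linarith
          · simp
    _ = (D : ℝ) ^ (M + L + 1) * q ^ X.card := by
        rw [Finset.prod_mul_distrib, Finset.prod_const, Finset.card_univ, Fintype.card_fin,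
          Finset.prod_ite_mem, Finset.univ_inter, Finset.prod_const]
        rfl

end marker

section dynamics

variable {D k : ℕ}

theorem CR_pow_ip (h2 : S_BK) (F : Matrix (Fin D) (Fin D) ℂ) (hF : Fᴴ * F = 1) (m : ℕ)
    (φ ψ : St D (Fin (k + 1))) : ip ((bk F k ^ m) φ) ((bk F k ^ m) ψ) = ip φ ψ := by
  induction m with
  | zero => rw [pow_zero, Module.End.one_apply, Module.End.one_apply]
  | succ m ih =>
    rw [pow_succ', Module.End.mul_apply, Module.End.mul_apply, (h2 D k F hF).1, ih]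

theorem CR_pow_nsq (h2 : S_BK) (F : Matrix (Fin D) (Fin D) ℂ) (hF : Fᴴ * F = 1) (m : ℕ)
    (ψ : St D (Fin (k + 1))) : nsq ((bk F k ^ m) ψ) = nsq ψ :=
  CR_nsq_of_ip (A := bk F k ^ m) (CR_pow_ip h2 F hF m) ψ

theorem CR_pow_op (h2 : S_BK) (F : Matrix (Fin D) (Fin D) ℂ) (hF : Fᴴ * F = 1) (m : ℕ)
    (i : Fin (k + 1)) (N : Matrix (Fin D) (Fin D) ℂ) :
    ∃ N' : Matrix (Fin D) (Fin D) ℂ, bk F k ^ m * op i N = op (i - m • 1) N' * bk F k ^ m := by
  induction m with
  | zero => exact ⟨N, by rw [pow_zero, zero_smul, sub_zero, one_mul, mul_one]⟩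
  | succ m ih =>
    obtain ⟨N', hN'⟩ := ih
    obtain ⟨N'', hN''⟩ := (h2 D k F hF).2.1 (i - m • 1) N'
    refine ⟨N'', ?_⟩
    rw [pow_succ', mul_assoc, hN', ← mul_assoc, hN'', mul_assoc, succ_nsmul, sub_sub]

theorem CR_smul_one (m : ℕ) : ((m • (1 : Fin (k + 1)) : Fin (k + 1)) : ℕ) = m % (k + 1) := by
  induction m with
  | zero => simp
  | succ m ih =>
    rw [succ_nsmul, Fin.val_add, ih, Nat.add_mod m 1, Fin.val_one']

theorem CR_smul_zero (m : ℕ) : m • (1 : Fin (k + 1)) = 0 ↔ k + 1 ∣ m := by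
  rw [Fin.ext_iff, CR_smul_one, Fin.val_zero, Nat.dvd_iff_mod_eq_zero]

theorem CR_pow_T (h1 : S_OP) (h2 : S_BK) (F : Matrix (Fin D) (Fin D) ℂ) (hF : Fᴴ * F = 1)
    (r : ℕ) (hr : F ^ r = 1) : bk F k ^ (r * (k + 1)) = 1 := by
  rw [mul_comm, pow_mul, (h2 D k F hF).2.2.2, CR_opA_pow h1, ← Matrix.conjTranspose_pow, hr,
    Matrix.conjTranspose_one]
  exact (h1 D (Fin (k + 1))).2.2.2.2.2.1

/-- The reduction to one projection. -/
theorem CR_pair (h1 : S_OP) (h2 : S_BK) (F : Matrix (Fin D) (Fin D) ℂ) (hF : Fᴴ * F = 1)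
    (T : ℕ) (hT : bk F k ^ T = 1) (hT0 : k + 1 ∣ T) {n : ℕ} (w : Fin n → Fin D) (s t : ℕ)
    (hs : s ≤ T) (X : Finset (Fin (k + 1)))
    (hX : ∀ i ∈ X, n ≤ ((i - s • (1 : Fin (k + 1)) : Fin (k + 1)) : ℕ))
    (a : Fin (k + 1) → Fin D) (ψ : St D (Fin (k + 1))) (hψ : nsq ψ = 1)
    (hP : pj X a ψ = ψ) :
    ‖ip ((bk F k ^ s) ψ) (cut w ((bk F k ^ (s + t)) ψ))‖ ^ 2 ≤ nsq (pj X a ((bk F k ^ t) ψ)) := by
  obtain ⟨B, hB⟩ : ∃ B, B = bk F k := ⟨_, rfl⟩
  obtain ⟨V, hV⟩ : ∃ V, V = B ^ (T - s) := ⟨_, rfl⟩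
  obtain ⟨A, hA⟩ : ∃ A, A = V * cut w * B ^ s := ⟨_, rfl⟩
  have hVB : V * B ^ s = 1 := by
    rw [hV, ← pow_add, Nat.sub_add_cancel hs, hB, hT]
  have hVip : ∀ φ χ, ip (V φ) (V χ) = ip φ χ := by
    intro φ χ
    rw [hV, hB]
    exact CR_pow_ip h2 F hF _ φ χ
  have hcomm : ∀ i ∈ X, ∀ N, A * op i N = op i N * A := by
    intro i hi N
    obtain ⟨N', hN'⟩ := CR_pow_op h2 F hF s i N
    obtain ⟨N'', hN''⟩ := CR_pow_op h2 F hF (T - s) (i - s • 1) N'
    have e0 : i - s • (1 : Fin (k + 1)) - (T - s) • 1 = i := by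
      rw [sub_sub, ← add_nsmul, Nat.add_sub_cancel' hs, (CR_smul_zero T).2 hT0, sub_zero]
    rw [e0, ← hB, ← hV] at hN''
    rw [← hB] at hN'
    have e1 : op i N'' = op i N := by
      calc op i N'' = op i N'' * (V * B ^ s) := by rw [hVB, mul_one]
        _ = (op i N'' * V) * B ^ s := by rw [mul_assoc]
        _ = V * (op (i - s • 1) N' * B ^ s) := by rw [← hN'', mul_assoc]
        _ = (V * B ^ s) * op i N := by rw [← hN', mul_assoc]
        _ = op i N := by rw [hVB, one_mul]
    calc A * op i N = V * cut w * (B ^ s * op i N) := by rw [hA, mul_assoc]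
      _ = V * (cut w * op (i - s • 1) N') * B ^ s := by rw [hN']; simp only [mul_assoc]
      _ = (V * op (i - s • 1) N') * cut w * B ^ s := by
          rw [CR_cut_op w _ (hX i hi)]; simp only [mul_assoc]
      _ = op i N * A := by rw [hN'', e1, hA]; simp only [mul_assoc]
  have hApj := CR_comm_pj h1 A X a hcomm
  have hAle : ∀ χ, nsq (A χ) ≤ nsq χ := by
    intro χ
    have e1 : A χ = V (cut w ((B ^ s) χ)) := by rw [hA]; rfl
    rw [e1, CR_nsq_of_ip (A := V) hVip]
    refine (CR_cut_le _ _).trans (le_of_eq ?_)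
    rw [hB]
    exact CR_pow_nsq h2 F hF s χ
  have e2 : ip ((bk F k ^ s) ψ) (cut w ((bk F k ^ (s + t)) ψ)) = ip ψ (A ((B ^ t) ψ)) := by
    rw [← hB, ← hVip]
    have e3 : V ((B ^ s) ψ) = ψ := by
      rw [← Module.End.mul_apply, hVB, Module.End.one_apply]
    have e4 : V (cut w ((B ^ (s + t)) ψ)) = A ((B ^ t) ψ) := by
      rw [hA, pow_add]
      rfl
    rw [e3, e4]
  have hadj := (h1 D (Fin (k + 1))).2.2.2.2.2.2.2.1 X a
  have e5 : ip ψ (A ((B ^ t) ψ)) = ip ψ (A (pj X a ((B ^ t) ψ))) := by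
    conv_lhs => rw [← hP]
    rw [← hadj, ← Module.End.mul_apply (pj X a), ← hApj, Module.End.mul_apply]
    congr 4
  rw [e2, e5, ← hB]
  calc ‖ip ψ (A (pj X a ((B ^ t) ψ)))‖ ^ 2 ≤ nsq ψ * nsq (A (pj X a ((B ^ t) ψ))) := CR_cs _ _
    _ ≤ 1 * nsq (pj X a ((B ^ t) ψ)) := by
        rw [hψ]
        exact mul_le_mul_of_nonneg_left (hAle _) zero_le_one
    _ = _ := one_mul _

end dynamics

section final

/-- The numbers below one have a bound below one. -/
theorem CR_bound (c : ℕ → ℝ) (b : ℝ) (hb0 : 0 < b) (hb : b < 1) (r : ℕ)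
    (hc : ∀ j, 0 < j → j < r → c j < 1) :
    ∃ q : ℝ, 0 < q ∧ q < 1 ∧ b ≤ q ∧ ∀ j, 0 < j → j < r → c j ≤ q := by
  induction r with
  | zero => exact ⟨b, hb0, hb, le_rfl, fun j _ h => absurd h (Nat.not_lt_zero j)⟩
  | succ r ih =>
    obtain ⟨q, h0, h1, h2, h3⟩ := ih fun j h4 h5 => hc j h4 (by omega)
    rcases Nat.eq_zero_or_pos r with hr | hr
    · refine ⟨q, h0, h1, h2, fun j h4 h5 => ?_⟩
      omega
    · refine ⟨max q (c r), lt_max_of_lt_left h0, max_lt h1 (hc r hr (Nat.lt_succ_self r)),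
        h2.trans (le_max_left _ _), fun j h4 h5 => ?_⟩
      rcases Nat.lt_succ_iff_lt_or_eq.1 h5 with h6 | h6
      · exact (h3 j h4 h6).trans (le_max_left _ _)
      · rw [h6]
        exact le_max_right _ _

variable {D : ℕ}

theorem CR_pow_uni (F : Matrix (Fin D) (Fin D) ℂ) (hF : Fᴴ * F = 1) (j : ℕ) :
    (F ^ j)ᴴ * F ^ j = 1 ∧ F ^ j * (F ^ j)ᴴ = 1 := by
  have h1 : F ∈ Matrix.unitaryGroup (Fin D) ℂ := Matrix.mem_unitaryGroup_iff'.2 hF
  have h2 : F ^ j ∈ Matrix.unitaryGroup (Fin D) ℂ := pow_mem h1 j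
  exact ⟨Matrix.mem_unitaryGroup_iff'.1 h2, Matrix.mem_unitaryGroup_iff.1 h2⟩

theorem CR_shift (h1 : S_OP) (h2 : S_BK) (r : ℕ) (F : Matrix (Fin D) (Fin D) ℂ) (hG : Good F r)
    (q : ℝ) (hq0 : 0 < q) (hq1 : q < 1) (hqD : 1 / (D : ℝ) ≤ q)
    (hqj : ∀ j, 0 < j → j < r → (∑ c, ‖(F ^ j) c c‖ ^ 2) / D ≤ q) (M L n : ℕ) (Φ : St D (Fin M))
    (hΦ : nsq Φ = 1) (s t : ℕ) (ht : 0 < t) (htT : t < r * (M + L + 1)) :
    ∃ X : Finset (Fin (M + L + 1)), (∀ i ∈ X, ∃ j : Fin (L + 1), i = Fin.natAdd M j) ∧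
      (∀ i ∈ X, n ≤ ((i - s • (1 : Fin (M + L + 1)) : Fin (M + L + 1)) : ℕ)) ∧
      ∑ a, nsq (pj X a ((bk F (M + L) ^ t) (CRpsi Φ L a))) ≤
        (D : ℝ) ^ (M + L + 1) * q ^ ((L - n) / 3) := by
  classical
  have hD2 := hG.two
  have hD : (0 : ℝ) < D := by
    have : 0 < D := by omega
    exact_mod_cast this
  set Y : Finset (Fin (M + L + 1)) := Finset.univ.filter fun i =>
    (∃ j : Fin (L + 1), i = Fin.natAdd M j) ∧
      n ≤ ((i - s • (1 : Fin (M + L + 1)) : Fin (M + L + 1)) : ℕ) with hY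
  have hYmem : ∀ i ∈ Y, (∃ j : Fin (L + 1), i = Fin.natAdd M j) ∧
      n ≤ ((i - s • (1 : Fin (M + L + 1)) : Fin (M + L + 1)) : ℕ) := fun i hi =>
    (Finset.mem_filter.1 hi).2
  have hYcard : L + 1 - n ≤ Y.card := by
    have e1 : (Finset.univ.image (Fin.natAdd M : Fin (L + 1) → Fin (M + (L + 1)))).card =
        L + 1 := by
      rw [Finset.card_image_of_injective _ (fun a b h => by
        have := congrArg Fin.val h
        simp only [Fin.val_natAdd] at this
        exact Fin.ext (by omega)), Finset.card_univ, Fintype.card_fin]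
    have e2 : (Finset.univ.filter fun i : Fin (M + L + 1) =>
        ((i - s • (1 : Fin (M + L + 1)) : Fin (M + L + 1)) : ℕ) < n).card ≤ n := by
      calc (Finset.univ.filter fun i : Fin (M + L + 1) =>
          ((i - s • (1 : Fin (M + L + 1)) : Fin (M + L + 1)) : ℕ) < n).card
          ≤ (Finset.range n).card := by
            apply Finset.card_le_card_of_injOn
              (fun i => ((i - s • (1 : Fin (M + L + 1)) : Fin (M + L + 1)) : ℕ))
            · intro i hi
              have := (Finset.mem_filter.1 hi).2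
              exact Finset.mem_coe.2 (Finset.mem_range.2 this)
            · intro i _ j _ hij
              have h3 := Fin.ext hij
              exact sub_left_injective h3
        _ = n := Finset.card_range n
    have e3 : (Finset.univ.image (Fin.natAdd M : Fin (L + 1) → Fin (M + (L + 1)))) ⊆
        Y ∪ (Finset.univ.filter fun i : Fin (M + L + 1) =>
        ((i - s • (1 : Fin (M + L + 1)) : Fin (M + L + 1)) : ℕ) < n) := by
      intro i hi
      obtain ⟨j, -, hj⟩ := Finset.mem_image.1 hi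
      rw [Finset.mem_union]
      by_cases h3 : n ≤ ((i - s • (1 : Fin (M + L + 1)) : Fin (M + L + 1)) : ℕ)
      · left
        exact Finset.mem_filter.2 ⟨Finset.mem_univ _, ⟨j, hj.symm⟩, h3⟩
      · right
        exact Finset.mem_filter.2 ⟨Finset.mem_univ _, not_le.1 h3⟩
    have e4 := (Finset.card_le_card e3).trans (Finset.card_union_le _ _)
    omega
  have hqpow : ∀ m, (L - n) / 3 ≤ m → q ^ m ≤ q ^ ((L - n) / 3) := fun m hm =>
    pow_le_pow_of_le_one hq0.le hq1.le hm
  by_cases hdvd : M + L + 1 ∣ t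
  · obtain ⟨j, hj⟩ := hdvd
    have hj0 : 0 < j := by
      rcases Nat.eq_zero_or_pos j with h | h
      · rw [h] at hj; omega
      · exact h
    have hjr : j < r := by
      rw [hj, mul_comm r] at htT
      exact Nat.lt_of_mul_lt_mul_left htT
    refine ⟨Y, fun i hi => (hYmem i hi).1, fun i hi => (hYmem i hi).2, ?_⟩
    have e1 : bk F (M + L) ^ t = opA ((F ^ j)ᴴ) := by
      rw [hj, pow_mul, (h2 D (M + L) F hG.uni).2.2.2, CR_opA_pow h1, Matrix.conjTranspose_pow]
    rw [e1]
    have hN : ((F ^ j)ᴴ)ᴴ * (F ^ j)ᴴ = 1 := by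
      rw [Matrix.conjTranspose_conjTranspose]
      exact (CR_pow_uni F hG.uni j).2
    have hNq : ∑ c, ‖(F ^ j)ᴴ c c‖ ^ 2 ≤ q * D := by
      have e2 := hqj j hj0 hjr
      rw [div_le_iff₀ hD] at e2
      refine le_trans (le_of_eq ?_) e2
      refine Finset.sum_congr rfl fun c _ => ?_
      rw [Matrix.conjTranspose_apply]
      congr 1
      exact RCLike.norm_conj _
    have e3 := CR_case2 Φ h1 (L := L) Y (fun i hi => (hYmem i hi).1) ((F ^ j)ᴴ) hN q hNq hΦ
    refine le_trans e3 ?_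
    apply mul_le_mul_of_nonneg_left _ (by positivity)
    exact hqpow _ (by omega)
  · have hne : t • (1 : Fin (M + L + 1)) ≠ 0 := fun h => hdvd ((CR_smul_zero t).1 h)
    obtain ⟨X, hX1, hX2, hX3⟩ := CR_disj (Equiv.subRight (t • (1 : Fin (M + L + 1))))
      (fun i h => by
        apply hne
        have h3 : i - t • (1 : Fin (M + L + 1)) = i := h
        exact sub_eq_self.1 h3) _ Y rfl
    refine ⟨X, fun i hi => (hYmem i (hX1 hi)).1, fun i hi => (hYmem i (hX1 hi)).2, ?_⟩
    have hT := CR_pow_T h1 h2 (k := M + L) F hG.uni r hG.pow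
    have e1 := CR_case1 X (CRpsi Φ L) (bk F (M + L) ^ t)
      (bk F (M + L) ^ (r * (M + L + 1) - t))
      (by rw [← pow_add, Nat.sub_add_cancel htT.le, hT])
      (by rw [← pow_add, Nat.add_sub_cancel' htT.le, hT])
      (CR_pow_nsq h2 F hG.uni _) (CR_pow_nsq h2 F hG.uni _)
      (fun i hi => ⟨i - t • 1, hX3 i hi, fun N => CR_pow_op h2 F hG.uni t i N⟩)
      (by
        intro i hi a c
        obtain ⟨j, rfl⟩ := (hYmem i (hX1 hi)).1
        exact CRpsi_update Φ a j c)
      (fun a => by rw [CRpsi_nsq, hΦ])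
    rw [Fintype.card_fin] at e1
    have hDX : (0 : ℝ) < (D : ℝ) ^ X.card := by positivity
    have e2 : ∑ a, nsq (pj X a ((bk F (M + L) ^ t) (CRpsi Φ L a))) =
        (D : ℝ) ^ (M + L + 1) * (1 / (D : ℝ)) ^ X.card := by
      rw [one_div, inv_pow, ← e1, mul_inv_cancel_right₀ hDX.ne']
    rw [e2]
    apply mul_le_mul_of_nonneg_left _ (by positivity)
    exact (pow_le_pow_left₀ (by positivity) hqD _).trans (hqpow _ (by omega))

/-- The sum over all words for a pair of times. -/
theorem CR_lt (h1 : S_OP) (h2 : S_BK) (r : ℕ) (F : Matrix (Fin D) (Fin D) ℂ) (hG : Good F r)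
    (q : ℝ) (hq0 : 0 < q) (hq1 : q < 1) (hqD : 1 / (D : ℝ) ≤ q)
    (hqj : ∀ j, 0 < j → j < r → (∑ c, ‖(F ^ j) c c‖ ^ 2) / D ≤ q) (M L n : ℕ) (Φ : St D (Fin M))
    (hΦ : nsq Φ = 1) (s s' : ℕ) (hss : s < s') (hs' : s' < r * (M + L + 1))
    (w : Fin n → Fin D) :
    ∑ a, ‖ip ((bk F (M + L) ^ s) (CRpsi Φ L a))
      (cut w ((bk F (M + L) ^ s') (CRpsi Φ L a)))‖ ^ 2 ≤
        (D : ℝ) ^ (M + L + 1) * q ^ ((L - n) / 3) := by
  obtain ⟨t, rfl⟩ : ∃ t, s' = s + t := ⟨s' - s, by omega⟩
  obtain ⟨X, hX1, hX2, hX3⟩ := CR_shift h1 h2 r F hG q hq0 hq1 hqD hqj M L n Φ hΦ s t (by omega)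
    (by omega)
  refine le_trans (Finset.sum_le_sum fun a _ => ?_) hX3
  exact CR_pair h1 h2 F hG.uni (r * (M + L + 1)) (CR_pow_T h1 h2 F hG.uni r hG.pow)
    (Dvd.intro_left r rfl) w s t (by omega) X hX2 a _ (by rw [CRpsi_nsq, hΦ])
    (CRpsi_pj Φ (L := L) X hX1 a)

theorem CR_ne (h1 : S_OP) (h2 : S_BK) (r : ℕ) (F : Matrix (Fin D) (Fin D) ℂ) (hG : Good F r)
    (q : ℝ) (hq0 : 0 < q) (hq1 : q < 1) (hqD : 1 / (D : ℝ) ≤ q)
    (hqj : ∀ j, 0 < j → j < r → (∑ c, ‖(F ^ j) c c‖ ^ 2) / D ≤ q) (M L n : ℕ) (Φ : St D (Fin M))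
    (hΦ : nsq Φ = 1) (s s' : ℕ) (hs : s < r * (M + L + 1)) (hs' : s' < r * (M + L + 1))
    (hss : s ≠ s') (w : Fin n → Fin D) :
    ∑ a, ‖ip ((bk F (M + L) ^ s) (CRpsi Φ L a))
      (cut w ((bk F (M + L) ^ s') (CRpsi Φ L a)))‖ ^ 2 ≤
        (D : ℝ) ^ (M + L + 1) * q ^ ((L - n) / 3) := by
  rcases lt_or_gt_of_ne hss with h | h
  · exact CR_lt h1 h2 r F hG q hq0 hq1 hqD hqj M L n Φ hΦ s s' h hs' w
  · refine le_trans (le_of_eq ?_)
      (CR_lt h1 h2 r F hG q hq0 hq1 hqD hqj M L n Φ hΦ s' s h hs w)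
    refine Finset.sum_congr rfl fun a _ => ?_
    rw [CR_cut_adj, CR_ip_conj]

end final

theorem t_CR (h1 : S_OP) (h2 : S_BK) : S_CR := by
  classical
  intro D r F hG
  have hD2 := hG.two
  have hD : (0 : ℝ) < D := by
    have : 0 < D := by omega
    exact_mod_cast this
  have hD1 : 1 / (D : ℝ) < 1 := by
    rw [div_lt_one hD]
    have : (2 : ℝ) ≤ D := by exact_mod_cast hD2
    linarith
  obtain ⟨q, hq0, hq1, hqD, hqj⟩ := CR_bound (fun j => (∑ c, ‖(F ^ j) c c‖ ^ 2) / D) (1 / (D : ℝ))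
    (by positivity) hD1 r (by
      intro j hj0 hjr
      rw [div_lt_one hD]
      obtain ⟨a, ha⟩ := hG.dia j hj0 hjr
      have hle : ∀ c, ‖(F ^ j) c c‖ ≤ 1 := fun c => by
        have h3 := CR_col (F ^ j) (CR_pow_uni F hG.uni j).1 c
        have h4 : ‖(F ^ j) c c‖ ^ 2 ≤ ∑ b, ‖(F ^ j) b c‖ ^ 2 :=
          Finset.single_le_sum (f := fun b => ‖(F ^ j) b c‖ ^ 2) (fun b _ => by positivity)
            (Finset.mem_univ c)
        rw [h3] at h4
        exact (sq_le_one_iff₀ (norm_nonneg _)).1 h4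
      calc ∑ c, ‖(F ^ j) c c‖ ^ 2 < ∑ _c : Fin D, (1 : ℝ) := by
            apply Finset.sum_lt_sum
            · intro c _
              exact pow_le_one₀ (norm_nonneg _) (hle c)
            · exact ⟨a, Finset.mem_univ a, pow_lt_one₀ (norm_nonneg _) ha two_ne_zero⟩
        _ = D := by simp)
  refine ⟨q, hq0, hq1, ?_⟩
  intro M L n Φ hΦ
  set T : ℕ := r * (M + L + 1) with hT
  set e : ℕ := (L - n) / 3 with he
  by_contra hcon
  push Not at hcon
  set f : (Fin (M + L + 1) → Fin D) → ℕ → ℕ → (Fin n → Fin D) → ℝ := fun a s s' w =>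
    if s ≠ s' then ‖ip ((bk F (M + L) ^ s) (CRpsi Φ L a))
      (cut w ((bk F (M + L) ^ s') (CRpsi Φ L a)))‖ ^ 2 else 0 with hf
  have hf0 : ∀ a s s' w, 0 ≤ f a s s' w := by
    intro a s s' w
    rw [hf]
    simp only
    split_ifs <;> positivity
  have hlow : ∀ a, (T : ℝ) ^ 2 * D ^ n * q ^ e <
      ∑ s ∈ Finset.range T, ∑ s' ∈ Finset.range T, ∑ w, f a s s' w := by
    intro a
    obtain ⟨s, s', hs, hs', hne, w, hw⟩ := hcon fun i => a (Fin.natAdd M i)
    refine lt_of_lt_of_le hw ?_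
    have e1 : f a s s' w = ‖ip ((bk F (M + L) ^ s) (mkr Φ fun i => a (Fin.natAdd M i)))
        (cut w ((bk F (M + L) ^ s') (mkr Φ fun i => a (Fin.natAdd M i))))‖ ^ 2 := by
      rw [hf]
      simp only
      rw [if_pos hne]
      rfl
    rw [← e1]
    calc f a s s' w ≤ ∑ w, f a s s' w :=
          Finset.single_le_sum (f := fun w => f a s s' w) (fun w _ => hf0 a s s' w)
            (Finset.mem_univ w)
      _ ≤ ∑ s' ∈ Finset.range T, ∑ w, f a s s' w :=
          Finset.single_le_sum (f := fun s' => ∑ w, f a s s' w)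
            (fun s' _ => Finset.sum_nonneg fun w _ => hf0 a s s' w) (Finset.mem_range.2 hs')
      _ ≤ _ := Finset.single_le_sum (f := fun s => ∑ s' ∈ Finset.range T, ∑ w, f a s s' w)
            (fun s _ => Finset.sum_nonneg fun s' _ => Finset.sum_nonneg fun w _ => hf0 a s s' w)
            (Finset.mem_range.2 hs)
  have hne : (Finset.univ : Finset (Fin (M + L + 1) → Fin D)).Nonempty := by
    have : Nonempty (Fin D) := ⟨⟨0, by omega⟩⟩
    exact Finset.univ_nonempty
  have hsum := Finset.sum_lt_sum_of_nonempty hne fun a _ => hlow a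
  rw [Finset.sum_const, Finset.card_univ, Fintype.card_fun, Fintype.card_fin, Fintype.card_fin,
    nsmul_eq_mul] at hsum
  have hup : ∑ a : Fin (M + L + 1) → Fin D,
      ∑ s ∈ Finset.range T, ∑ s' ∈ Finset.range T, ∑ w, f a s s' w ≤
      ((D ^ (M + L + 1) : ℕ) : ℝ) * ((T : ℝ) ^ 2 * D ^ n * q ^ e) := by
    have e1 : ∑ a : Fin (M + L + 1) → Fin D,
        ∑ s ∈ Finset.range T, ∑ s' ∈ Finset.range T, ∑ w, f a s s' w =
        ∑ s ∈ Finset.range T, ∑ s' ∈ Finset.range T, ∑ w : Fin n → Fin D,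
          ∑ a : Fin (M + L + 1) → Fin D, f a s s' w := by
      rw [Finset.sum_comm]
      refine Finset.sum_congr rfl fun s _ => ?_
      rw [Finset.sum_comm]
      refine Finset.sum_congr rfl fun s' _ => ?_
      rw [Finset.sum_comm]
    rw [e1]
    calc ∑ s ∈ Finset.range T, ∑ s' ∈ Finset.range T, ∑ w : Fin n → Fin D,
          ∑ a : Fin (M + L + 1) → Fin D, f a s s' w
        ≤ ∑ _s ∈ Finset.range T, ∑ _s' ∈ Finset.range T, ∑ _w : Fin n → Fin D,
            (D : ℝ) ^ (M + L + 1) * q ^ e := by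
          refine Finset.sum_le_sum fun s hs => Finset.sum_le_sum fun s' hs' =>
            Finset.sum_le_sum fun w _ => ?_
          by_cases hss : s = s'
          · have : ∀ a, f a s s' w = 0 := fun a => by
              rw [hf]
              simp only
              rw [if_neg (not_not.2 hss)]
            rw [Finset.sum_eq_zero fun a _ => this a]
            positivity
          · have : ∀ a, f a s s' w = ‖ip ((bk F (M + L) ^ s) (CRpsi Φ L a))
                (cut w ((bk F (M + L) ^ s') (CRpsi Φ L a)))‖ ^ 2 := fun a => by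
              rw [hf]
              simp only
              rw [if_pos hss]
            rw [Finset.sum_congr rfl fun a _ => this a]
            exact CR_ne h1 h2 r F hG q hq0 hq1 hqD hqj M L n Φ hΦ s s' (Finset.mem_range.1 hs)
              (Finset.mem_range.1 hs') hss w
      _ = _ := by
          simp only [Finset.sum_const, Finset.card_range, Finset.card_univ, Fintype.card_fun,
            Fintype.card_fin, nsmul_eq_mul]
          push_cast
          ring
  exact absurd hsum (not_lt.2 hup)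

end Pool.Agent.N282.WB
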