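import Pool.Agent.N282.WB.Stm

/-!
# Project WB, module DF: the discrete Fourier transform (helper738)
-/

set_option autoImplicit false

open scoped ComplexConjugate Matrix ComplexOrder
open Filter Topology MeasureTheory

noncomputable section

namespace Pool.Agent.N282.WB

theorem DF_sum (D : ℕ) (hD : 0 < D) (m : ℤ) :
    ∑ b : Fin D, Complex.exp (2 * Real.pi * Complex.I * ((b : ℕ) : ℂ) * (m : ℂ) / D) =
      if (D : ℤ) ∣ m then (D : ℂ) else 0 := by
  have hD' : (D : ℂ) ≠ 0 := by exact_mod_cast hD.ne'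
  obtain ⟨z, hz⟩ : ∃ z, z = Complex.exp (2 * Real.pi * Complex.I * (m : ℂ) / D) := ⟨_, rfl⟩
  have h1 : ∀ b : Fin D, Complex.exp (2 * Real.pi * Complex.I * ((b : ℕ) : ℂ) * (m : ℂ) / D) =
      z ^ (b : ℕ) := by
    intro b
    rw [hz, ← Complex.exp_nat_mul]
    congr 1
    ring
  simp_rw [h1]
  rw [Fin.sum_univ_eq_sum_range (fun b => z ^ b) D]
  have h2 : z = 1 ↔ (D : ℤ) ∣ m := by
    rw [hz, Complex.exp_eq_one_iff]
    constructor
    · rintro ⟨n, hn⟩
      refine ⟨n, ?_⟩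
      have h3 : (m : ℂ) = D * n := by
        have h4 : (2 * Real.pi * Complex.I : ℂ) ≠ 0 := Complex.two_pi_I_ne_zero
        field_simp at hn
        have h5 : (2 * Real.pi * Complex.I : ℂ) * ((m : ℂ) - D * n) = 0 := by
          linear_combination (2 * Real.pi * Complex.I : ℂ) * hn
        have h6 := (mul_eq_zero.1 h5).resolve_left h4
        linear_combination h6
      exact_mod_cast h3
    · rintro ⟨n, hn⟩
      refine ⟨n, ?_⟩
      rw [hn]
      push_cast
      field_simp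
  split_ifs with h
  · rw [h2.2 h]
    simp
  · have h3 : z ≠ 1 := fun h4 => h (h2.1 h4)
    have h4 : z ^ D = 1 := by
      rw [hz, ← Complex.exp_nat_mul, Complex.exp_eq_one_iff]
      refine ⟨m, ?_⟩
      field_simp
    rw [geom_sum_eq h3, h4, sub_self, zero_div]

theorem DF_inv (D : ℕ) (hD : 0 < D) :
    ((Real.sqrt D : ℝ) : ℂ)⁻¹ * ((Real.sqrt D : ℝ) : ℂ)⁻¹ = (D : ℂ)⁻¹ := by
  rw [← mul_inv, ← Complex.ofReal_mul, Real.mul_self_sqrt (Nat.cast_nonneg D)]
  norm_num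

theorem DF_uni (D : ℕ) (hD : 0 < D) : (dft D)ᴴ * dft D = 1 := by
  have hD' : (D : ℂ) ≠ 0 := by exact_mod_cast hD.ne'
  ext a c
  rw [Matrix.mul_apply, Matrix.one_apply]
  have h1 : ∀ b : Fin D, (dft D)ᴴ a b * dft D b c = (D : ℂ)⁻¹ *
      Complex.exp (2 * Real.pi * Complex.I * ((b : ℕ) : ℂ) *
        ((((a : ℕ) : ℤ) - ((c : ℕ) : ℤ) : ℤ) : ℂ) / D) := by
    intro b
    rw [Matrix.conjTranspose_apply]
    unfold dft
    rw [RCLike.star_def, map_mul, ← Complex.exp_conj, map_inv₀, Complex.conj_ofReal]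
    have h2 : conj (-(2 * Real.pi * Complex.I * ((b : ℕ) : ℂ) * ((a : ℕ) : ℂ) / D)) =
        2 * Real.pi * Complex.I * ((b : ℕ) : ℂ) * ((a : ℕ) : ℂ) / D := by
      simp only [map_neg, map_div₀, map_mul, Complex.conj_ofReal, Complex.conj_I,
        Complex.conj_natCast, Complex.conj_ofNat]
      ring
    rw [h2, ← DF_inv D hD]
    have h3 : Complex.exp (2 * Real.pi * Complex.I * ((b : ℕ) : ℂ) *
        ((((a : ℕ) : ℤ) - ((c : ℕ) : ℤ) : ℤ) : ℂ) / D) =
        Complex.exp (2 * Real.pi * Complex.I * ((b : ℕ) : ℂ) * ((a : ℕ) : ℂ) / D) *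
        Complex.exp (-(2 * Real.pi * Complex.I * ((b : ℕ) : ℂ) * ((c : ℕ) : ℂ) / D)) := by
      rw [← Complex.exp_add]
      congr 1
      push_cast
      ring
    rw [h3]
    ring
  simp_rw [h1]
  rw [← Finset.mul_sum, DF_sum D hD]
  have h2 : (D : ℤ) ∣ ((a : ℕ) : ℤ) - ((c : ℕ) : ℤ) ↔ a = c := by
    constructor
    · intro h
      have h3 := Int.eq_zero_of_abs_lt_dvd h (by
        rw [abs_lt]
        have := a.2
        have := c.2
        constructor <;> omega)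
      ext
      omega
    · rintro rfl
      simp
  by_cases h : a = c
  · rw [if_pos h, if_pos (h2.2 h), inv_mul_cancel₀ hD']
  · rw [if_neg h, if_neg (fun h3 => h (h2.1 h3)), mul_zero]

theorem DF_sq (D : ℕ) (hD : 0 < D) (a c : Fin D) :
    (dft D ^ 2) a c = if D ∣ (a : ℕ) + (c : ℕ) then 1 else 0 := by
  have hD' : (D : ℂ) ≠ 0 := by exact_mod_cast hD.ne'
  rw [pow_two, Matrix.mul_apply]
  have h1 : ∀ b : Fin D, dft D a b * dft D b c = (D : ℂ)⁻¹ *
      Complex.exp (2 * Real.pi * Complex.I * ((b : ℕ) : ℂ) *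
        ((-(((a : ℕ) : ℤ) + ((c : ℕ) : ℤ)) : ℤ) : ℂ) / D) := by
    intro b
    unfold dft
    rw [← DF_inv D hD]
    have h3 : Complex.exp (2 * Real.pi * Complex.I * ((b : ℕ) : ℂ) *
        ((-(((a : ℕ) : ℤ) + ((c : ℕ) : ℤ)) : ℤ) : ℂ) / D) =
        Complex.exp (-(2 * Real.pi * Complex.I * ((a : ℕ) : ℂ) * ((b : ℕ) : ℂ) / D)) *
        Complex.exp (-(2 * Real.pi * Complex.I * ((b : ℕ) : ℂ) * ((c : ℕ) : ℂ) / D)) := by
      rw [← Complex.exp_add]
      congr 1
      push_cast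
      ring
    rw [h3]
    ring
  simp_rw [h1]
  rw [← Finset.mul_sum, DF_sum D hD]
  have h2 : (D : ℤ) ∣ -(((a : ℕ) : ℤ) + ((c : ℕ) : ℤ)) ↔ D ∣ (a : ℕ) + (c : ℕ) := by
    rw [dvd_neg]
    exact_mod_cast Iff.rfl
  by_cases h : D ∣ (a : ℕ) + (c : ℕ)
  · rw [if_pos h, if_pos (h2.2 h), inv_mul_cancel₀ hD']
  · rw [if_neg h, if_neg (fun h3 => h (h2.1 h3)), mul_zero]

theorem DF_four (D : ℕ) (hD : 0 < D) : dft D ^ 4 = 1 := by
  have h0 : dft D ^ 4 = dft D ^ 2 * dft D ^ 2 := by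
    rw [← pow_add]
  rw [h0]
  ext a c
  rw [Matrix.mul_apply, Matrix.one_apply]
  simp_rw [DF_sq D hD]
  obtain ⟨b, hb⟩ : ∃ b : Fin D, D ∣ (a : ℕ) + (b : ℕ) := by
    refine ⟨⟨(D - (a : ℕ)) % D, Nat.mod_lt _ hD⟩, ?_⟩
    have h1 : ((a : ℕ) + (D - (a : ℕ)) % D) % D = 0 := by
      rw [Nat.add_mod_mod]
      have h2 : (a : ℕ) + (D - (a : ℕ)) = D := by
        have := a.2
        omega
      rw [h2, Nat.mod_self]
    exact Nat.dvd_of_mod_eq_zero h1
  have huniq : ∀ x y z : Fin D, D ∣ (x : ℕ) + (z : ℕ) → D ∣ (y : ℕ) + (z : ℕ) → x = y := by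
    intro x y z h1 h2
    have h3 : (D : ℤ) ∣ ((x : ℕ) : ℤ) - ((y : ℕ) : ℤ) := by
      have h4 : (D : ℤ) ∣ ((x : ℕ) : ℤ) + ((z : ℕ) : ℤ) := by exact_mod_cast h1
      have h5 : (D : ℤ) ∣ ((y : ℕ) : ℤ) + ((z : ℕ) : ℤ) := by exact_mod_cast h2
      have h6 := dvd_sub h4 h5
      have h7 : ((x : ℕ) : ℤ) + ((z : ℕ) : ℤ) - (((y : ℕ) : ℤ) + ((z : ℕ) : ℤ)) =
        ((x : ℕ) : ℤ) - ((y : ℕ) : ℤ) := by ring
      rwa [h7] at h6
    have h4 := Int.eq_zero_of_abs_lt_dvd h3 (by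
        rw [abs_lt]
        have := x.2
        have := y.2
        constructor <;> omega)
    ext
    omega
  rw [Finset.sum_eq_single b]
  · rw [if_pos hb, one_mul]
    by_cases h : a = c
    · rw [if_pos h, if_pos]
      rw [← h, add_comm]
      exact hb
    · rw [if_neg h, if_neg]
      intro h1
      exact h (huniq a c b hb (by rwa [add_comm] at h1))
  · intro x _ hx
    rw [if_neg, zero_mul]
    intro h
    apply hx
    exact huniq x b a (by rwa [add_comm] at h) (by rwa [add_comm] at hb)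
  · intro h
    exact absurd (Finset.mem_univ _) h

theorem DF_two : dft 2 ^ 2 = 1 := by
  ext a c
  rw [DF_sq 2 (by norm_num), Matrix.one_apply]
  have h : 2 ∣ (a : ℕ) + (c : ℕ) ↔ a = c := by
    have := a.2
    have := c.2
    rw [Fin.ext_iff]
    omega
  exact if_congr h rfl rfl

theorem DF_zero (D : ℕ) (hD : 2 ≤ D) : ‖dft D ⟨0, by omega⟩ ⟨0, by omega⟩‖ < 1 := by
  unfold dft
  have h1 : Complex.exp (-(2 * Real.pi * Complex.I * (((⟨0, by omega⟩ : Fin D) : ℕ) : ℂ) *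
      (((⟨0, by omega⟩ : Fin D) : ℕ) : ℂ) / D)) = 1 := by
    simp
  rw [h1, mul_one, norm_inv, Complex.norm_real, Real.norm_eq_abs, abs_of_nonneg (Real.sqrt_nonneg _)]
  have h2 : (1 : ℝ) < Real.sqrt D := by
    rw [Real.lt_sqrt (by norm_num)]
    have : (2 : ℝ) ≤ D := by exact_mod_cast hD
    linarith
  exact inv_lt_one_of_one_lt₀ h2

theorem DF_good (D : ℕ) (hD : 2 ≤ D) : Good (dft D) (if D = 2 then 2 else 4) := by
  have hD0 : 0 < D := by omega
  refine ⟨hD, by split_ifs <;> norm_num, DF_uni D hD0, ?_, ?_⟩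
  · split_ifs with h
    · subst h
      exact DF_two
    · exact DF_four D hD0
  · intro j hj hj'
    by_cases h1 : j = 1
    · subst h1
      exact ⟨⟨0, hD0⟩, by rw [pow_one]; exact DF_zero D hD⟩
    · have hD3 : D ≠ 2 := by
        intro h
        rw [if_pos h] at hj'
        omega
      rw [if_neg hD3] at hj'
      by_cases h2 : j = 2
      · subst h2
        refine ⟨⟨1, by omega⟩, ?_⟩
        rw [DF_sq D hD0, if_neg]
        · simp
        · intro h
          have := Nat.le_of_dvd (by simp) h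
          simp only at this
          omega
      · have h3 : j = 3 := by omega
        subst h3
        refine ⟨⟨0, hD0⟩, ?_⟩
        have h4 : (dft D ^ 3) ⟨0, hD0⟩ ⟨0, hD0⟩ = dft D ⟨0, hD0⟩ ⟨0, hD0⟩ := by
          rw [pow_succ, Matrix.mul_apply, Finset.sum_eq_single ⟨0, hD0⟩]
          · rw [DF_sq D hD0, if_pos (by simp), one_mul]
          · intro b _ hb
            rw [DF_sq D hD0, if_neg, zero_mul]
            intro h
            apply hb
            simp only [zero_add] at h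
            ext
            exact Nat.eq_zero_of_dvd_of_lt h b.2
          · intro h
            exact absurd (Finset.mem_univ _) h
        rw [h4]
        exact DF_zero D hD

theorem t_DF (h1 : S_BK) (h2 : S_OP) : S_DF := by
  intro D hD
  have hG := DF_good D hD
  refine ⟨hG, ?_⟩
  intro k ev hev
  obtain ⟨ψ, hψ⟩ := hev.exists_hasEigenvector
  obtain ⟨r, hr⟩ : ∃ r, r = if D = 2 then 2 else 4 := ⟨_, rfl⟩
  rw [← hr] at hG ⊢
  have h3 : bk (dft D) k ^ (r * (k + 1)) = 1 := by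
    rw [mul_comm, pow_mul, (h1 D k (dft D) hG.uni).2.2.2]
    obtain ⟨_, _, _, _, o1, o2, _⟩ := h2 D (Fin (k + 1))
    have h4 : ∀ j : ℕ, (opA (dft D)ᴴ : Module.End ℂ (St D (Fin (k + 1)))) ^ j =
        opA ((dft D)ᴴ ^ j) := by
      intro j
      induction j with
      | zero => rw [pow_zero, pow_zero, o2]
      | succ j ih => rw [pow_succ, ih, o1, ← pow_succ]
    rw [h4, ← Matrix.conjTranspose_pow, hG.pow, Matrix.conjTranspose_one, o2]
  have h4 : ∀ j : ℕ, (bk (dft D) k ^ j) ψ = ev ^ j • ψ := by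
    intro j
    induction j with
    | zero => simp
    | succ j ih =>
      rw [pow_succ', Module.End.mul_apply, ih, map_smul, hψ.apply_eq_smul, smul_smul, pow_succ]
  have h5 := h4 (r * (k + 1))
  rw [h3, Module.End.one_apply] at h5
  have h6 : (ev ^ (r * (k + 1)) - 1) • ψ = 0 := by
    rw [sub_smul, one_smul, ← h5, sub_self]
  have h7 := (smul_eq_zero.1 h6).resolve_right hψ.2
  exact sub_eq_zero.1 h7

end Pool.Agent.N282.WB
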