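import Pool.Agent.N282.WB.Stm

/-!
# Project WB, module EV: the eigenvectors
-/

set_option autoImplicit false

open scoped ComplexConjugate Matrix ComplexOrder
open Filter Topology MeasureTheory

noncomputable section

namespace Pool.Agent.N282.WB

section ipl

variable {D : ℕ} {ι : Type} [Fintype ι] [DecidableEq ι]

lemma EV_ip_add_right (φ ψ χ : St D ι) : ip φ (ψ + χ) = ip φ ψ + ip φ χ := by
  simp [ip, mul_add, Finset.sum_add_distrib]

lemma EV_ip_smul_right (c : ℂ) (φ ψ : St D ι) : ip φ (c • ψ) = c * ip φ ψ := by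
  simp [ip, Finset.mul_sum, mul_left_comm]

lemma EV_ip_sum_right {κ : Type} (s : Finset κ) (φ : St D ι) (f : κ → St D ι) :
    ip φ (∑ i ∈ s, f i) = ∑ i ∈ s, ip φ (f i) := by
  classical
  induction s using Finset.induction_on with
  | empty => simp [ip]
  | insert a s ha ih => rw [Finset.sum_insert ha, Finset.sum_insert ha, EV_ip_add_right, ih]

lemma EV_ip_conj (φ ψ : St D ι) : conj (ip φ ψ) = ip ψ φ := by
  simp [ip, mul_comm]

lemma EV_ip_smul_left (c : ℂ) (φ ψ : St D ι) : ip (c • φ) ψ = conj c * ip φ ψ := by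
  simp [ip, Finset.mul_sum, mul_assoc]

lemma EV_ip_sum_left {κ : Type} (s : Finset κ) (φ : St D ι) (f : κ → St D ι) :
    ip (∑ i ∈ s, f i) φ = ∑ i ∈ s, ip (f i) φ := by
  rw [← EV_ip_conj, EV_ip_sum_right, map_sum]
  exact Finset.sum_congr rfl fun i _ => EV_ip_conj _ _

lemma EV_ip_self (ψ : St D ι) : ip ψ ψ = (nsq ψ : ℂ) := by
  simp only [ip, nsq, Complex.ofReal_sum]
  refine Finset.sum_congr rfl fun w _ => ?_
  rw [← Complex.normSq_eq_norm_sq, Complex.normSq_eq_conj_mul_self]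

lemma EV_nsq_smul (c : ℂ) (ψ : St D ι) : nsq (c • ψ) = ‖c‖ ^ 2 * nsq ψ := by
  simp [nsq, Finset.mul_sum, mul_pow]

end ipl

variable {D : ℕ}

lemma EV_cut_ip {k n : ℕ} (w : Fin n → Fin D) (φ ψ : St D (Fin k)) :
    ip (cut w φ) (cut w ψ) = ip φ (cut w ψ) := by
  simp only [ip, cut, LinearMap.coe_mk, AddHom.coe_mk]
  refine Finset.sum_congr rfl fun y _ => ?_
  split_ifs <;> simp

/-- the projections `cut w` sum up to the identity -/
lemma EV_cut_sum {k n : ℕ} (hn : n ≤ k) (ψ : St D (Fin k)) :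
    ∑ w : Fin n → Fin D, cut w ψ = ψ := by
  funext y
  rw [Finset.sum_apply]
  simp only [cut, LinearMap.coe_mk, AddHom.coe_mk]
  rw [Finset.sum_eq_single (fun i : Fin n => y ⟨i, i.2.trans_le hn⟩)]
  · rw [if_pos]
    intro i h
    rfl
  · intro w _ hw
    rw [if_neg]
    intro h
    apply hw
    funext i
    exact (h i (i.2.trans_le hn)).symm
  · intro h
    exact absurd (Finset.mem_univ _) h

/-- a sum with small off-diagonal terms -/
lemma EV_offdiag (T : ℕ) (g : ℕ → ℕ → ℂ) (δ : ℝ) (hδ : 0 ≤ δ)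
    (h : ∀ s s', s < T → s' < T → s ≠ s' → ‖g s s'‖ ≤ δ) :
    ‖∑ s ∈ Finset.range T, ∑ s' ∈ Finset.range T, g s s' - ∑ s ∈ Finset.range T, g s s‖ ≤
      T ^ 2 * δ := by
  rw [← Finset.sum_sub_distrib]
  refine (norm_sum_le _ _).trans ?_
  have h1 : ∀ s ∈ Finset.range T, ‖∑ s' ∈ Finset.range T, g s s' - g s s‖ ≤ T * δ := by
    intro s hs
    rw [← Finset.sum_erase_add _ _ hs, add_sub_cancel_right]
    refine (norm_sum_le _ _).trans ?_
    refine (Finset.sum_le_card_nsmul _ _ δ fun s' hs' => ?_).trans ?_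
    · rw [Finset.mem_erase, Finset.mem_range] at hs'
      exact h s s' (Finset.mem_range.1 hs) hs'.2 (Ne.symm hs'.1)
    · rw [nsmul_eq_mul]
      refine mul_le_mul_of_nonneg_right ?_ hδ
      have := Finset.card_le_card (Finset.erase_subset s (Finset.range T))
      rw [Finset.card_range] at this
      exact_mod_cast this
  refine (Finset.sum_le_card_nsmul _ _ _ h1).trans (le_of_eq ?_)
  rw [Finset.card_range, nsmul_eq_mul]
  ring

/-- two sequences which differ at few places -/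
lemma EV_err (f g : ℕ → ℝ) (K N : ℕ) (h : ∀ s, s + N ≤ K → f s = g s)
    (h' : ∀ s, |f s - g s| ≤ 1) :
    |∑ s ∈ Finset.range K, f s - ∑ s ∈ Finset.range K, g s| ≤ N := by
  rw [← Finset.sum_sub_distrib]
  refine (Finset.abs_sum_le_sum_abs _ _).trans ?_
  have h1 : ∀ s ∈ Finset.range K, |f s - g s| ≤ if K < s + N then (1 : ℝ) else 0 := by
    intro s _
    split_ifs with hs
    · exact h' s
    · rw [h s (not_lt.1 hs), sub_self, abs_zero]
  refine (Finset.sum_le_sum h1).trans ?_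
  rw [← Finset.sum_filter, Finset.sum_const, nsmul_eq_mul, mul_one]
  have h2 : (Finset.range K).filter (fun s => K < s + N) ⊆ Finset.Ico (K - N) K := by
    intro s hs
    rw [Finset.mem_filter, Finset.mem_range] at hs
    rw [Finset.mem_Ico]
    omega
  have h3 := Finset.card_le_card h2
  rw [Nat.card_Ico] at h3
  exact_mod_cast h3.trans (by omega)

lemma EV_opA_pow (hOP : S_OP) {ι : Type} [Fintype ι] [DecidableEq ι]
    (M : Matrix (Fin D) (Fin D) ℂ) (j : ℕ) :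
    (opA M ^ j : Module.End ℂ (St D ι)) = opA (M ^ j) := by
  obtain ⟨-, -, -, -, h1, h2, -⟩ := hOP D ι
  induction j with
  | zero => rw [pow_zero, pow_zero, h2]
  | succ j ih => rw [pow_succ, ih, h1, pow_succ]

lemma EV_pow (hOP : S_OP) (hBK : S_BK) {F : Matrix (Fin D) (Fin D) ℂ} (hF : Fᴴ * F = 1)
    (k j : ℕ) : bk F k ^ (j * (k + 1)) = opA (Fᴴ ^ j) := by
  rw [mul_comm, pow_mul, (hBK D k F hF).2.2.2, EV_opA_pow hOP]

lemma EV_nsq_pow (hBK : S_BK) {F : Matrix (Fin D) (Fin D) ℂ} (hF : Fᴴ * F = 1)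
    (k s : ℕ) (ψ : St D (Fin (k + 1))) : nsq ((bk F k ^ s) ψ) = nsq ψ := by
  induction s with
  | zero => simp
  | succ s ih =>
    rw [pow_succ', Module.End.mul_apply]
    have h := (hBK D k F hF).1 ((bk F k ^ s) ψ) ((bk F k ^ s) ψ)
    rw [EV_ip_self, EV_ip_self] at h
    rw [← ih]
    exact_mod_cast h

lemma EV_uni {F : Matrix (Fin D) (Fin D) ℂ} (hF : Fᴴ * F = 1) (j : ℕ) :
    (Fᴴ ^ j)ᴴ * Fᴴ ^ j = 1 := by
  have h : F * Fᴴ = 1 := mul_eq_one_comm.1 hF
  rw [Matrix.conjTranspose_pow, Matrix.conjTranspose_conjTranspose]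
  induction j with
  | zero => simp
  | succ j ih =>
    rw [pow_succ F, pow_succ' Fᴴ, Matrix.mul_assoc, ← Matrix.mul_assoc F, h, Matrix.one_mul, ih]

lemma EV_shift (hWM : S_WM) {F : Matrix (Fin D) (Fin D) ℂ} (hF : Fᴴ * F = 1) {k N : ℕ}
    (w : Fin N → Fin D) (s : ℕ) (φ : St D (Fin (k + 1))) (hs : s + N ≤ k + 1) :
    wm 0 w ((bk F k ^ s) φ) = wm s w φ := by
  induction s generalizing φ with
  | zero => rw [pow_zero]; rfl
  | succ s ih =>
    rw [pow_succ, Module.End.mul_apply, ih _ (by omega), (hWM D).1 k N F hF w s φ (by omega)]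

lemma EV_nsq_bas {ι : Type} [Fintype ι] [DecidableEq ι] (α : ι → Fin D) : nsq (bas α) = 1 := by
  simp [nsq, bas, apply_ite, Finset.sum_ite_eq']

/-- the sum over a block of `k + 1` times -/
lemma EV_block (hOP : S_OP) (hBK : S_BK) (hWM : S_WM) {F : Matrix (Fin D) (Fin D) ℂ}
    (hF : Fᴴ * F = 1) {M L N : ℕ} (Φ : St D (Fin M)) (hΦ : nsq Φ = 1)
    (α : Fin (L + 1) → Fin D) (w : Fin N → Fin D) (μ E : ℝ) (hμ0 : 0 ≤ μ) (hμ1 : μ ≤ 1) (j : ℕ)
    (hE : |∑ s ∈ Finset.range M, wm s w (opA (Fᴴ ^ j) Φ) - M * μ| ≤ E) :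
    |∑ s ∈ Finset.range (M + L + 1), wm 0 w ((bk F (M + L) ^ (j * (M + L + 1) + s)) (mkr Φ α)) -
      (M + L + 1) * μ| ≤ E + 2 * N + (L + 1) := by
  have hU := EV_uni hF j
  obtain ⟨-, hw2, -, hw4, hw5, hw6, hw7⟩ := hWM D
  set ψ₁ : St D (Fin M) := opA (Fᴴ ^ j) Φ with hψ₁
  set ψ₂ : St D (Fin (L + 1)) := opA (Fᴴ ^ j) (bas α) with hψ₂
  have h1 : nsq ψ₁ = 1 := by rw [hψ₁, hw6 _ _ _ hU, hΦ]
  have h2 : nsq ψ₂ = 1 := by rw [hψ₂, hw6 _ _ _ hU, EV_nsq_bas]
  set φ : St D (Fin (M + L + 1)) := opA (Fᴴ ^ j) (mkr Φ α) with hφ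
  have h3 : φ = tens ψ₁ ψ₂ := by
    rw [hφ, mkr]
    exact hw5 M (L + 1) _ _ _
  have h4 : nsq φ = 1 := by
    rw [h3]
    have := hw4 M (L + 1) ψ₁ ψ₂
    rw [h1, h2, one_mul] at this
    exact this
  have h5 := hw7 M (L + 1) N w ψ₁ ψ₂ h1 h2
  have h6 : |∑ s ∈ Finset.range (M + L + 1),
      wm 0 w ((bk F (M + L) ^ (j * (M + L + 1) + s)) (mkr Φ α)) -
      ∑ s ∈ Finset.range (M + L + 1), wm s w φ| ≤ N := by
    have e : ∀ s, (bk F (M + L) ^ (j * (M + L + 1) + s)) (mkr Φ α) = (bk F (M + L) ^ s) φ := by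
      intro s
      rw [add_comm (j * (M + L + 1)) s, pow_add, Module.End.mul_apply, EV_pow hOP hBK hF]
    apply EV_err
    · intro s hs
      rw [e, EV_shift hWM hF w s φ hs]
    · intro s
      rw [e]
      have a1 := hw2 _ _ w 0 ((bk F (M + L) ^ s) φ)
      have a2 := hw2 _ _ w s φ
      rw [EV_nsq_pow hBK hF, h4] at a1
      rw [h4] at a2
      rw [abs_le]
      constructor <;> linarith [a1.1, a1.2, a2.1, a2.2]
  have h7 : 0 ≤ ∑ s ∈ Finset.range (L + 1), wm s w ψ₂ ∧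
      ∑ s ∈ Finset.range (L + 1), wm s w ψ₂ ≤ L + 1 := by
    constructor
    · exact Finset.sum_nonneg fun s _ => (hw2 _ _ w s ψ₂).1
    · refine (Finset.sum_le_card_nsmul _ _ 1 fun s _ => ?_).trans ?_
      · rw [← h2]; exact (hw2 _ _ w s ψ₂).2
      · simp
  rw [← h3] at h5
  have h8 : ∑ s ∈ Finset.range (M + (L + 1)), wm s w φ = ∑ s ∈ Finset.range (M + L + 1), wm s w φ :=
    rfl
  rw [abs_le] at *
  have h9 : 0 ≤ (L + 1 : ℝ) * μ := by positivity
  have h10 : (L + 1 : ℝ) * μ ≤ L + 1 := by nlinarith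
  constructor <;> nlinarith [h5.1, h5.2, h6.1, h6.2, h7.1, h7.2, hE.1, hE.2]

lemma EV_windows (hOP : S_OP) (hBK : S_BK) (hWM : S_WM) {F : Matrix (Fin D) (Fin D) ℂ}
    (hF : Fᴴ * F = 1) {M L N : ℕ} (Φ : St D (Fin M)) (hΦ : nsq Φ = 1)
    (α : Fin (L + 1) → Fin D) (w : Fin N → Fin D) (μ E : ℝ) (hμ0 : 0 ≤ μ) (hμ1 : μ ≤ 1)
    (hE : ∀ j : ℕ, |∑ s ∈ Finset.range M, wm s w (opA (Fᴴ ^ j) Φ) - M * μ| ≤ E) (r : ℕ) :
    |∑ s ∈ Finset.range (r * (M + L + 1)), wm 0 w ((bk F (M + L) ^ s) (mkr Φ α)) -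
      r * (M + L + 1) * μ| ≤ r * (E + 2 * N + (L + 1)) := by
  induction r with
  | zero => simp
  | succ r ih =>
    have h := EV_block hOP hBK hWM hF Φ hΦ α w μ E hμ0 hμ1 r (hE r)
    rw [Nat.succ_mul, Finset.sum_range_add]
    push_cast
    rw [abs_le] at *
    constructor <;> nlinarith [ih.1, ih.2, h.1, h.2]

/-- from an almost orthogonal orbit to an eigenvector -/
lemma EV_core {k N T : ℕ} (hN : N ≤ k + 1) (hT : 0 < T) (B : Module.End ℂ (St D (Fin (k + 1))))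
    (ψ : St D (Fin (k + 1))) (hper : (B ^ T) ψ = ψ) (ev : ℂ) (hev : ev ^ T = 1)
    (hWM : S_WM) (hn : ∀ s, nsq ((B ^ s) ψ) = 1) (μ : (Fin N → Fin D) → ℝ)
    (hμ : ∀ w, 0 ≤ μ w ∧ μ w ≤ 1) (E δ : ℝ) (hδ : 0 ≤ δ)
    (hE : ∀ w, |∑ s ∈ Finset.range T, wm 0 w ((B ^ s) ψ) - T * μ w| ≤ E)
    (hc : ∀ s s', s < T → s' < T → s ≠ s' → ∀ w : Fin N → Fin D,
      ‖ip ((B ^ s) ψ) (cut w ((B ^ s') ψ))‖ ≤ δ)
    (hsm : (D : ℝ) ^ N * (T ^ 2 * δ) ≤ T / 2) :
    ∃ χ : St D (Fin (k + 1)), nsq χ = 1 ∧ B χ = ev • χ ∧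
      ∀ w, |wm 0 w χ - μ w| ≤ 2 * (E + T ^ 2 * δ + (D : ℝ) ^ N * (T ^ 2 * δ)) / T := by
  obtain ⟨-, hw2, hw3, -⟩ := hWM D
  have hev1 : ‖ev‖ = 1 := by
    have := congrArg norm hev
    rw [norm_pow, norm_one] at this
    exact (pow_eq_one_iff_of_nonneg (norm_nonneg _) hT.ne').1 this
  have hev0 : ev ≠ 0 := by
    intro h
    rw [h, norm_zero] at hev1
    exact zero_ne_one hev1
  set c : ℕ → ℂ := fun s => (ev⁻¹) ^ s with hcdef
  have hcn : ∀ s, ‖c s‖ = 1 := fun s => by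
    rw [hcdef]
    simp [hev1]
  set v : ℕ → St D (Fin (k + 1)) := fun s => (B ^ s) ψ with hv
  set χ : St D (Fin (k + 1)) := ∑ s ∈ Finset.range T, c s • v s with hχ
  have hB : B χ = ev • χ := by
    have e1 : B χ = ev • ∑ s ∈ Finset.range T, c (s + 1) • v (s + 1) := by
      rw [hχ, map_sum, Finset.smul_sum]
      refine Finset.sum_congr rfl fun s _ => ?_
      rw [map_smul, smul_smul, hcdef, hv]
      simp only
      rw [pow_succ', ← mul_assoc, mul_inv_cancel₀ hev0, one_mul, pow_succ' B,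
        Module.End.mul_apply]
    have e2 : ∑ s ∈ Finset.range T, c (s + 1) • v (s + 1) = χ := by
      have e3 := Finset.sum_range_succ (fun s => c s • v s) T
      have e4 := Finset.sum_range_succ' (fun s => c s • v s) T
      have e5 : c T • v T = c 0 • v 0 := by
        have : c T = 1 := by
          rw [hcdef]
          simp [hev]
        rw [this, hcdef, hv]
        simp [hper]
      rw [e4, e5] at e3
      rw [hχ]
      exact add_right_cancel e3
    rw [e1, e2]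
  have hcut : ∀ w : Fin N → Fin D, |nsq (cut w χ) - ∑ s ∈ Finset.range T, wm 0 w (v s)| ≤
      T ^ 2 * δ := by
    intro w
    have e1 : ((nsq (cut w χ) : ℝ) : ℂ) = ∑ s ∈ Finset.range T, ∑ s' ∈ Finset.range T,
        conj (c s) * (c s' * ip (v s) (cut w (v s'))) := by
      rw [← EV_ip_self, EV_cut_ip]
      rw [hχ, map_sum, EV_ip_sum_left]
      refine Finset.sum_congr rfl fun s _ => ?_
      rw [EV_ip_smul_left, EV_ip_sum_right, Finset.mul_sum]
      refine Finset.sum_congr rfl fun s' _ => ?_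
      rw [map_smul, EV_ip_smul_right]
    have e2 : ∀ s, conj (c s) * (c s * ip (v s) (cut w (v s))) = ((wm 0 w (v s) : ℝ) : ℂ) := by
      intro s
      rw [← mul_assoc, ← Complex.normSq_eq_conj_mul_self, Complex.normSq_eq_norm_sq, hcn,
        one_pow, Complex.ofReal_one, one_mul, ← EV_cut_ip, EV_ip_self, hw3]
    have e3 := EV_offdiag T (fun s s' => conj (c s) * (c s' * ip (v s) (cut w (v s')))) δ hδ
      (fun s s' h1 h2 h3 => by
        rw [norm_mul, norm_mul, Complex.norm_conj, hcn, hcn, one_mul, one_mul]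
        exact hc s s' h1 h2 h3 w)
    rw [← e1, Finset.sum_congr rfl fun s _ => e2 s, ← Complex.ofReal_sum, ← Complex.ofReal_sub,
      Complex.norm_real] at e3
    exact e3
  have hsumw : ∀ φ : St D (Fin (k + 1)), ∑ w : Fin N → Fin D, nsq (cut w φ) = nsq φ := by
    intro φ
    have e : ((∑ w : Fin N → Fin D, nsq (cut w φ) : ℝ) : ℂ) = ((nsq φ : ℝ) : ℂ) := by
      have e0 : ip φ φ = ∑ w : Fin N → Fin D, ip φ (cut w φ) := by
        rw [← EV_ip_sum_right, EV_cut_sum hN]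
      rw [← EV_ip_self φ, e0, Complex.ofReal_sum]
      refine Finset.sum_congr rfl fun w _ => ?_
      rw [← EV_ip_self, EV_cut_ip]
    exact_mod_cast e
  have hnorm : |nsq χ - T| ≤ (D : ℝ) ^ N * (T ^ 2 * δ) := by
    have e1 : (T : ℝ) = ∑ w : Fin N → Fin D, ∑ s ∈ Finset.range T, wm 0 w (v s) := by
      rw [Finset.sum_comm]
      have : ∀ s ∈ Finset.range T, ∑ w : Fin N → Fin D, wm 0 w (v s) = 1 := by
        intro s _
        rw [← hn s, ← hsumw]
        exact Finset.sum_congr rfl fun w _ => hw3 _ _ w _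
      rw [Finset.sum_congr rfl this]
      simp
    have e2 : nsq χ - T = ∑ w : Fin N → Fin D,
        (nsq (cut w χ) - ∑ s ∈ Finset.range T, wm 0 w (v s)) := by
      rw [Finset.sum_sub_distrib, ← e1, hsumw χ]
    rw [e2]
    refine (Finset.abs_sum_le_sum_abs _ _).trans ?_
    refine (Finset.sum_le_card_nsmul _ _ _ fun w _ => hcut w).trans (le_of_eq ?_)
    rw [Finset.card_univ, nsmul_eq_mul, Fintype.card_fun, Fintype.card_fin, Fintype.card_fin]
    push_cast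
    rfl
  have hTr : (0 : ℝ) < T := by exact_mod_cast hT
  have hpos : (T : ℝ) / 2 ≤ nsq χ := by
    rw [abs_le] at hnorm
    linarith [hnorm.1]
  have hpos' : 0 < nsq χ := by linarith [half_pos hTr]
  refine ⟨(((Real.sqrt (nsq χ))⁻¹ : ℝ) : ℂ) • χ, ?_, ?_, ?_⟩
  · rw [EV_nsq_smul, Complex.norm_real, Real.norm_eq_abs, sq_abs, inv_pow, Real.sq_sqrt hpos'.le,
      inv_mul_cancel₀ hpos'.ne']
  · rw [map_smul, hB, smul_comm]
  · intro w
    rw [hw3, map_smul, EV_nsq_smul, Complex.norm_real, Real.norm_eq_abs, sq_abs, inv_pow,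
      Real.sq_sqrt hpos'.le]
    have h1 : (nsq χ)⁻¹ * nsq (cut w χ) - μ w = (nsq χ)⁻¹ * (nsq (cut w χ) - μ w * nsq χ) := by
      field_simp
    rw [h1, abs_mul, abs_of_pos (inv_pos.2 hpos')]
    have h2 : |nsq (cut w χ) - μ w * nsq χ| ≤ E + T ^ 2 * δ + (D : ℝ) ^ N * (T ^ 2 * δ) := by
      have a1 := hcut w
      have a2 := hE w
      have a3 : |μ w * nsq χ - μ w * T| ≤ (D : ℝ) ^ N * (T ^ 2 * δ) := by
        rw [← mul_sub, abs_mul, abs_of_nonneg (hμ w).1]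
        exact (mul_le_of_le_one_left (abs_nonneg _) (hμ w).2).trans hnorm
      rw [abs_le] at *
      constructor <;> linarith [a1.1, a1.2, a2.1, a2.2, a3.1, a3.2]
    have h3 : 0 ≤ E + T ^ 2 * δ + (D : ℝ) ^ N * (T ^ 2 * δ) := (abs_nonneg _).trans h2
    calc (nsq χ)⁻¹ * |nsq (cut w χ) - μ w * nsq χ|
        ≤ ((T : ℝ) / 2)⁻¹ * (E + T ^ 2 * δ + (D : ℝ) ^ N * (T ^ 2 * δ)) := by
          refine mul_le_mul ?_ h2 (abs_nonneg _) (by positivity)
          exact inv_anti₀ (by positivity) hpos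
      _ = _ := by
          field_simp

lemma EV_trace {F : Matrix (Fin D) (Fin D) ℂ}
    {ρ : (n : ℕ) → Matrix (Fin n → Fin D) (Fin n → Fin D) ℂ} (h : IsInv F ρ) (n : ℕ) :
    ∑ w, ρ n w w = 1 := by
  induction n with
  | zero =>
    simp [h.one]
  | succ n ih =>
    rw [← ih, ← (Fin.consEquiv fun _ : Fin (n + 1) => Fin D).sum_comp, Fintype.sum_prod_type_right]
    refine Finset.sum_congr rfl fun u _ => ?_
    rw [← h.left n u u]
    rfl

lemma EV_mu {F : Matrix (Fin D) (Fin D) ℂ}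
    {ρ : (n : ℕ) → Matrix (Fin n → Fin D) (Fin n → Fin D) ℂ} (h : IsInv F ρ) (n : ℕ)
    (w : Fin n → Fin D) : 0 ≤ (ρ n w w).re ∧ (ρ n w w).re ≤ 1 := by
  have h0 : ∀ w, 0 ≤ (ρ n w w).re := fun w => by
    have := (h.psd n).diag_nonneg (i := w)
    exact (Complex.le_def.1 this).1
  refine ⟨h0 w, ?_⟩
  have h1 := congrArg Complex.re (EV_trace h n)
  rw [Complex.re_sum, Complex.one_re] at h1
  rw [← h1]
  exact Finset.single_le_sum (fun w _ => h0 w) (Finset.mem_univ w)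

lemma EV_small (p C : ℝ) (hp0 : 0 < p) (hp1 : p < 1) (c N : ℕ) (hc : 0 < c) :
    Tendsto (fun k : ℕ => C * ((k : ℝ) + 1) ^ 2 * p ^ ((k / c - N) / 3)) atTop (𝓝 0) := by
  have h1 : Tendsto (fun k : ℕ => (k / c - N) / 3) atTop atTop := by
    refine tendsto_atTop.2 fun b => ?_
    filter_upwards [eventually_ge_atTop (c * (3 * b + N))] with k hk
    have h2 : 3 * b + N ≤ k / c := by
      rw [Nat.le_div_iff_mul_le hc]
      linarith [hk, mul_comm c (3 * b + N)]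
    omega
  have h2 : Tendsto (fun e : ℕ => ((e : ℝ) + 1) ^ 2 * p ^ e) atTop (𝓝 0) := by
    have h3 := tendsto_pow_const_mul_const_pow_of_abs_lt_one 2 (r := p)
      (by rw [abs_of_pos hp0]; exact hp1)
    have h4 := (h3.comp (tendsto_add_atTop_nat 1)).const_mul (p⁻¹)
    rw [mul_zero] at h4
    refine h4.congr fun e => ?_
    simp only [Function.comp]
    push_cast
    field_simp
    ring
  have h3 : Tendsto (fun k : ℕ => |C| * (c ^ 2 * (N + 3) ^ 2) *
      (((((k / c - N) / 3 : ℕ) : ℝ) + 1) ^ 2 * p ^ ((k / c - N) / 3))) atTop (𝓝 0) := by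
    have := (h2.comp h1).const_mul (|C| * ((c : ℝ) ^ 2 * (N + 3) ^ 2))
    rw [mul_zero] at this
    exact this
  refine squeeze_zero_norm (fun k => ?_) h3
  have hb : (k : ℝ) + 1 ≤ c * (N + 3) * ((((k / c - N) / 3 : ℕ) : ℝ) + 1) := by
    have e1 : k + 1 ≤ c * (k / c + 1) := by
      have := Nat.lt_mul_div_succ k hc
      omega
    have e2 : k / c + 1 ≤ (N + 3) * ((k / c - N) / 3 + 1) := by
      set e := (k / c - N) / 3 with he
      have : k / c ≤ N + 3 * e + 2 := by omega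
      nlinarith
    have e3 : k + 1 ≤ c * ((N + 3) * ((k / c - N) / 3 + 1)) := e1.trans (Nat.mul_le_mul_left _ e2)
    have e4 : ((k + 1 : ℕ) : ℝ) ≤ ((c * ((N + 3) * ((k / c - N) / 3 + 1)) : ℕ) : ℝ) := by
      exact_mod_cast e3
    push_cast at e4
    linarith [e4]
  rw [norm_mul, norm_mul, Real.norm_eq_abs, Real.norm_eq_abs, Real.norm_eq_abs, abs_of_nonneg
    (sq_nonneg ((k : ℝ) + 1)), abs_of_pos (pow_pos hp0 _)]
  have h5 : ((k : ℝ) + 1) ^ 2 ≤ (c * (N + 3) * ((((k / c - N) / 3 : ℕ) : ℝ) + 1)) ^ 2 :=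
    pow_le_pow_left₀ (by positivity) hb 2
  calc |C| * ((k : ℝ) + 1) ^ 2 * p ^ ((k / c - N) / 3)
      ≤ |C| * (c * (N + 3) * ((((k / c - N) / 3 : ℕ) : ℝ) + 1)) ^ 2 * p ^ ((k / c - N) / 3) := by
        gcongr
    _ = _ := by ring

theorem t_EV (hOP : S_OP) (hBK : S_BK) (hCR : S_CR) (hWM : S_WM) (hMN : S_MN) : S_EV := by
  intro D r F ρ hG hI N ε hε
  obtain ⟨q, hq0, hq1, hq⟩ := hCR D r F hG
  have hF := hG.uni
  have hD : (1 : ℝ) ≤ D := by
    have := hG.two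
    exact_mod_cast (by omega : 1 ≤ D)
  have hr : (1 : ℝ) ≤ r := by exact_mod_cast hG.pos
  set p := Real.sqrt q with hp
  have hp0 : 0 < p := Real.sqrt_pos.2 hq0
  have hp1 : p < 1 := by
    rw [hp, Real.sqrt_lt' one_pos]
    linarith
  have hpq : p ^ 2 = q := Real.sq_sqrt hq0.le
  -- the parameters `n`, `c`
  obtain ⟨n, hn⟩ := exists_nat_gt (32 * (N : ℝ) / ε)
  obtain ⟨c, hc⟩ := exists_nat_gt (16 / ε)
  have hc0 : (0 : ℝ) < c := lt_of_le_of_lt (by positivity) hc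
  have hn0 : (0 : ℝ) < n := lt_of_le_of_lt (by positivity) hn
  have hc1 : 0 < c := by exact_mod_cast hc0
  have hn1 : 0 < n := by exact_mod_cast hn0
  have hs := EV_small p (4 * (D : ℝ) ^ (2 * N) * r ^ 2) hp0 hp1 c N hc1
  have hs' := hs.eventually (ge_mem_nhds (show (0 : ℝ) < min (ε / 2) 1 by positivity))
  have ht : Tendsto (fun k : ℕ => 2 * ((n : ℝ) * D ^ n + 2 * N + 1 + n) * ((k : ℝ) + 1)⁻¹)
      atTop (𝓝 0) := by
    have := (tendsto_one_div_add_atTop_nhds_zero_nat (𝕜 := ℝ)).const_mul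
      (2 * ((n : ℝ) * D ^ n + 2 * N + 1 + n))
    rw [mul_zero] at this
    refine this.congr fun k => ?_
    rw [one_div]
  have ht' := ht.eventually (ge_mem_nhds (show (0 : ℝ) < ε / 8 by positivity))
  obtain ⟨K, hK⟩ := eventually_atTop.1 (hs'.and (ht'.and (eventually_ge_atTop N)))
  refine ⟨K, fun k hk ev hev => ?_⟩
  obtain ⟨hk1, hk2, hk3⟩ := hK k hk
  obtain ⟨m, hm1, hm2⟩ : ∃ m, n * m + k / c ≤ k ∧ k < n * m + k / c + n := by
    refine ⟨(k - k / c) / n, ?_, ?_⟩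
    · have h1 := Nat.mul_div_le (k - k / c) n
      have h2 := Nat.div_le_self k c
      omega
    · have h1 := Nat.lt_mul_div_succ (k - k / c) hn1
      have h2 : n * ((k - k / c) / n + 1) = n * ((k - k / c) / n) + n := by ring
      have h3 := Nat.div_le_self k c
      omega
  obtain ⟨L, hL⟩ := Nat.exists_eq_add_of_le (le_of_add_le_left hm1)
  set kc := k / c with hkc
  have hkc' : (kc : ℝ) ≤ (k : ℝ) / c := Nat.cast_div_le
  clear_value kc
  subst hL
  obtain ⟨Φ, hΦ, hΦ'⟩ := hMN D F ρ hF hI n m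
  obtain ⟨α, hα⟩ := hq (n * m) L N Φ hΦ
  set T := r * (n * m + L + 1) with hT
  have hT0 : 0 < T := Nat.mul_pos hG.pos (Nat.succ_pos _)
  have hTr : (0 : ℝ) < T := by exact_mod_cast hT0
  set e := (L - N) / 3 with he
  set δ : ℝ := T * D ^ N * p ^ e with hδ
  have hδ0 : 0 ≤ δ := by positivity
  set M : ℝ := (2 * m * N + n * D ^ n : ℝ) with hM
  have hpow : bk F (n * m + L) ^ T = 1 := by
    have := EV_pow hOP hBK hF (n * m + L) r
    rw [hT, this, ← Matrix.conjTranspose_pow, hG.pow, Matrix.conjTranspose_one]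
    exact (hOP D (Fin (n * m + L + 1))).2.2.2.2.2.1
  have hnmk : nsq (mkr Φ α) = 1 := by
    have := (hWM D).2.2.2.1 (n * m) (L + 1) Φ (bas α)
    rw [hΦ, EV_nsq_bas, one_mul] at this
    exact this
  -- the tail term
  have htail : 4 * (D : ℝ) ^ (2 * N) * (T : ℝ) ^ 2 * p ^ e ≤ min (ε / 2) 1 := by
    refine le_trans ?_ hk1
    have h1 : p ^ e ≤ p ^ ((kc - N) / 3) := by
      refine pow_le_pow_of_le_one hp0.le hp1.le ?_
      have : kc ≤ L := by omega
      omega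
    have h2 : (T : ℝ) = r * (((n * m + L : ℕ) : ℝ) + 1) := by
      rw [hT]; push_cast; ring
    rw [h2]
    calc 4 * (D : ℝ) ^ (2 * N) * (r * (((n * m + L : ℕ) : ℝ) + 1)) ^ 2 * p ^ e
        ≤ 4 * (D : ℝ) ^ (2 * N) * (r * (((n * m + L : ℕ) : ℝ) + 1)) ^ 2 * p ^ ((kc - N) / 3) := by
          gcongr
      _ = _ := by ring
  have hδT : (D : ℝ) ^ N * (T ^ 2 * δ) = T * (D ^ (2 * N) * T ^ 2 * p ^ e) := by
    rw [hδ]; ring
  obtain ⟨χ, h1, h2, h3⟩ := EV_core (k := n * m + L) (N := N) (T := T) (by omega) hT0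
    (bk F (n * m + L)) (mkr Φ α) (by rw [hpow]; rfl) ev hev hWM
    (fun s => by rw [EV_nsq_pow hBK hF, hnmk]) (fun w => (ρ N w w).re) (fun w => EV_mu hI N w)
    (r * (M + 2 * N + (L + 1))) δ hδ0
    (fun w => by
      have := EV_windows hOP hBK hWM hF Φ hΦ α w (ρ N w w).re M (EV_mu hI N w).1 (EV_mu hI N w).2
        (fun j => by
          have := hΦ' j N w
          push_cast
          exact this) r
      rw [hT]
      push_cast at this ⊢
      exact this)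
    (fun s s' h1 h2 h3 w => by
      have := hα s s' h1 h2 h3 w
      refine (pow_le_pow_iff_left₀ (norm_nonneg _) hδ0 two_ne_zero).1 (this.trans ?_)
      have e1 : δ ^ 2 = (T : ℝ) ^ 2 * D ^ N * q ^ e * D ^ N := by
        rw [hδ, ← hpq]
        ring
      rw [e1]
      exact le_mul_of_one_le_right (by positivity) (one_le_pow₀ hD))
    (by
      rw [hδT]
      have := htail.trans (min_le_right _ _)
      nlinarith [this])
  refine ⟨χ, h1, h2, fun w => (h3 w).trans ?_⟩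
  set x : ℝ := ((n * m + L : ℕ) : ℝ) + 1 with hx
  have hx0 : 0 < x := by positivity
  have hTx : (T : ℝ) = r * x := by
    rw [hT, hx]; push_cast; ring
  have b1 : 4 * (m : ℝ) * N ≤ ε / 8 * x := by
    have c1 : (m : ℝ) * n ≤ x := by
      rw [hx]
      push_cast
      nlinarith [Nat.cast_nonneg (α := ℝ) L]
    have c2 : 32 * (N : ℝ) ≤ ε * n := by
      rw [div_lt_iff₀ hε] at hn
      linarith
    have c3 : (0 : ℝ) ≤ m := Nat.cast_nonneg _
    nlinarith [mul_le_mul_of_nonneg_left c2 c3, mul_le_mul_of_nonneg_left c1 hε.le]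
  have b2 : 2 * (kc : ℝ) ≤ ε / 8 * x := by
    have c1 : (kc : ℝ) * c ≤ x := by
      rw [le_div_iff₀ hc0] at hkc'
      rw [hx]
      linarith
    have c2 : 16 ≤ ε * c := by
      rw [div_lt_iff₀ hε] at hc
      linarith
    have c3 : (0 : ℝ) ≤ kc := Nat.cast_nonneg _
    nlinarith [mul_le_mul_of_nonneg_left c2 c3, mul_le_mul_of_nonneg_left c1 hε.le]
  have b3 : 2 * ((n : ℝ) * D ^ n + 2 * N + 1 + n) ≤ ε / 8 * x := by
    rwa [← div_eq_mul_inv, div_le_iff₀ hx0] at hk2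
  have b4 : (L : ℝ) ≤ kc + n := by
    have : L ≤ kc + n := by omega
    exact_mod_cast this
  have b5 : 2 * (M + 2 * N + (L + 1)) ≤ 3 * ε / 8 * x := by
    rw [hM]
    linarith
  have b6 : (T : ℝ) ^ 2 * δ ≤ (D : ℝ) ^ N * (T ^ 2 * δ) :=
    le_mul_of_one_le_left (by positivity) (one_le_pow₀ hD)
  rw [div_le_iff₀ hTr]
  have b7 : (D : ℝ) ^ N * (T ^ 2 * δ) ≤ T * (ε / 8) := by
    rw [hδT]
    refine mul_le_mul_of_nonneg_left ?_ hTr.le
    have := htail.trans (min_le_left _ _)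
    linarith
  have b8 : 2 * (r * (M + 2 * N + (L + 1))) ≤ 3 * ε / 8 * T := by
    rw [hTx]
    calc 2 * (r * (M + 2 * N + (L + 1))) = r * (2 * (M + 2 * N + (L + 1))) := by ring
      _ ≤ r * (3 * ε / 8 * x) := mul_le_mul_of_nonneg_left b5 (zero_le_one.trans hr)
      _ = 3 * ε / 8 * (r * x) := by ring
  linarith [mul_pos hε hTr]

end Pool.Agent.N282.WB
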