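import Pool.Agent.N282.WB.Stm

/-!
# Project WB, module FI: sufficiency
-/

set_option autoImplicit false

open scoped ComplexConjugate Matrix ComplexOrder
open Filter Topology MeasureTheory

noncomputable section

namespace Pool.Agent.N282.WB

variable {D : ℕ}

lemma FI_snoc {k n : ℕ} (hn : n < k) (w : Fin n → Fin D) (ψ : St D (Fin k)) :
    wm 0 w ψ = ∑ a, wm 0 (Fin.snoc w a : Fin (n + 1) → Fin D) ψ := by
  simp only [wm]
  rw [Finset.sum_comm]
  refine Finset.sum_congr rfl fun y _ => ?_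
  have key : ∀ a : Fin D, (∀ (i : Fin (n + 1)) (h : 0 + (i : ℕ) < k),
      y ⟨0 + i, h⟩ = (Fin.snoc w a : Fin (n + 1) → Fin D) i) ↔
      (∀ (i : Fin n) (h : 0 + (i : ℕ) < k), y ⟨0 + i, h⟩ = w i) ∧ a = y ⟨n, hn⟩ := by
    intro a
    constructor
    · intro h
      refine ⟨fun i hi => ?_, ?_⟩
      · have := h i.castSucc hi
        rw [Fin.snoc_castSucc] at this
        exact this
      · have := h (Fin.last n) (by simpa using hn)
        rw [Fin.snoc_last] at this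
        rw [← this]
        congr 1
        exact Fin.ext (by simp)
    · rintro ⟨h1, h2⟩ i hi
      refine Fin.lastCases ?_ (fun i => ?_) i (motive := fun i => ∀ h : 0 + (i : ℕ) < k,
        y ⟨0 + i, h⟩ = (Fin.snoc w a : Fin (n + 1) → Fin D) i) hi
      · intro h
        rw [Fin.snoc_last, h2]
        congr 1
        exact Fin.ext (by simp)
      · intro h
        rw [Fin.snoc_castSucc]
        exact h1 i h
  by_cases h : ∀ (i : Fin n) (h : 0 + (i : ℕ) < k), y ⟨0 + i, h⟩ = w i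
  · rw [if_pos h]
    rw [Finset.sum_eq_single (y ⟨n, hn⟩)]
    · rw [if_pos ((key _).2 ⟨h, rfl⟩)]
    · intro a _ ha
      rw [if_neg]
      intro h'
      exact ha ((key a).1 h').2
    · intro h'
      exact absurd (Finset.mem_univ _) h'
  · rw [if_neg h]
    refine (Finset.sum_eq_zero fun a _ => ?_).symm
    rw [if_neg]
    intro h'
    exact h ((key a).1 h').1

lemma FI_down {F : Matrix (Fin D) (Fin D) ℂ}
    {ρ : (n : ℕ) → Matrix (Fin n → Fin D) (Fin n → Fin D) ℂ} (hI : IsInv F ρ) {k n : ℕ} (d : ℕ)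
    (hd : n + d ≤ k) (ψ : St D (Fin k)) (ε : ℝ)
    (h : ∀ w : Fin (n + d) → Fin D, |wm 0 w ψ - (ρ (n + d) w w).re| ≤ ε) (w : Fin n → Fin D) :
    |wm 0 w ψ - (ρ n w w).re| ≤ D ^ d * ε := by
  induction d generalizing ε with
  | zero =>
    rw [pow_zero, one_mul]
    exact h w
  | succ d ih =>
    rw [pow_succ, mul_assoc]
    refine ih (by omega) _ fun w => ?_
    rw [FI_snoc (by omega) w ψ, ← hI.right, Complex.re_sum, ← Finset.sum_sub_distrib]
    refine (Finset.abs_sum_le_sum_abs _ _).trans ?_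
    refine (Finset.sum_le_card_nsmul _ _ ε fun a _ => h _).trans (le_of_eq ?_)
    rw [Finset.card_univ, Fintype.card_fin, nsmul_eq_mul]

lemma FI_unit {ι : Type} [Fintype ι] [DecidableEq ι] (B : Module.End ℂ (St D ι)) (ev : ℂ)
    (h : Module.End.HasEigenvalue B ev) : ∃ ψ : St D ι, nsq ψ = 1 ∧ B ψ = ev • ψ := by
  obtain ⟨v, hv⟩ := h.exists_hasEigenvector
  have hv1 : B v = ev • v := hv.apply_eq_smul
  have hv0 : v ≠ 0 := hv.2
  have hpos : 0 < nsq v := by
    obtain ⟨w, hw⟩ := Function.ne_iff.1 hv0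
    refine Finset.sum_pos' (fun w _ => by positivity) ⟨w, Finset.mem_univ _, ?_⟩
    have : v w ≠ 0 := hw
    positivity
  refine ⟨(((Real.sqrt (nsq v))⁻¹ : ℝ) : ℂ) • v, ?_, ?_⟩
  · have : nsq ((((Real.sqrt (nsq v))⁻¹ : ℝ) : ℂ) • v) =
        ‖(((Real.sqrt (nsq v))⁻¹ : ℝ) : ℂ)‖ ^ 2 * nsq v := by
      simp [nsq, Finset.mul_sum, mul_pow]
    rw [this, Complex.norm_real, Real.norm_eq_abs, sq_abs, inv_pow, Real.sq_sqrt hpos.le,
      inv_mul_cancel₀ hpos.ne']
  · rw [map_smul, hv1, smul_comm]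

theorem t_FI (hEV : S_EV) (hDF : S_DF) (hHU : S_HU) : S_FI := by
  intro D hD μ _ ρ hI hμ ev hev l hl1 hl2
  obtain ⟨hG, hT⟩ := hDF D hD
  have hF := hG.uni
  have hD1 : (1 : ℝ) ≤ D := by exact_mod_cast (by omega : 1 ≤ D)
  have hE := fun j : ℕ => hEV D _ (dft D) ρ hG hI j (1 / ((j + 1) * (D : ℝ) ^ j)) (by positivity)
  choose K hK using hE
  set J : ℕ → ℕ := fun k => Nat.findGreatest (fun j => K j ≤ k) k with hJ
  have hex : ∀ k, ∃ ψ : St D (Fin (k + 1)), (nsq ψ = 1 ∧ bk (dft D) k ψ = ev k • ψ) ∧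
      (K (J k) ≤ k → ∀ w : Fin (J k) → Fin D,
        |wm 0 w ψ - (ρ (J k) w w).re| ≤ 1 / (((J k : ℕ) + 1) * (D : ℝ) ^ (J k))) := by
    intro k
    by_cases h : K (J k) ≤ k
    · obtain ⟨ψ, h1, h2, h3⟩ := hK (J k) k h (ev k) (hT k _ (hev k))
      exact ⟨ψ, ⟨h1, h2⟩, fun _ => h3⟩
    · obtain ⟨ψ, h1, h2⟩ := FI_unit _ _ (hev k)
      exact ⟨ψ, ⟨h1, h2⟩, fun h' => absurd h' h⟩
  choose ψ hψ hψ' using hex
  refine ⟨ψ, hψ, ?_⟩
  have hJ1 : ∀ k, K 0 ≤ k → K (J k) ≤ k := fun k hk =>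
    Nat.findGreatest_spec (P := fun j => K j ≤ k) (Nat.zero_le k) hk
  have hJ2 : ∀ k, J k ≤ k := fun k => Nat.findGreatest_le k
  have hJ3 : Tendsto J atTop atTop := by
    refine tendsto_atTop.2 fun j => ?_
    filter_upwards [eventually_ge_atTop (max j (K j))] with k hk
    exact Nat.le_findGreatest ((le_max_left _ _).trans hk) ((le_max_right _ _).trans hk)
  have hconv : ∀ (n : ℕ) (w : Fin n → Fin D),
      Tendsto (fun k => wm 0 w (ψ k)) atTop (𝓝 ((ρ n w w).re)) := by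
    intro n w
    have h1 : Tendsto (fun k => (1 : ℝ) / ((J k : ℕ) + 1)) atTop (𝓝 0) :=
      (tendsto_one_div_add_atTop_nhds_zero_nat (𝕜 := ℝ)).comp hJ3
    rw [tendsto_iff_norm_sub_tendsto_zero]
    refine squeeze_zero' (Eventually.of_forall fun _ => norm_nonneg _) ?_ h1
    filter_upwards [hJ3.eventually_ge_atTop n, eventually_ge_atTop (K 0)] with k hk hk0
    obtain ⟨d, hd⟩ := Nat.exists_eq_add_of_le hk
    have h2 := hψ' k (hJ1 k hk0)
    have h3 := hJ2 k
    rw [Real.norm_eq_abs]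
    clear_value J
    have hgen : ∀ j, j = n + d → j ≤ k → (∀ w : Fin j → Fin D,
        |wm 0 w (ψ k) - (ρ j w w).re| ≤ 1 / ((j + 1) * (D : ℝ) ^ j)) →
        |wm 0 w (ψ k) - (ρ n w w).re| ≤ 1 / ((j : ℝ) + 1) := by
      rintro j rfl hj h
      refine (FI_down hI d (by omega) (ψ k) _ h w).trans ?_
      rw [mul_one_div, div_le_div_iff₀ (by positivity) (by positivity), one_mul, mul_comm]
      refine mul_le_mul_of_nonneg_left ?_ (by positivity)
      exact pow_le_pow_right₀ hD1 (by omega)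
    exact hgen _ hd h3 h2
  intro m n w
  rw [hμ m n w]
  refine (hconv n w).congr' ?_
  filter_upwards [hl2.eventually_ge_atTop (1 + m.natAbs), hl1.eventually_ge_atTop (n + m.natAbs)]
    with k h1 h2
  have h := (hHU D k (l k) (dft D) hF (by omega) (ψ k) (ev k) (hψ k).1 (hψ k).2).2 m n w
    (by omega) (by omega)
  exact h.symm

end Pool.Agent.N282.WB
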