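import Pool.Agent.N282.WB.Stm

/-!
# Project WB, module HU: the Husimi weights of an eigenvector
-/

set_option autoImplicit false

open scoped ComplexConjugate Matrix ComplexOrder
open Filter Topology MeasureTheory

noncomputable section

namespace Pool.Agent.N282.WB

theorem HU_nsq_ip {D : ℕ} {ι : Type} [Fintype ι] [DecidableEq ι] (ψ : St D ι) :
    ip ψ ψ = ((nsq ψ : ℝ) : ℂ) := by
  unfold ip nsq
  push_cast
  refine Finset.sum_congr rfl fun w _ => ?_
  rw [mul_comm, Complex.mul_conj, Complex.normSq_eq_norm_sq]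
  push_cast
  rfl

theorem HU_ev {D k : ℕ} (h1 : S_BK) (F : Matrix (Fin D) (Fin D) ℂ) (hF : Fᴴ * F = 1)
    (ψ : St D (Fin (k + 1))) (ev : ℂ) (hψ : nsq ψ = 1) (he : bk F k ψ = ev • ψ) : ‖ev‖ = 1 := by
  have h := (h1 D k F hF).1 ψ ψ
  rw [he, HU_nsq_ip, HU_nsq_ip, hψ] at h
  have h2 : nsq (ev • ψ) = ‖ev‖ ^ 2 * nsq ψ := by
    unfold nsq
    rw [Finset.mul_sum]
    refine Finset.sum_congr rfl fun w _ => ?_
    simp [mul_pow]
  rw [h2, hψ, mul_one] at h
  have h3 : ‖ev‖ ^ 2 = 1 := by exact_mod_cast h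
  nlinarith [norm_nonneg ev, sq_nonneg (‖ev‖ - 1)]

theorem HU_pow {D k : ℕ} (F : Matrix (Fin D) (Fin D) ℂ)
    (ψ : St D (Fin (k + 1))) (ev : ℂ) (he : bk F k ψ = ev • ψ) (m : ℕ) :
    (bk F k ^ m) ψ = ev ^ m • ψ := by
  induction m with
  | zero => simp
  | succ m ih =>
    rw [pow_succ', Module.End.mul_apply, ih, map_smul, he, smul_smul, pow_succ]

theorem HU_unit {D k l : ℕ} (F : Matrix (Fin D) (Fin D) ℂ) (hF : Fᴴ * F = 1)
    (y v : Fin (k + 1) → Fin D) :
    ∑ u : Fin (k + 1) → Fin D,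
      (∏ i : Fin (k + 1), if (i : ℕ) < l then (if y i = u i then (1 : ℂ) else 0) else F (y i) (u i)) *
      (∏ i : Fin (k + 1), if (i : ℕ) < l then (if u i = v i then (1 : ℂ) else 0) else
        conj (F (v i) (u i))) = if y = v then 1 else 0 := by
  have hF' : F * Fᴴ = 1 := mul_eq_one_comm.mp hF
  simp_rw [← Finset.prod_mul_distrib]
  rw [← Fintype.prod_sum (f := fun (i : Fin (k + 1)) (a : Fin D) =>
    (if (i : ℕ) < l then (if y i = a then (1 : ℂ) else 0) else F (y i) a) *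
      (if (i : ℕ) < l then (if a = v i then (1 : ℂ) else 0) else conj (F (v i) a)))]
  have h : ∀ i : Fin (k + 1), ∑ a : Fin D,
      (if (i : ℕ) < l then (if y i = a then (1 : ℂ) else 0) else F (y i) a) *
      (if (i : ℕ) < l then (if a = v i then (1 : ℂ) else 0) else conj (F (v i) a)) =
      if y i = v i then 1 else 0 := by
    intro i
    by_cases hi : (i : ℕ) < l
    · simp only [hi, if_true]
      rw [Finset.sum_eq_single (y i)]
      · simp
      · intro b _ hb
        simp [Ne.symm hb]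
      · simp
    · simp only [hi, if_false]
      have := congrFun (congrFun hF' (y i)) (v i)
      rw [Matrix.mul_apply, Matrix.one_apply] at this
      rw [← this]
      refine Finset.sum_congr rfl fun a _ => ?_
      simp [Matrix.conjTranspose_apply]
  rw [Finset.prod_congr rfl fun i _ => h i]
  by_cases hyv : y = v
  · subst hyv
    simp
  · rw [if_neg hyv]
    obtain ⟨i, hi⟩ := Function.ne_iff.mp hyv
    exact Finset.prod_eq_zero (Finset.mem_univ i) (by simp [hi])

theorem HU_one {D k l : ℕ} (h1 : S_BK) (F : Matrix (Fin D) (Fin D) ℂ) (hF : Fᴴ * F = 1)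
    (hl : l ≤ k + 1) (ψ : St D (Fin (k + 1))) (ev : ℂ) (hψ : nsq ψ = 1)
    (he : bk F k ψ = ev • ψ) (y : Fin (k + 1) → Fin D) :
    hus F k l ψ y = ‖ψ fun i => y (i + Fin.ofNat (k + 1) l)‖ ^ 2 := by
  have hev := HU_ev h1 F hF ψ ev hψ he
  have hev0 : ev ≠ 0 := by
    intro h
    rw [h] at hev
    simp at hev
  set m := k + 1 - l with hm
  have hB := (h1 D k F hF).2.2.1 m (by omega) ψ
  have hsub : ∀ i : Fin (k + 1), i - Fin.ofNat (k + 1) m = i + Fin.ofNat (k + 1) l := by
    intro i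
    have : Fin.ofNat (k + 1) l + Fin.ofNat (k + 1) m = 0 := by
      apply Fin.ext
      simp only [Fin.val_add, Fin.val_ofNat, Fin.val_zero]
      rw [← Nat.add_mod]
      rw [show l + m = k + 1 by omega]
      simp
    rw [sub_eq_iff_eq_add, add_assoc, this, add_zero]
  set G : St D (Fin (k + 1)) := fun u => ψ fun i => u (i + Fin.ofNat (k + 1) l) with hG
  have hW : ∀ u, ev ^ m * ψ u = ∑ v : Fin (k + 1) → Fin D,
      (∏ i : Fin (k + 1), if (i : ℕ) < l then (if u i = v i then (1 : ℂ) else 0) else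
        conj (F (v i) (u i))) * G v := by
    intro u
    have h := hB u
    rw [HU_pow F ψ ev he m] at h
    rw [show ev ^ m * ψ u = (ev ^ m • ψ) u from rfl, h]
    refine Finset.sum_congr rfl fun v _ => ?_
    congr 1
    · refine Finset.prod_congr rfl fun i _ => ?_
      have hi := i.isLt
      by_cases h' : (i : ℕ) < l
      · rw [if_pos h', if_neg (by omega)]
      · rw [if_neg h', if_pos (by omega)]
    · simp only [hG, hsub]
  have hU : ev ^ m * (∑ u : Fin (k + 1) → Fin D,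
      (∏ i : Fin (k + 1), if (i : ℕ) < l then (if y i = u i then (1 : ℂ) else 0) else
        F (y i) (u i)) * ψ u) = G y := by
    rw [Finset.mul_sum]
    have : ∀ u : Fin (k + 1) → Fin D, ev ^ m *
        ((∏ i : Fin (k + 1), if (i : ℕ) < l then (if y i = u i then (1 : ℂ) else 0) else
          F (y i) (u i)) * ψ u) = ∑ v : Fin (k + 1) → Fin D,
        ((∏ i : Fin (k + 1), if (i : ℕ) < l then (if y i = u i then (1 : ℂ) else 0) else
          F (y i) (u i)) *
        (∏ i : Fin (k + 1), if (i : ℕ) < l then (if u i = v i then (1 : ℂ) else 0) else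
          conj (F (v i) (u i)))) * G v := by
      intro u
      rw [mul_left_comm, hW u, Finset.mul_sum]
      refine Finset.sum_congr rfl fun v _ => ?_
      rw [mul_assoc]
    rw [Finset.sum_congr rfl fun u _ => this u, Finset.sum_comm]
    simp_rw [← Finset.sum_mul]
    simp_rw [HU_unit F hF y]
    simp
  unfold hus
  have h2 : ‖ev ^ m‖ = 1 := by rw [norm_pow, hev, one_pow]
  have h3 := congrArg norm hU
  rw [norm_mul, h2, one_mul] at h3
  rw [h3]

theorem HU_wm {D k n : ℕ} (h1 : S_BK) (h2 : S_WM) (F : Matrix (Fin D) (Fin D) ℂ)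
    (hF : Fᴴ * F = 1) (ψ : St D (Fin (k + 1))) (ev : ℂ) (hψ : nsq ψ = 1)
    (he : bk F k ψ = ev • ψ) (w : Fin n → Fin D) (s : ℕ) (hs : s + n ≤ k + 1) :
    wm s w ψ = wm 0 w ψ := by
  have hev := HU_ev h1 F hF ψ ev hψ he
  induction s with
  | zero => rfl
  | succ s ih =>
    rw [← (h2 D).1 k n F hF w s ψ hs, he, ← ih (by omega)]
    unfold wm
    refine Finset.sum_congr rfl fun y _ => ?_
    simp [hev]

theorem t_HU (h1 : S_BK) (h2 : S_WM) : S_HU := by
  intro D k l F hF hl ψ ev hψ he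
  refine ⟨fun y => HU_one h1 F hF hl ψ ev hψ he y, ?_⟩
  intro m n w hm1 hm2
  obtain ⟨t, ht⟩ : ∃ t : ℕ, (t : ℤ) = m - l + (k + 1) := ⟨(m - l + (k + 1)).toNat, by omega⟩
  have htn : t + n ≤ k + 1 := by omega
  rw [← HU_wm h1 h2 F hF ψ ev hψ he w t htn]
  unfold husC wm
  refine Fintype.sum_equiv
    (Equiv.arrowCongr (Equiv.addRight (Fin.ofNat (k + 1) l)).symm (Equiv.refl (Fin D))) _ _ ?_
  intro y
  rw [HU_one h1 F hF hl ψ ev hψ he y]
  have hz : (Equiv.arrowCongr (Equiv.addRight (Fin.ofNat (k + 1) l)).symm (Equiv.refl (Fin D))) y =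
      fun i => y (i + Fin.ofNat (k + 1) l) := by
    funext i
    simp [Equiv.arrowCongr]
  rw [hz]
  have key : (∀ (i : Fin n) (j : Fin (k + 1)), (j : ℤ) ≡ m + i [ZMOD ((k : ℤ) + 1)] → y j = w i) ↔
      (∀ (i : Fin n) (h : t + (i : ℕ) < k + 1),
        (fun i => y (i + Fin.ofNat (k + 1) l)) ⟨t + i, h⟩ = w i) := by
    have hval : ∀ (i : Fin n) (h : t + (i : ℕ) < k + 1),
        (((⟨t + i, h⟩ + Fin.ofNat (k + 1) l : Fin (k + 1)) : ℕ) : ℤ) ≡ m + i
          [ZMOD ((k : ℤ) + 1)] := by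
      intro i h
      rw [Fin.val_add, Fin.val_ofNat]
      push_cast
      rw [Int.ModEq, Int.emod_emod_of_dvd _ (dvd_refl _), Int.add_emod, Int.emod_emod_of_dvd _ (dvd_refl _),
        ← Int.add_emod, ht]
      rw [show m - (l : ℤ) + (k + 1) + (i : ℕ) + l = m + (i : ℕ) + ((k : ℤ) + 1) by ring]
      simp
    constructor
    · intro H i h
      exact H i _ (hval i h)
    · intro H i j hj
      have hi : t + (i : ℕ) < k + 1 := by
        have := i.isLt
        omega
      have h' := (hj.trans (hval i hi).symm)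
      have hj1 : (j : ℕ) = ((⟨t + i, hi⟩ + Fin.ofNat (k + 1) l : Fin (k + 1)) : ℕ) := by
        have h3 : (j : ℕ) ≡ ((⟨t + i, hi⟩ + Fin.ofNat (k + 1) l : Fin (k + 1)) : ℕ) [MOD (k + 1)] := by
          rw [← Int.natCast_modEq_iff]
          push_cast
          exact_mod_cast h'
        exact Nat.ModEq.eq_of_lt_of_lt h3 j.isLt (Fin.isLt _)
      have hj2 : j = (⟨t + i, hi⟩ + Fin.ofNat (k + 1) l : Fin (k + 1)) := Fin.ext hj1
      rw [hj2]
      exact H i hi
  by_cases hc : ∀ (i : Fin n) (j : Fin (k + 1)), (j : ℤ) ≡ m + i [ZMOD ((k : ℤ) + 1)] → y j = w i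
  · rw [if_pos hc, if_pos (key.mp hc)]
  · rw [if_neg hc, if_neg fun h => hc (key.mpr h)]

end Pool.Agent.N282.WB
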