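import Pool.Agent.N282.WB.Stm

/-!
# Project WB, modules FQ and MN: frequencies and the main part of the wave function
-/

set_option autoImplicit false

open scoped ComplexConjugate Matrix ComplexOrder
open Filter Topology MeasureTheory

noncomputable section

namespace Pool.Agent.N282.WB

/-- rounding of frequencies on an initial segment -/
lemma MN_round (k m : ℕ) (p : ℕ → ℝ) (hp : ∀ i, 0 ≤ p i) (h1 : ∑ i ∈ Finset.range k, p i = 1) :
    ∃ c : ℕ → ℕ, ∑ i ∈ Finset.range k, c i = m ∧ ∀ i, |(c i : ℝ) - p i * m| ≤ 1 := by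
  obtain ⟨P, hP⟩ : ∃ P : ℕ → ℝ, ∀ j, P j = ∑ i ∈ Finset.range j, p i := ⟨_, fun _ => rfl⟩
  have hP0 : ∀ j, 0 ≤ P j := fun j => by
    rw [hP]
    exact Finset.sum_nonneg fun i _ => hp i
  have hPs : ∀ j, P (j + 1) = P j + p j := fun j => by
    rw [hP, hP, Finset.sum_range_succ]
  have hmono : Monotone (fun j => ⌊P j * m⌋₊) := by
    apply monotone_nat_of_le_succ
    intro j
    apply Nat.floor_le_floor
    have := hp j
    have hm : (0 : ℝ) ≤ m := Nat.cast_nonneg m
    rw [hPs]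
    nlinarith
  refine ⟨fun j => ⌊P (j + 1) * m⌋₊ - ⌊P j * m⌋₊, ?_, ?_⟩
  · rw [Finset.sum_range_tsub hmono]
    rw [hP k, h1, hP 0]
    simp
  · intro j
    have h2 : ⌊P j * m⌋₊ ≤ ⌊P (j + 1) * m⌋₊ := hmono (Nat.le_succ j)
    have hm : (0 : ℝ) ≤ m := Nat.cast_nonneg m
    have a1 := Nat.floor_le (mul_nonneg (hP0 j) hm)
    have a2 := Nat.lt_floor_add_one (P j * m)
    have a3 := Nat.floor_le (mul_nonneg (hP0 (j + 1)) hm)
    have a4 := Nat.lt_floor_add_one (P (j + 1) * m)
    have a5 : P (j + 1) * m = P j * m + p j * m := by rw [hPs]; ring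
    rw [Nat.cast_sub h2, abs_le]
    constructor <;> linarith

theorem t_FQ : S_FQ := by
  intro ι _ _ p hp h1 m
  obtain ⟨k, ⟨e⟩⟩ : ∃ k : ℕ, Nonempty (ι ≃ Fin k) := ⟨_, ⟨Fintype.equivFin ι⟩⟩
  have h2 : ∑ i ∈ Finset.range k, (fun i : ℕ => if h : i < k then p (e.symm ⟨i, h⟩) else 0) i
      = 1 := by
    rw [Finset.sum_range, ← h1, ← Equiv.sum_comp e.symm]
    refine Finset.sum_congr rfl fun i _ => ?_
    simp
  obtain ⟨c, hc1, hc2⟩ := MN_round k m _ (fun i => by
    show 0 ≤ (if h : i < k then p (e.symm ⟨i, h⟩) else 0)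
    split_ifs
    · exact hp _
    · exact le_rfl) h2
  have h3 : Fintype.card (Fin m) = Fintype.card (Σ i : Fin k, Fin (c i)) := by
    rw [Fintype.card_sigma, Fintype.card_fin, ← hc1, Finset.sum_range]
    simp
  obtain ⟨E⟩ := Fintype.card_eq.1 h3
  refine ⟨fun b => e.symm (E b).1, fun i => ?_⟩
  have h4 : (Finset.univ.filter fun b => e.symm (E b).1 = i)
      = (Finset.univ : Finset (Fin (c (e i)))).map
        ⟨fun j => E.symm ⟨e i, j⟩, fun j j' hjj => by
          have := E.symm.injective hjj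
          simpa using this⟩ := by
    ext b
    rw [Finset.mem_filter, Finset.mem_map]
    constructor
    · rintro ⟨_, hb⟩
      obtain ⟨⟨i', j⟩, hx⟩ : ∃ x, E b = x := ⟨_, rfl⟩
      rw [hx] at hb
      have hi : i' = e i := by
        rw [← hb]
        simp
      subst hi
      refine ⟨j, Finset.mem_univ _, ?_⟩
      show E.symm ⟨e i, j⟩ = b
      rw [← hx, Equiv.symm_apply_apply]
    · rintro ⟨j, _, rfl⟩
      refine ⟨Finset.mem_univ _, ?_⟩
      show e.symm (E (E.symm ⟨e i, j⟩)).1 = i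
      rw [Equiv.apply_symm_apply]
      simp
  rw [h4, Finset.card_map, Finset.card_univ, Fintype.card_fin]
  have h5 := hc2 (e i)
  simp only [Fin.is_lt, dite_true, Fin.eta, Equiv.symm_apply_apply] at h5
  exact h5

/-- the main part -/
def MN_Psi {D n : ℕ} (g : ℕ → St D (Fin n)) : (m : ℕ) → St D (Fin (n * m))
  | 0 => fun _ => 1
  | m + 1 => tens (a := n * m) (b := n) (MN_Psi g m) (g m)

theorem t_MN (h1 : S_WM) (h2 : S_SP) (h3 : S_FQ) : S_MN := by
  intro D F ρ hF hρ n m
  obtain ⟨w1, w2, w3, w4, w5, w6, w7⟩ := h1 D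
  obtain ⟨p, φ, hp0, hp1, hφ, hsp⟩ := h2 D F ρ hF hρ n
  obtain ⟨f, hf⟩ := h3 (Fin n → Fin D) p hp0 hp1 m
  have hne : Nonempty (Fin n → Fin D) := by
    by_contra h
    rw [not_nonempty_iff] at h
    rw [Finset.univ_eq_empty, Finset.sum_empty] at hp1
    exact zero_ne_one hp1
  obtain ⟨i0⟩ := hne
  obtain ⟨g, hg⟩ : ∃ g : ℕ → St D (Fin n), ∀ b, g b = φ (if h : b < m then f ⟨b, h⟩ else i0) :=
    ⟨_, fun _ => rfl⟩
  have hg1 : ∀ b, nsq (g b) = 1 := fun b => by rw [hg]; exact hφ _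
  have hΨ : ∀ m', nsq (MN_Psi g m') = 1 := by
    intro m'
    induction m' with
    | zero => simp [nsq, MN_Psi]
    | succ m' ih =>
      show nsq (tens (a := n * m') (b := n) (MN_Psi g m') (g m')) = 1
      rw [w4, ih, hg1, one_mul]
  refine ⟨MN_Psi g m, hΨ m, ?_⟩
  intro j N w
  obtain ⟨M, hM⟩ : ∃ M : Matrix (Fin D) (Fin D) ℂ, M = Fᴴ ^ j := ⟨_, rfl⟩
  have hFF : F * Fᴴ = 1 := mul_eq_one_comm.1 hF
  have hMM : Mᴴ * M = 1 := by
    have hcomm : Commute F Fᴴ := by
      show F * Fᴴ = Fᴴ * F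
      rw [hF, hFF]
    rw [hM, Matrix.conjTranspose_pow, Matrix.conjTranspose_conjTranspose, ← hcomm.mul_pow, hFF,
      one_pow]
  rw [← hM]
  have key : ∀ m' : ℕ, |∑ s ∈ Finset.range (n * m'), wm s w (opA M (MN_Psi g m')) -
      ∑ b ∈ Finset.range m', ∑ s ∈ Finset.range n, wm s w (opA M (g b))| ≤ m' * N := by
    intro m'
    induction m' with
    | zero => simp
    | succ m' ih =>
      have e1 : opA M (MN_Psi g (m' + 1))
          = tens (a := n * m') (b := n) (opA M (MN_Psi g m')) (opA M (g m')) :=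
        w5 (n * m') n M (MN_Psi g m') (g m')
      have e2 := w7 (n * m') n N w (opA M (MN_Psi g m')) (opA M (g m'))
        (by rw [w6 _ _ _ hMM, hΨ]) (by rw [w6 _ _ _ hMM, hg1])
      rw [Finset.sum_range_succ, e1]
      have e3 : ∑ s ∈ Finset.range (n * (m' + 1)), wm (k := n * (m' + 1)) s w
          (tens (a := n * m') (b := n) (opA M (MN_Psi g m')) (opA M (g m')))
          = ∑ s ∈ Finset.range (n * m' + n), wm s w
            (tens (opA M (MN_Psi g m')) (opA M (g m'))) := rfl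
      rw [e3]
      rw [abs_le] at ih e2 ⊢
      push_cast
      constructor <;> linarith [ih.1, ih.2, e2.1, e2.2]
  obtain ⟨H, hH⟩ : ∃ H : (Fin n → Fin D) → ℝ, ∀ i, H i =
      ∑ s ∈ Finset.range n, wm s w (opA M (φ i)) := ⟨_, fun _ => rfl⟩
  have hH0 : ∀ i, 0 ≤ H i := fun i => by
    rw [hH]
    exact Finset.sum_nonneg fun s _ => (w2 _ _ _ _ _).1
  have hHn : ∀ i, H i ≤ n := fun i => by
    rw [hH]
    calc ∑ s ∈ Finset.range n, wm s w (opA M (φ i)) ≤ ∑ s ∈ Finset.range n, (1 : ℝ) := by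
          refine Finset.sum_le_sum fun s _ => ?_
          refine (w2 _ _ _ _ _).2.trans ?_
          rw [w6 _ _ _ hMM, hφ]
      _ = n := by simp
  have e4 : ∑ b ∈ Finset.range m, ∑ s ∈ Finset.range n, wm s w (opA M (g b))
      = ∑ i, ((Finset.univ.filter fun b => f b = i).card : ℝ) * H i := by
    rw [Finset.sum_range]
    have e5 : ∀ b : Fin m, ∑ s ∈ Finset.range n, wm s w (opA M (g b)) = H (f b) := by
      intro b
      rw [hH, hg, dif_pos b.2]
    rw [Finset.sum_congr rfl fun b _ => e5 b,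
      ← Finset.sum_fiberwise_of_maps_to (t := Finset.univ) (g := f) (fun _ _ => Finset.mem_univ _)]
    refine Finset.sum_congr rfl fun i _ => ?_
    rw [Finset.sum_congr rfl (g := fun _ => H i) (fun b hb => by
      rw [(Finset.mem_filter.1 hb).2]), Finset.sum_const, nsmul_eq_mul]
  have e6 : |∑ i, ((Finset.univ.filter fun b => f b = i).card : ℝ) * H i - m * ∑ i, p i * H i|
      ≤ n * D ^ n := by
    rw [Finset.mul_sum, ← Finset.sum_sub_distrib]
    calc |∑ i, (((Finset.univ.filter fun b => f b = i).card : ℝ) * H i - m * (p i * H i))|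
        ≤ ∑ i, |((Finset.univ.filter fun b => f b = i).card : ℝ) * H i - m * (p i * H i)| :=
          Finset.abs_sum_le_sum_abs _ _
      _ ≤ ∑ i : Fin n → Fin D, (n : ℝ) := by
          refine Finset.sum_le_sum fun i _ => ?_
          have e7 : ((Finset.univ.filter fun b => f b = i).card : ℝ) * H i - m * (p i * H i)
              = (((Finset.univ.filter fun b => f b = i).card : ℝ) - p i * m) * H i := by ring
          rw [e7, abs_mul, abs_of_nonneg (hH0 i)]
          calc _ ≤ 1 * (n : ℝ) := mul_le_mul (hf i) (hHn i) (hH0 i) zero_le_one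
            _ = n := one_mul _
      _ = n * D ^ n := by
          rw [Finset.sum_const, Finset.card_univ, nsmul_eq_mul]
          simp [mul_comm]
  have e8 : |∑ i, p i * H i - n * (ρ N w w).re| ≤ N := by
    have := hsp j N w
    rw [← hM] at this
    simp_rw [hH]
    exact this
  have e9 := key m
  rw [e4] at e9
  have hm : (0 : ℝ) ≤ m := Nat.cast_nonneg m
  have e10 : |(m : ℝ) * ∑ i, p i * H i - n * m * (ρ N w w).re| ≤ m * N := by
    have e11 : (m : ℝ) * ∑ i, p i * H i - n * m * (ρ N w w).re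
        = m * (∑ i, p i * H i - n * (ρ N w w).re) := by ring
    rw [e11, abs_mul, abs_of_nonneg hm]
    exact mul_le_mul_of_nonneg_left e8 hm
  rw [abs_le] at e6 e9 e10 ⊢
  constructor <;> linarith [e6.1, e6.2, e9.1, e9.2, e10.1, e10.2]

end Pool.Agent.N282.WB
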