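import Pool.Agent.N282.WB.Stm

/-!
# Project WB: mixtures with the uniform measure
-/

set_option autoImplicit false

open scoped ComplexConjugate Matrix ComplexOrder
open Filter Topology MeasureTheory

noncomputable section

namespace Pool.Agent.N282.WB

/-! ### Tensor powers and sums over words -/

lemma MX_tp_mul {D : ℕ} (A B : Matrix (Fin D) (Fin D) ℂ) (n : ℕ) :
    tp (A * B) n = tp A n * tp B n := by
  ext u v
  simp only [tp, Matrix.mul_apply]
  have h := Finset.prod_univ_sum (fun _ : Fin n => (Finset.univ : Finset (Fin D)))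
    (fun i x => A (u i) x * B x (v i))
  rw [Fintype.piFinset_univ] at h
  rw [h]
  exact Finset.sum_congr rfl fun w _ => Finset.prod_mul_distrib

lemma MX_tp_one {D : ℕ} (n : ℕ) : tp (1 : Matrix (Fin D) (Fin D) ℂ) n = 1 := by
  ext u v
  simp only [tp]
  by_cases h : u = v
  · rw [h, Matrix.one_apply_eq]
    exact Finset.prod_eq_one fun i _ => Matrix.one_apply_eq _
  · rw [Matrix.one_apply_ne h]
    obtain ⟨i, hi⟩ := Function.ne_iff.1 h
    exact Finset.prod_eq_zero (Finset.mem_univ i) (Matrix.one_apply_ne hi)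

lemma MX_sum_snoc {D n : ℕ} {M : Type} [AddCommMonoid M] (f : (Fin (n + 1) → Fin D) → M) :
    ∑ y, f y = ∑ x : Fin n → Fin D, ∑ b : Fin D, f (Fin.snoc (α := fun _ => Fin D) x b) := by
  rw [Finset.sum_comm, ← Fintype.sum_prod_type'
    (f := fun (b : Fin D) (x : Fin n → Fin D) => f (Fin.snoc (α := fun _ => Fin D) x b))]
  exact ((Fin.snocEquiv (fun _ : Fin (n + 1) => Fin D)).sum_comp f).symm

lemma MX_sum_cons {D n : ℕ} {M : Type} [AddCommMonoid M] (f : (Fin (n + 1) → Fin D) → M) :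
    ∑ y, f y = ∑ x : Fin n → Fin D, ∑ b : Fin D, f (Fin.cons (α := fun _ => Fin D) b x) := by
  rw [Finset.sum_comm, ← Fintype.sum_prod_type'
    (f := fun (b : Fin D) (x : Fin n → Fin D) => f (Fin.cons (α := fun _ => Fin D) b x))]
  exact ((Fin.consEquiv (fun _ : Fin (n + 1) => Fin D)).sum_comp f).symm

lemma MX_tp_snoc {D n : ℕ} (A : Matrix (Fin D) (Fin D) ℂ) (x u : Fin n → Fin D) (b a : Fin D) :
    tp A (n + 1) (Fin.snoc x b) (Fin.snoc u a) = tp A n x u * A b a := by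
  simp only [tp, Fin.prod_univ_castSucc, Fin.snoc_castSucc, Fin.snoc_last]

lemma MX_tp_cons {D n : ℕ} (A : Matrix (Fin D) (Fin D) ℂ) (x u : Fin n → Fin D) (b a : Fin D) :
    tp A (n + 1) (Fin.cons b x) (Fin.cons a u) = A b a * tp A n x u := by
  simp only [tp, Fin.prod_univ_succ, Fin.cons_zero, Fin.cons_succ]

/-! ### The Fourier transform -/

lemma MX_norm {D : ℕ} (a b : Fin D) : ‖dft D a b‖ ^ 2 = (D : ℝ)⁻¹ := by
  unfold dft
  have e : -(2 * (Real.pi : ℂ) * Complex.I * ((a : ℕ) : ℂ) * ((b : ℕ) : ℂ) / (D : ℂ)) =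
      ((-(2 * Real.pi * (a : ℕ) * (b : ℕ) / D) : ℝ) : ℂ) * Complex.I := by
    push_cast
    ring
  rw [norm_mul, e, Complex.norm_exp_ofReal_mul_I, mul_one, norm_inv, Complex.norm_real,
    Real.norm_of_nonneg (Real.sqrt_nonneg _), inv_pow, Real.sq_sqrt (Nat.cast_nonneg _)]

lemma MX_symm {D : ℕ} (a b : Fin D) : dft D a b = dft D b a := by
  unfold dft
  congr 3
  ring

lemma MX_conj {D : ℕ} (hD : 2 ≤ D) (a b b' : Fin D) (h : ((b : ℕ) + (b' : ℕ)) % D = 0) :
    dft D a b = conj (dft D a b') := by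
  have hD0 : (D : ℂ) ≠ 0 := by
    have : D ≠ 0 := by omega
    exact_mod_cast this
  unfold dft
  rw [map_mul, map_inv₀, Complex.conj_ofReal, ← Complex.exp_conj]
  congr 1
  obtain ⟨m, hm⟩ := Nat.dvd_of_mod_eq_zero h
  have e1 : conj (-(2 * (Real.pi : ℂ) * Complex.I * ((a : ℕ) : ℂ) * ((b' : ℕ) : ℂ) / (D : ℂ))) =
      2 * (Real.pi : ℂ) * Complex.I * ((a : ℕ) : ℂ) * ((b' : ℕ) : ℂ) / (D : ℂ) := by
    simp only [map_neg, map_div₀, map_mul, Complex.conj_I, Complex.conj_ofReal, map_natCast,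
      map_ofNat]
    ring
  rw [e1]
  have hb : ((b : ℕ) : ℂ) = (D : ℂ) * m - ((b' : ℕ) : ℂ) := by
    have : ((b : ℕ) : ℂ) + ((b' : ℕ) : ℂ) = (D : ℂ) * m := by exact_mod_cast hm
    linear_combination this
  rw [hb]
  have e2 : -(2 * (Real.pi : ℂ) * Complex.I * ((a : ℕ) : ℂ) * ((D : ℂ) * m - ((b' : ℕ) : ℂ)) /
      (D : ℂ)) = 2 * (Real.pi : ℂ) * Complex.I * ((a : ℕ) : ℂ) * ((b' : ℕ) : ℂ) / (D : ℂ) +
      ((-((a : ℕ) * m : ℕ) : ℤ) : ℂ) * (2 * (Real.pi : ℂ) * Complex.I) := by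
    push_cast
    field_simp
    ring
  rw [e2, Complex.exp_add, Complex.exp_int_mul_two_pi_mul_I, mul_one]

/-- the square of the Fourier transform -/
lemma MX_sq {D : ℕ} (hD : 2 ≤ D) (hu : (dft D)ᴴ * dft D = 1) (a b b' : Fin D)
    (h : ((b : ℕ) + (b' : ℕ)) % D = 0) : (dft D * dft D) a b = if a = b' then 1 else 0 := by
  rw [Matrix.mul_apply]
  have h1 : ∀ c, dft D a c * dft D c b = (dft D)ᴴ b' c * dft D c a := by
    intro c
    rw [Matrix.conjTranspose_apply, MX_conj hD c b b' h, MX_symm a c]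
    simp only [RCLike.star_def]
    ring
  rw [Finset.sum_congr rfl fun c _ => h1 c, ← Matrix.mul_apply, hu, Matrix.one_apply]
  by_cases h2 : a = b'
  · rw [if_pos h2, if_pos h2.symm]
  · rw [if_neg h2, if_neg (Ne.symm h2)]

/-! ### The mixture -/

section mix

variable {D : ℕ} (c : (n : ℕ) → (Fin n → Fin D) → ℝ)

/-- one summand -/
def MX_t (G : Matrix (Fin D) (Fin D) ℂ) (n : ℕ) : Matrix (Fin n → Fin D) (Fin n → Fin D) ℂ :=
  (tp G n)ᴴ * Matrix.diagonal (fun x => ((c n x / 4 : ℝ) : ℂ)) * tp G n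

lemma MX_t_apply (G : Matrix (Fin D) (Fin D) ℂ) (n : ℕ) (u v : Fin n → Fin D) :
    MX_t c G n u v = ∑ x, conj (tp G n x u) * ((c n x / 4 : ℝ) : ℂ) * tp G n x v := by
  unfold MX_t
  rw [Matrix.mul_apply]
  refine Finset.sum_congr rfl fun x _ => ?_
  rw [Matrix.mul_diagonal, Matrix.conjTranspose_apply]
  rfl

lemma MX_t_psd (hc : ∀ n w, 0 ≤ c n w) (G : Matrix (Fin D) (Fin D) ℂ) (n : ℕ) :
    (MX_t c G n).PosSemidef := by
  unfold MX_t
  refine Matrix.PosSemidef.conjTranspose_mul_mul_same (Matrix.PosSemidef.diagonal fun x => ?_) _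
  have := hc n x
  rw [Pi.zero_apply, Complex.zero_le_real]
  positivity

lemma MX_t_right (hr : ∀ n (w : Fin n → Fin D), ∑ a, c (n + 1) (Fin.snoc w a) = c n w)
    (G : Matrix (Fin D) (Fin D) ℂ) (hG : G * Gᴴ = 1) (n : ℕ) (u v : Fin n → Fin D) :
    ∑ a, MX_t c G (n + 1) (Fin.snoc u a) (Fin.snoc v a) = MX_t c G n u v := by
  simp only [MX_t_apply]
  have h1 : ∀ a : Fin D, ∑ x, conj (tp G (n + 1) x (Fin.snoc u a)) *
      ((c (n + 1) x / 4 : ℝ) : ℂ) * tp G (n + 1) x (Fin.snoc v a) =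
      ∑ x : Fin n → Fin D, ∑ b : Fin D, conj (tp G n x u) * tp G n x v *
        ((c (n + 1) (Fin.snoc x b) / 4 : ℝ) : ℂ) * (G b a * conj (G b a)) := by
    intro a
    rw [MX_sum_snoc]
    refine Finset.sum_congr rfl fun x _ => Finset.sum_congr rfl fun b _ => ?_
    rw [MX_tp_snoc, MX_tp_snoc, map_mul]
    ring
  rw [Finset.sum_congr rfl fun a _ => h1 a, Finset.sum_comm]
  refine Finset.sum_congr rfl fun x _ => ?_
  rw [Finset.sum_comm]
  have h2 : ∀ b : Fin D, ∑ a : Fin D, conj (tp G n x u) * tp G n x v *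
        ((c (n + 1) (Fin.snoc x b) / 4 : ℝ) : ℂ) * (G b a * conj (G b a)) =
      conj (tp G n x u) * tp G n x v * ((c (n + 1) (Fin.snoc x b) / 4 : ℝ) : ℂ) := by
    intro b
    rw [← Finset.mul_sum]
    have h3 : ∑ a, G b a * conj (G b a) = 1 := by
      have := congrFun (congrFun hG b) b
      rw [Matrix.mul_apply, Matrix.one_apply_eq] at this
      exact this
    rw [h3, mul_one]
  rw [Finset.sum_congr rfl fun b _ => h2 b, ← Finset.mul_sum, ← Complex.ofReal_sum,
    ← Finset.sum_div, hr]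
  ring

lemma MX_t_left (hl : ∀ n (w : Fin n → Fin D), ∑ a, c (n + 1) (Fin.cons a w) = c n w)
    (G : Matrix (Fin D) (Fin D) ℂ) (hG : G * Gᴴ = 1) (n : ℕ) (u v : Fin n → Fin D) :
    ∑ a, MX_t c G (n + 1) (Fin.cons a u) (Fin.cons a v) = MX_t c G n u v := by
  simp only [MX_t_apply]
  have h1 : ∀ a : Fin D, ∑ x, conj (tp G (n + 1) x (Fin.cons a u)) *
      ((c (n + 1) x / 4 : ℝ) : ℂ) * tp G (n + 1) x (Fin.cons a v) =
      ∑ x : Fin n → Fin D, ∑ b : Fin D, conj (tp G n x u) * tp G n x v *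
        ((c (n + 1) (Fin.cons b x) / 4 : ℝ) : ℂ) * (G b a * conj (G b a)) := by
    intro a
    rw [MX_sum_cons]
    refine Finset.sum_congr rfl fun x _ => Finset.sum_congr rfl fun b _ => ?_
    rw [MX_tp_cons, MX_tp_cons, map_mul]
    ring
  rw [Finset.sum_congr rfl fun a _ => h1 a, Finset.sum_comm]
  refine Finset.sum_congr rfl fun x _ => ?_
  rw [Finset.sum_comm]
  have h2 : ∀ b : Fin D, ∑ a : Fin D, conj (tp G n x u) * tp G n x v *
        ((c (n + 1) (Fin.cons b x) / 4 : ℝ) : ℂ) * (G b a * conj (G b a)) =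
      conj (tp G n x u) * tp G n x v * ((c (n + 1) (Fin.cons b x) / 4 : ℝ) : ℂ) := by
    intro b
    rw [← Finset.mul_sum]
    have h3 : ∑ a, G b a * conj (G b a) = 1 := by
      have := congrFun (congrFun hG b) b
      rw [Matrix.mul_apply, Matrix.one_apply_eq] at this
      exact this
    rw [h3, mul_one]
  rw [Finset.sum_congr rfl fun b _ => h2 b, ← Finset.mul_sum, ← Complex.ofReal_sum,
    ← Finset.sum_div, hl]
  ring

lemma MX_csum (h0 : ∀ w, c 0 w = 1)
    (hr : ∀ n (w : Fin n → Fin D), ∑ a, c (n + 1) (Fin.snoc w a) = c n w) (n : ℕ) :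
    ∑ w, c n w = 1 := by
  induction n with
  | zero => simp [h0]
  | succ n ih =>
    rw [MX_sum_snoc, ← ih]
    exact Finset.sum_congr rfl fun x _ => hr n x

/-- the diagonal -/
lemma MX_t_diag (G : Matrix (Fin D) (Fin D) ℂ) (n : ℕ) (w : Fin n → Fin D) :
    (MX_t c G n w w).re = ∑ x, (∏ i, ‖G (x i) (w i)‖ ^ 2) * (c n x / 4) := by
  rw [MX_t_apply, Complex.re_sum]
  refine Finset.sum_congr rfl fun x _ => ?_
  have e : conj (tp G n x w) * ((c n x / 4 : ℝ) : ℂ) * tp G n x w =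
      (((∏ i, ‖G (x i) (w i)‖ ^ 2) * (c n x / 4) : ℝ) : ℂ) := by
    have h1 : conj (tp G n x w) * tp G n x w = ((∏ i, ‖G (x i) (w i)‖ ^ 2 : ℝ) : ℂ) := by
      rw [Complex.conj_mul', tp, norm_prod, ← Complex.ofReal_pow, ← Finset.prod_pow]
    rw [Complex.ofReal_mul, ← h1]
    ring
  rw [e, Complex.ofReal_re]

end mix

theorem t_MX (h : S_DF) : S_MX := by
  intro D hD c hc h0 hr hl
  obtain ⟨hgood, -⟩ := h D hD
  set F := dft D with hF
  have hu : Fᴴ * F = 1 := hgood.uni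
  have hu' : F * Fᴴ = 1 := mul_eq_one_comm.1 hu
  have h4 : F ^ 4 = 1 := by
    have := hgood.pow
    split_ifs at this
    · rw [show 4 = 2 * 2 by norm_num, pow_mul, this, one_pow]
    · exact this
  have hGu : ∀ j : ℕ, F ^ j * (F ^ j)ᴴ = 1 := by
    intro j
    induction j with
    | zero => simp
    | succ j ih =>
      rw [pow_succ, Matrix.conjTranspose_mul, Matrix.mul_assoc, ← Matrix.mul_assoc F, hu',
        Matrix.one_mul, ih]
  have h3 : F ^ 3 = Fᴴ := by
    calc F ^ 3 = (Fᴴ * F) * F ^ 3 := by rw [hu, Matrix.one_mul]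
      _ = Fᴴ * F ^ 4 := by rw [Matrix.mul_assoc, ← pow_succ']
      _ = Fᴴ := by rw [h4, Matrix.mul_one]
  refine ⟨fun n => ∑ j ∈ Finset.range 4, MX_t c (F ^ j) n, ⟨fun n => ?_, fun u v => ?_,
    fun n u v => ?_, fun n u v => ?_, fun n => ?_⟩, fun n w w' hw => ?_⟩
  · exact Matrix.posSemidef_sum _ fun j _ => MX_t_psd c hc _ n
  · simp only [Matrix.sum_apply, MX_t_apply, tp]
    simp [h0]
  · simp only [Matrix.sum_apply]
    rw [Finset.sum_comm]
    exact Finset.sum_congr rfl fun j _ => MX_t_right c hr _ (hGu j) n u v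
  · simp only [Matrix.sum_apply]
    rw [Finset.sum_comm]
    exact Finset.sum_congr rfl fun j _ => MX_t_left c hl _ (hGu j) n u v
  · have hs : ∀ j : ℕ, (tp F n)ᴴ * MX_t c (F ^ j) n * tp F n = MX_t c (F ^ (j + 1)) n := by
      intro j
      unfold MX_t
      rw [pow_succ, MX_tp_mul, Matrix.conjTranspose_mul]
      simp only [Matrix.mul_assoc]
    rw [Matrix.mul_sum, Matrix.sum_mul, Finset.sum_congr rfl fun j _ => hs j]
    rw [Finset.sum_range_succ, Finset.sum_range_succ' _ 3]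
    congr 1
    rw [h4, pow_zero]
  · have hsum : ∑ x, c n x = 1 := MX_csum c h0 hr n
    have hDn : ∀ G : Matrix (Fin D) (Fin D) ℂ, (∀ a b, ‖G a b‖ ^ 2 = (D : ℝ)⁻¹) →
        (MX_t c G n w w).re = 1 / 4 * ((D : ℝ) ^ n)⁻¹ := by
      intro G hG
      rw [MX_t_diag]
      simp only [hG, Finset.prod_const, Finset.card_univ, Fintype.card_fin]
      rw [← Finset.mul_sum, ← Finset.sum_div, hsum, inv_pow]
      ring
    have t1 : (MX_t c (F ^ 1) n w w).re = 1 / 4 * ((D : ℝ) ^ n)⁻¹ := by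
      rw [pow_one]
      exact hDn F fun a b => MX_norm a b
    have t3 : (MX_t c (F ^ 3) n w w).re = 1 / 4 * ((D : ℝ) ^ n)⁻¹ := by
      rw [h3]
      refine hDn _ fun a b => ?_
      rw [Matrix.conjTranspose_apply, norm_star]
      exact MX_norm b a
    have hone : ∀ (G : Matrix (Fin D) (Fin D) ℂ) (z : Fin n → Fin D),
        (∀ i a, ‖G a (w i)‖ ^ 2 = if a = z i then (1 : ℝ) else 0) →
        (MX_t c G n w w).re = 1 / 4 * c n z := by
      intro G z hG
      rw [MX_t_diag]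
      simp only [hG]
      rw [Finset.sum_eq_single z]
      · simp
        ring
      · intro x _ hx
        obtain ⟨i, hi⟩ := Function.ne_iff.1 hx
        rw [Finset.prod_eq_zero (Finset.mem_univ i) (if_neg hi), zero_mul]
      · intro hz
        exact absurd (Finset.mem_univ z) hz
    have t0 : (MX_t c (F ^ 0) n w w).re = 1 / 4 * c n w := by
      refine hone _ w fun i a => ?_
      rw [pow_zero, Matrix.one_apply]
      split_ifs <;> simp
    have t2 : (MX_t c (F ^ 2) n w w).re = 1 / 4 * c n w' := by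
      refine hone _ w' fun i a => ?_
      have hF2 : F ^ 2 = dft D * dft D := pow_two F
      rw [hF2, MX_sq hD hu a (w i) (w' i) (hw i)]
      split_ifs <;> simp
    simp only [Finset.sum_range_succ, Finset.sum_range_zero, zero_add, Matrix.add_apply,
      Complex.add_re]
    rw [t0, t1, t2, t3]
    ring

end Pool.Agent.N282.WB
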