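import Pool.Agent.N282.WB.Stm

/-!
# Project WB, module NC: necessity (helper738)
-/

set_option autoImplicit false

open scoped ComplexConjugate Matrix ComplexOrder
open Filter Topology MeasureTheory

noncomputable section

namespace Pool.Agent.N282.WB

theorem NC_psd {n : Type} [Fintype n] (U : Filter ℕ) [U.NeBot] (M : ℕ → Matrix n n ℂ)
    (R : Matrix n n ℂ) (h : Tendsto M U (𝓝 R)) (hM : ∀ᶠ j in U, (M j).PosSemidef) :
    R.PosSemidef := by
  have h1 : R.IsHermitian := by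
    have h2 : Tendsto (fun j => (M j)ᴴ) U (𝓝 Rᴴ) :=
      (Continuous.matrix_conjTranspose continuous_id).tendsto R |>.comp h
    have h3 : Tendsto (fun j => (M j)ᴴ) U (𝓝 R) :=
      h.congr' (hM.mono fun j hj => hj.1.symm)
    exact tendsto_nhds_unique h2 h3
  refine Matrix.PosSemidef.of_dotProduct_mulVec_nonneg h1 fun x => ?_
  have h2 : Tendsto (fun j => star x ⬝ᵥ (M j *ᵥ x)) U (𝓝 (star x ⬝ᵥ (R *ᵥ x))) := by
    have h3 : Continuous fun A : Matrix n n ℂ => star x ⬝ᵥ (A *ᵥ x) := by fun_prop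
    exact (h3.tendsto R).comp h
  exact ge_of_tendsto h2 (hM.mono fun j hj => hj.dotProduct_mulVec_nonneg x)

theorem t_NC (h1 : S_HU) (h2 : S_RD) (h3 : S_DF) : S_NC := by
  intro D hD μ _ hμ
  obtain ⟨k, l, ψ, hl, hkl, hψ, hlim⟩ := hμ
  have hF : (dft D)ᴴ * dft D = 1 := (h3 D hD).1.uni
  have hk : Tendsto k atTop atTop := tendsto_atTop_mono (fun j => Nat.sub_le _ _) hkl
  have hw : ∀ (m : ℤ) (n : ℕ) (w : Fin n → Fin D),
      Tendsto (fun j => wm 0 w (ψ j)) atTop (𝓝 (μ.real (cyl m w))) := by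
    intro m n w
    refine (hlim m n w).congr' ?_
    have e1 := hl.eventually_ge_atTop (m + n).toNat
    have e2 := hkl.eventually_ge_atTop (-m).toNat
    have e3 := hkl.eventually_ge_atTop 1
    filter_upwards [e1, e2, e3] with j g1 g2 g3
    obtain ⟨hn, ev, hev⟩ := hψ j
    refine ((h1 D (k j) (l j) (dft D) hF (by omega) (ψ j) ev hn hev).2 m n w ?_ ?_)
    · omega
    · omega
  obtain ⟨U, hU⟩ : ∃ U : Ultrafilter ℕ, U = hyperfilter ℕ := ⟨_, rfl⟩
  have hUle : (U : Filter ℕ) ≤ atTop := by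
    rw [hU]
    exact Nat.hyperfilter_le_atTop
  have hex : ∀ (n : ℕ) (u v : Fin n → Fin D), ∃ z : ℂ,
      Tendsto (fun j => rd n (ψ j) u v) U (𝓝 z) := by
    intro n u v
    have e1 : ∀ᶠ j in (U : Filter ℕ), rd n (ψ j) u v ∈ Metric.closedBall (0 : ℂ) 1 := by
      refine Filter.Eventually.filter_mono hUle ?_
      filter_upwards [hk.eventually_ge_atTop n] with j hj
      obtain ⟨hn, ev, hev⟩ := hψ j
      rw [mem_closedBall_zero_iff]
      exact ((h2 D (k j) (dft D) hF (ψ j) ev hn hev).2 n hj).2.1 u v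
    obtain ⟨z, _, hz⟩ := (isCompact_closedBall (0 : ℂ) 1).ultrafilter_le_nhds
      (U.map fun j => rd n (ψ j) u v) (le_principal_iff.2 e1)
    exact ⟨z, hz⟩
  choose ρ hρ using hex
  have hρM : ∀ n, Tendsto (fun j => rd n (ψ j)) U (𝓝 (ρ n)) := by
    intro n
    exact tendsto_pi_nhds.2 fun u => tendsto_pi_nhds.2 fun v => hρ n u v
  have hall : ∀ n : ℕ, ∀ᶠ j in (U : Filter ℕ),
      (rd n (ψ j)).PosSemidef ∧ (∀ u v, ‖rd n (ψ j) u v‖ ≤ 1) ∧
      (∀ u, rd n (ψ j) u u = (wm 0 u (ψ j) : ℝ)) ∧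
      (∀ u v : Fin n → Fin D, ∑ a, rd (n + 1) (ψ j) (Fin.snoc u a) (Fin.snoc v a) =
        rd n (ψ j) u v) ∧
      (∀ u v : Fin n → Fin D, ∑ a, rd (n + 1) (ψ j) (Fin.cons a u) (Fin.cons a v) =
        rd n (ψ j) u v) ∧
      (tp (dft D) n)ᴴ * rd n (ψ j) * tp (dft D) n = rd n (ψ j) := by
    intro n
    refine Filter.Eventually.filter_mono hUle ?_
    filter_upwards [hk.eventually_ge_atTop n] with j hj
    obtain ⟨hn, ev, hev⟩ := hψ j
    exact (h2 D (k j) (dft D) hF (ψ j) ev hn hev).2 n hj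
  refine ⟨fun n => Matrix.of (ρ n), ⟨?_, ?_, ?_, ?_, ?_⟩, ?_⟩
  · intro n
    exact NC_psd U _ _ (hρM n) ((hall n).mono fun j hj => hj.1)
  · intro u v
    have e1 : Tendsto (fun j => rd 0 (ψ j) u v) U (𝓝 1) := by
      refine tendsto_const_nhds.congr' (Eventually.of_forall fun j => ?_)
      obtain ⟨hn, ev, hev⟩ := hψ j
      exact ((h2 D (k j) (dft D) hF (ψ j) ev hn hev).1 u v).symm
    exact tendsto_nhds_unique (hρ 0 u v) e1
  · intro n u v
    have e1 : Tendsto (fun j => ∑ a, rd (n + 1) (ψ j) (Fin.snoc u a) (Fin.snoc v a)) U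
        (𝓝 (∑ a, ρ (n + 1) (Fin.snoc u a) (Fin.snoc v a))) :=
      tendsto_finsetSum _ fun a _ => hρ (n + 1) _ _
    have e2 := e1.congr' ((hall n).mono fun j hj => hj.2.2.2.1 u v)
    exact tendsto_nhds_unique e2 (hρ n u v)
  · intro n u v
    have e1 : Tendsto (fun j => ∑ a, rd (n + 1) (ψ j) (Fin.cons a u) (Fin.cons a v)) U
        (𝓝 (∑ a, ρ (n + 1) (Fin.cons a u) (Fin.cons a v))) :=
      tendsto_finsetSum _ fun a _ => hρ (n + 1) _ _
    have e2 := e1.congr' ((hall n).mono fun j hj => hj.2.2.2.2.1 u v)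
    exact tendsto_nhds_unique e2 (hρ n u v)
  · intro n
    have hc : Continuous fun A : Matrix (Fin n → Fin D) (Fin n → Fin D) ℂ =>
        (tp (dft D) n)ᴴ * A * tp (dft D) n := by fun_prop
    have e1 := (hc.tendsto (ρ n)).comp (hρM n)
    have e2 := e1.congr' ((hall n).mono fun j hj => hj.2.2.2.2.2)
    exact tendsto_nhds_unique e2 (hρM n)
  · intro m n w
    have e1 : Tendsto (fun j => (rd n (ψ j) w w).re) U (𝓝 (ρ n w w).re) :=
      (Complex.continuous_re.tendsto _).comp (hρ n w w)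
    have e2 : Tendsto (fun j => wm 0 w (ψ j)) U (𝓝 (ρ n w w).re) := by
      refine e1.congr' ((hall n).mono fun j hj => ?_)
      simp only
      rw [hj.2.2.1 w, Complex.ofReal_re]
    exact tendsto_nhds_unique ((hw m n w).mono_left hUle) e2

end Pool.Agent.N282.WB
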