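import Pool.Agent.N282.WB.Stm

/-!
# Project WB, module RD: the reduced density matrices of an eigenvector (helper738)
-/

set_option autoImplicit false

open scoped ComplexConjugate Matrix ComplexOrder
open Filter Topology MeasureTheory

noncomputable section

namespace Pool.Agent.N282.WB

section rd

variable {D : ℕ}

theorem RD_append (n m : ℕ) (ψ : St D (Fin (n + m))) (u v : Fin n → Fin D) :
    rd n ψ u v = ∑ x : Fin m → Fin D, ψ (Fin.append u x) * conj (ψ (Fin.append v x)) := by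
  unfold rd
  rw [← (Fin.appendEquiv n m).sum_comp, Fintype.sum_prod_type]
  rw [Finset.sum_eq_single u]
  · refine Finset.sum_congr rfl fun x _ => ?_
    have h1 : ∀ (i : Fin n) (h : (i : ℕ) < n + m), (Fin.appendEquiv n m (u, x)) ⟨i, h⟩ = u i := by
      intro i h
      exact Fin.append_left u x i
    rw [if_pos h1]
    have h2 : (fun i : Fin (n + m) => if h : (i : ℕ) < n then v ⟨i, h⟩
        else (Fin.appendEquiv n m (u, x)) i) = Fin.append v x := by
      funext i
      refine Fin.addCases (fun j => ?_) (fun j => ?_) i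
      · rw [Fin.append_left, dif_pos (by simp)]
        rfl
      · rw [Fin.append_right, dif_neg (by simp)]
        exact Fin.append_right u x j
    rw [h2]
    rfl
  · intro u' _ hu'
    refine Finset.sum_eq_zero fun x _ => ?_
    rw [if_neg]
    intro h
    apply hu'
    funext i
    rw [← h i (by omega)]
    exact (Fin.append_left u' x i).symm
  · intro h
    exact absurd (Finset.mem_univ _) h

theorem RD_snoc (n m : ℕ) (ψ : St D (Fin (n + m + 1))) (u v : Fin n → Fin D) :
    rd n ψ u v = ∑ x : Fin m → Fin D, ∑ b : Fin D,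
      ψ (Fin.snoc (α := fun _ => Fin D) (Fin.append u x) b) *
        conj (ψ (Fin.snoc (α := fun _ => Fin D) (Fin.append v x) b)) := by
  rw [RD_append n (m + 1) ψ u v, ← (Fin.snocEquiv (fun _ : Fin (m + 1) => Fin D)).sum_comp,
    Fintype.sum_prod_type_right]
  refine Finset.sum_congr rfl fun x _ => Finset.sum_congr rfl fun b _ => ?_
  have h1 : ∀ w : Fin n → Fin D, Fin.append w (Fin.snocEquiv (fun _ : Fin (m + 1) => Fin D) (b, x)) =
      Fin.snoc (α := fun _ => Fin D) (Fin.append w x) b := by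
    intro w
    exact Fin.append_snoc w x b
  rw [h1, h1]

theorem RD_cons (n m : ℕ) (ψ : St D (Fin (n + m + 1))) (u v : Fin n → Fin D) (a a' : Fin D) :
    rd (n + 1) ψ (Fin.cons a u) (Fin.cons a' v) = ∑ x : Fin m → Fin D,
      ψ (Fin.cons (α := fun _ => Fin D) a (Fin.append u x)) *
        conj (ψ (Fin.cons (α := fun _ => Fin D) a' (Fin.append v x))) := by
  unfold rd
  rw [← (Fin.consEquiv (fun _ : Fin (n + m + 1) => Fin D)).sum_comp, Fintype.sum_prod_type]
  rw [Finset.sum_eq_single a]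
  · rw [← (Fin.appendEquiv n m).sum_comp, Fintype.sum_prod_type]
    rw [Finset.sum_eq_single u]
    · refine Finset.sum_congr rfl fun x _ => ?_
      have h1 : ∀ (i : Fin (n + 1)) (h : (i : ℕ) < n + m + 1),
          (Fin.consEquiv (fun _ : Fin (n + m + 1) => Fin D)) (a, Fin.appendEquiv n m (u, x)) ⟨i, h⟩ =
            (Fin.cons a u : Fin (n + 1) → Fin D) i := by
        intro i
        refine Fin.cases ?_ (fun j => ?_) i
        · intro h
          rfl
        · intro h
          exact Fin.append_left u x j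
      rw [if_pos h1]
      have h2 : (fun i : Fin (n + m + 1) => if h : (i : ℕ) < n + 1 then
          (Fin.cons a' v : Fin (n + 1) → Fin D) ⟨i, h⟩
          else (Fin.consEquiv (fun _ : Fin (n + m + 1) => Fin D))
            (a, Fin.appendEquiv n m (u, x)) i) =
          Fin.cons (α := fun _ => Fin D) a' (Fin.append v x) := by
        funext i
        refine Fin.cases ?_ (fun j => ?_) i
        · rw [dif_pos (by simp)]
          rfl
        · rw [Fin.cons_succ]
          refine Fin.addCases (fun j => ?_) (fun j => ?_) j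
          · rw [Fin.append_left, dif_pos (by simp)]
            rfl
          · rw [Fin.append_right, dif_neg (by simp)]
            exact Fin.append_right u x j
      rw [h2]
      rfl
    · intro u' _ hu'
      refine Finset.sum_eq_zero fun x _ => ?_
      rw [if_neg]
      intro h
      apply hu'
      funext i
      have h3 := h i.succ (by simp; omega)
      rw [Fin.cons_succ] at h3
      rw [← h3]
      exact (Fin.append_left u' x i).symm
    · intro h
      exact absurd (Finset.mem_univ _) h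
  · intro b _ hb
    refine Finset.sum_eq_zero fun x _ => ?_
    rw [if_neg]
    intro h
    apply hb
    have h3 := h 0 (by simp)
    rw [Fin.cons_zero] at h3
    rw [← h3]
    rfl
  · intro h
    exact absurd (Finset.mem_univ _) h

theorem RD_smul (n k : ℕ) (ψ : St D (Fin k)) (c : ℂ) (hc : ‖c‖ = 1) (u v : Fin n → Fin D) :
    rd n (c • ψ) u v = rd n ψ u v := by
  unfold rd
  refine Finset.sum_congr rfl fun y _ => ?_
  split_ifs
  · rw [Pi.smul_apply, Pi.smul_apply, smul_eq_mul, smul_eq_mul, map_mul]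
    have h1 : c * conj c = 1 := by
      rw [Complex.mul_conj, Complex.normSq_eq_norm_sq, hc]
      norm_num
    linear_combination (ψ y * conj (ψ fun i => if h : (i : ℕ) < n then v ⟨i, h⟩ else y i)) * h1
  · rfl

theorem RD_nsq_ip (k : ℕ) (ψ : St D (Fin k)) : ip ψ ψ = (nsq ψ : ℝ) := by
  unfold ip nsq
  push_cast
  refine Finset.sum_congr rfl fun w _ => ?_
  rw [mul_comm, Complex.mul_conj, Complex.normSq_eq_norm_sq]
  push_cast
  rfl

theorem RD_ev (h1 : S_BK) (k : ℕ) (F : Matrix (Fin D) (Fin D) ℂ) (hF : Fᴴ * F = 1)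
    (ψ : St D (Fin (k + 1))) (ev : ℂ) (hψ : nsq ψ = 1) (hb : bk F k ψ = ev • ψ) : ‖ev‖ = 1 := by
  have h2 := (h1 D k F hF).1 ψ ψ
  rw [hb] at h2
  have h3 : ip (ev • ψ) (ev • ψ) = (conj ev * ev) * ip ψ ψ := by
    unfold ip
    rw [Finset.mul_sum]
    refine Finset.sum_congr rfl fun w _ => ?_
    rw [Pi.smul_apply, smul_eq_mul, map_mul]
    ring
  rw [h3, RD_nsq_ip, hψ, mul_comm (conj ev), Complex.mul_conj, Complex.normSq_eq_norm_sq] at h2
  have h4 : ‖ev‖ ^ 2 = 1 := by
    have : (((‖ev‖ ^ 2 : ℝ) : ℂ) * ((1 : ℝ) : ℂ)) = ((1 : ℝ) : ℂ) := h2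
    have h6 : ‖ev‖ ^ 2 * 1 = 1 := by exact_mod_cast this
    linarith
  have h5 : 0 ≤ ‖ev‖ := norm_nonneg _
  nlinarith

theorem RD_psd (n K : ℕ) (h : n ≤ K) (ψ : St D (Fin K)) : (rd n ψ).PosSemidef := by
  obtain ⟨m, rfl⟩ := Nat.exists_eq_add_of_le h
  have h1 : rd n ψ = (Matrix.of fun (u : Fin n → Fin D) (x : Fin m → Fin D) =>
      ψ (Fin.append u x)) * (Matrix.of fun (u : Fin n → Fin D) (x : Fin m → Fin D) =>
      ψ (Fin.append u x))ᴴ := by
    ext u v
    rw [RD_append]
    rfl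
  rw [h1]
  exact Matrix.posSemidef_self_mul_conjTranspose _

theorem RD_part (n m : ℕ) (ψ : St D (Fin (n + m))) (hψ : nsq ψ = 1) (u : Fin n → Fin D) :
    ∑ x : Fin m → Fin D, ‖ψ (Fin.append u x)‖ ^ 2 ≤ 1 := by
  rw [← hψ]
  unfold nsq
  rw [← (Fin.appendEquiv n m).sum_comp, Fintype.sum_prod_type]
  exact Finset.single_le_sum (f := fun u : Fin n → Fin D => ∑ x : Fin m → Fin D,
    ‖ψ (Fin.appendEquiv n m (u, x))‖ ^ 2) (fun u _ => by positivity) (Finset.mem_univ u)

theorem RD_le (n K : ℕ) (h : n ≤ K) (ψ : St D (Fin K)) (hψ : nsq ψ = 1) (u v : Fin n → Fin D) :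
    ‖rd n ψ u v‖ ≤ 1 := by
  obtain ⟨m, rfl⟩ := Nat.exists_eq_add_of_le h
  rw [RD_append]
  have h1 := RD_part n m ψ hψ u
  have h2 := RD_part n m ψ hψ v
  calc ‖∑ x : Fin m → Fin D, ψ (Fin.append u x) * conj (ψ (Fin.append v x))‖ ≤
      ∑ x : Fin m → Fin D, ‖ψ (Fin.append u x) * conj (ψ (Fin.append v x))‖ := norm_sum_le _ _
    _ ≤ ∑ x : Fin m → Fin D, (‖ψ (Fin.append u x)‖ ^ 2 + ‖ψ (Fin.append v x)‖ ^ 2) / 2 := by
        refine Finset.sum_le_sum fun x _ => ?_
        rw [norm_mul, RCLike.norm_conj]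
        nlinarith [sq_nonneg (‖ψ (Fin.append u x)‖ - ‖ψ (Fin.append v x)‖)]
    _ ≤ 1 := by
        rw [← Finset.sum_div, Finset.sum_add_distrib]
        linarith

theorem RD_diag (n K : ℕ) (ψ : St D (Fin K)) (u : Fin n → Fin D) :
    rd n ψ u u = (wm 0 u ψ : ℝ) := by
  unfold rd wm
  rw [Complex.ofReal_sum]
  refine Finset.sum_congr rfl fun y _ => ?_
  have h1 : (∀ (i : Fin n) (h : (i : ℕ) < K), y ⟨i, h⟩ = u i) ↔
      (∀ (i : Fin n) (h : 0 + (i : ℕ) < K), y ⟨0 + i, h⟩ = u i) := by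
    constructor
    · intro h i hi
      rw [← h i (by omega)]
      congr 1
      ext
      simp
    · intro h i hi
      rw [← h i (by omega)]
      congr 1
      ext
      simp
  by_cases hc : ∀ (i : Fin n) (h : (i : ℕ) < K), y ⟨i, h⟩ = u i
  · rw [if_pos hc, if_pos (h1.1 hc)]
    have h2 : (fun i : Fin K => if h : (i : ℕ) < n then u ⟨i, h⟩ else y i) = y := by
      funext i
      split_ifs with h
      · exact (hc ⟨i, h⟩ i.2).symm
      · rfl
    rw [h2, Complex.mul_conj, Complex.normSq_eq_norm_sq]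
  · rw [if_neg hc, if_neg (fun h => hc (h1.2 h))]
    simp

theorem RD_right (n K : ℕ) (hn : n < K) (ψ : St D (Fin K)) (u v : Fin n → Fin D) :
    ∑ a, rd (n + 1) ψ (Fin.snoc u a) (Fin.snoc v a) = rd n ψ u v := by
  unfold rd
  rw [Finset.sum_comm]
  refine Finset.sum_congr rfl fun y _ => ?_
  rw [Finset.sum_eq_single (y ⟨n, hn⟩)]
  · have h1 : (∀ (i : Fin (n + 1)) (h : (i : ℕ) < K), y ⟨i, h⟩ =
        (Fin.snoc u (y ⟨n, hn⟩) : Fin (n + 1) → Fin D) i) ↔
        ∀ (i : Fin n) (h : (i : ℕ) < K), y ⟨i, h⟩ = u i := by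
      constructor
      · intro h i hi
        have h2 := h i.castSucc hi
        rw [Fin.snoc_castSucc] at h2
        exact h2
      · intro h i
        refine Fin.lastCases ?_ (fun j => ?_) i
        · intro hi
          rw [Fin.snoc_last]
          rfl
        · intro hi
          rw [Fin.snoc_castSucc]
          exact h j hi
    have h2 : (fun i : Fin K => if h : (i : ℕ) < n + 1 then
        (Fin.snoc v (y ⟨n, hn⟩) : Fin (n + 1) → Fin D) ⟨i, h⟩ else y i) =
        (fun i : Fin K => if h : (i : ℕ) < n then v ⟨i, h⟩ else y i) := by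
      funext i
      by_cases h3 : (i : ℕ) < n
      · rw [dif_pos h3, dif_pos (by omega)]
        exact Fin.snoc_castSucc (α := fun _ => Fin D) (y ⟨n, hn⟩) v ⟨i, h3⟩
      · rw [dif_neg h3]
        split_ifs with h4
        · have h5 : (i : ℕ) = n := by omega
          have h6 : (⟨(i : ℕ), h4⟩ : Fin (n + 1)) = Fin.last n := by
            ext
            simpa using h5
          rw [h6, Fin.snoc_last]
          congr 1
          ext
          exact h5.symm
        · rfl
    rw [h2]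
    exact if_congr h1 rfl rfl
  · intro a _ ha
    rw [if_neg]
    intro h
    apply ha
    have h2 := h (Fin.last n) (by simpa using hn)
    rw [Fin.snoc_last] at h2
    rw [← h2]
    rfl
  · intro h
    exact absurd (Finset.mem_univ _) h

theorem RD_left (k n m : ℕ) (hk : k = n + m) (F : Matrix (Fin D) (Fin D) ℂ) (hF : Fᴴ * F = 1)
    (ψ : St D (Fin (k + 1))) (ev : ℂ) (hev : ‖ev‖ = 1) (hb : bk F k ψ = ev • ψ)
    (u v : Fin n → Fin D) :
    ∑ a, rd (n + 1) ψ (Fin.cons a u) (Fin.cons a v) = rd n ψ u v := by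
  subst hk
  rw [← RD_smul n _ ψ ev hev u v, ← hb, RD_snoc]
  simp_rw [RD_cons]
  rw [Finset.sum_comm]
  refine Finset.sum_congr rfl fun x _ => ?_
  have hF' : F * Fᴴ = 1 := mul_eq_one_comm.1 hF
  have h1 : ∀ a a' : Fin D, ∑ b, conj (F a b) * F a' b = if a' = a then 1 else 0 := by
    intro a a'
    have h2 : (F * Fᴴ) a' a = (1 : Matrix (Fin D) (Fin D) ℂ) a' a := by rw [hF']
    rw [Matrix.mul_apply, Matrix.one_apply] at h2
    rw [← h2]
    refine Finset.sum_congr rfl fun b _ => ?_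
    rw [Matrix.conjTranspose_apply, mul_comm]
    rfl
  have h2 : ∀ (w : Fin n → Fin D) (b : Fin D),
      (bk F (n + m)) ψ (Fin.snoc (α := fun _ => Fin D) (Fin.append w x) b) =
      ∑ a, conj (F a b) * ψ (Fin.cons (α := fun _ => Fin D) a (Fin.append w x)) := by
    intro w b
    show ∑ a, conj (F a ((Fin.snoc (α := fun _ => Fin D) (Fin.append w x) b) (Fin.last (n + m)))) *
      ψ (Fin.cons a fun i : Fin (n + m) =>
        (Fin.snoc (α := fun _ => Fin D) (Fin.append w x) b) i.castSucc) = _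
    refine Finset.sum_congr rfl fun a _ => ?_
    rw [Fin.snoc_last]
    simp only [Fin.snoc_castSucc]
  simp_rw [h2, map_sum, Finset.sum_mul_sum]
  rw [Finset.sum_comm]
  refine Finset.sum_congr rfl fun a _ => ?_
  rw [Finset.sum_comm]
  rw [Finset.sum_eq_single a]
  · have h3 : ∀ b : Fin D, conj (F a b) * ψ (Fin.cons (α := fun _ => Fin D) a (Fin.append u x)) *
        conj (conj (F a b) * ψ (Fin.cons (α := fun _ => Fin D) a (Fin.append v x))) =
        (conj (F a b) * F a b) * (ψ (Fin.cons (α := fun _ => Fin D) a (Fin.append u x)) *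
          conj (ψ (Fin.cons (α := fun _ => Fin D) a (Fin.append v x)))) := by
      intro b
      rw [map_mul, Complex.conj_conj]
      ring
    simp_rw [h3]
    rw [← Finset.sum_mul, h1, if_pos rfl, one_mul]
  · intro a' _ ha'
    have h3 : ∀ b : Fin D, conj (F a b) * ψ (Fin.cons (α := fun _ => Fin D) a (Fin.append u x)) *
        conj (conj (F a' b) * ψ (Fin.cons (α := fun _ => Fin D) a' (Fin.append v x))) =
        (conj (F a b) * F a' b) * (ψ (Fin.cons (α := fun _ => Fin D) a (Fin.append u x)) *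
          conj (ψ (Fin.cons (α := fun _ => Fin D) a' (Fin.append v x)))) := by
      intro b
      rw [map_mul, Complex.conj_conj]
      ring
    simp_rw [h3]
    rw [← Finset.sum_mul, h1, if_neg ha', zero_mul]
  · intro h
    exact absurd (Finset.mem_univ _) h

theorem RD_tp_mul (F G : Matrix (Fin D) (Fin D) ℂ) (n : ℕ) : tp (F * G) n = tp F n * tp G n := by
  ext u v
  rw [Matrix.mul_apply]
  unfold tp
  simp_rw [Matrix.mul_apply, ← Finset.prod_mul_distrib]
  rw [Finset.prod_univ_sum, Fintype.piFinset_univ]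

theorem RD_tp_one (n : ℕ) : tp (1 : Matrix (Fin D) (Fin D) ℂ) n = 1 := by
  ext u v
  unfold tp
  rw [Matrix.one_apply]
  split_ifs with h
  · rw [h]
    exact Finset.prod_eq_one fun i _ => Matrix.one_apply_eq _
  · obtain ⟨i, hi⟩ := Function.ne_iff.1 h
    exact Finset.prod_eq_zero (Finset.mem_univ i) (Matrix.one_apply_ne hi)

theorem RD_tp_star (F : Matrix (Fin D) (Fin D) ℂ) (n : ℕ) : tp Fᴴ n = (tp F n)ᴴ := by
  ext u v
  rw [Matrix.conjTranspose_apply]
  unfold tp
  rw [star_prod]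
  rfl

theorem RD_inv (n K : ℕ) (h : n ≤ K) (F : Matrix (Fin D) (Fin D) ℂ) (hF : Fᴴ * F = 1)
    (ψ : St D (Fin K)) (c : ℂ) (hc : ‖c‖ = 1) (hb : opA Fᴴ ψ = c • ψ) :
    (tp F n)ᴴ * rd n ψ * tp F n = rd n ψ := by
  obtain ⟨m, rfl⟩ := Nat.exists_eq_add_of_le h
  have hF' : F * Fᴴ = 1 := mul_eq_one_comm.1 hF
  obtain ⟨M, hM⟩ : ∃ M : St D (Fin (n + m)) → Matrix (Fin n → Fin D) (Fin m → Fin D) ℂ,
    ∀ ψ u x, M ψ u x = ψ (Fin.append u x) :=
    ⟨fun ψ => Matrix.of fun (u : Fin n → Fin D) (x : Fin m → Fin D) => ψ (Fin.append u x),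
      fun _ _ _ => rfl⟩
  have h1 : ∀ ψ : St D (Fin (n + m)), rd n ψ = M ψ * (M ψ)ᴴ := by
    intro ψ
    ext u v
    rw [RD_append, Matrix.mul_apply]
    refine Finset.sum_congr rfl fun x _ => ?_
    rw [Matrix.conjTranspose_apply, hM, hM]
    rfl
  have h2 : M (opA Fᴴ ψ) = tp Fᴴ n * M ψ * (tp Fᴴ m)ᵀ := by
    ext u x
    rw [hM, Matrix.mul_apply]
    show ∑ w : Fin (n + m) → Fin D, (∏ i, Fᴴ (Fin.append u x i) (w i)) * ψ w = _
    rw [← (Fin.appendEquiv n m).sum_comp, Fintype.sum_prod_type, Finset.sum_comm]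
    refine Finset.sum_congr rfl fun x' _ => ?_
    rw [Matrix.mul_apply, Finset.sum_mul]
    refine Finset.sum_congr rfl fun u' _ => ?_
    rw [hM, Matrix.transpose_apply, Fin.prod_univ_add]
    have h3 : ∀ i : Fin n, Fᴴ (Fin.append u x (Fin.castAdd m i))
        ((Fin.appendEquiv n m) (u', x') (Fin.castAdd m i)) = Fᴴ (u i) (u' i) := by
      intro i
      rw [Fin.append_left]
      congr 1
      exact Fin.append_left u' x' i
    have h4 : ∀ i : Fin m, Fᴴ (Fin.append u x (Fin.natAdd n i))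
        ((Fin.appendEquiv n m) (u', x') (Fin.natAdd n i)) = Fᴴ (x i) (x' i) := by
      intro i
      rw [Fin.append_right]
      congr 1
      exact Fin.append_right u' x' i
    simp_rw [h3, h4]
    show _ * ψ (Fin.append u' x') = tp Fᴴ n u u' * ψ (Fin.append u' x') * tp Fᴴ m x x'
    unfold tp
    ring
  have h3 : (tp Fᴴ m)ᵀ * ((tp Fᴴ m)ᵀ)ᴴ = 1 := by
    have h6 : ((tp Fᴴ m)ᵀ)ᴴ = ((tp Fᴴ m)ᴴ)ᵀ := rfl
    rw [h6, ← Matrix.transpose_mul, RD_tp_star,
      Matrix.conjTranspose_conjTranspose, ← RD_tp_star, ← RD_tp_mul, hF', RD_tp_one,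
      Matrix.transpose_one]
  have h4 : rd n ψ = rd n (opA Fᴴ ψ) := by
    ext u v
    rw [hb, RD_smul n _ ψ c hc]
  rw [h1 (opA Fᴴ ψ), h2] at h4
  rw [Matrix.conjTranspose_mul, Matrix.conjTranspose_mul] at h4
  have h5 : tp Fᴴ n * M ψ * (tp Fᴴ m)ᵀ * (((tp Fᴴ m)ᵀ)ᴴ * ((M ψ)ᴴ * (tp Fᴴ n)ᴴ)) =
      tp Fᴴ n * M ψ * ((tp Fᴴ m)ᵀ * ((tp Fᴴ m)ᵀ)ᴴ) * ((M ψ)ᴴ * (tp Fᴴ n)ᴴ) := by
    simp only [Matrix.mul_assoc]
  rw [h5, h3, Matrix.mul_one, RD_tp_star, Matrix.conjTranspose_conjTranspose] at h4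
  conv_rhs => rw [h4]
  rw [h1]
  simp only [Matrix.mul_assoc]

end rd

theorem t_RD (h1 : S_BK) : S_RD := by
  intro D k F hF ψ ev hψ hb
  have hev := RD_ev h1 k F hF ψ ev hψ hb
  constructor
  · intro u v
    have h2 : u = v := Subsingleton.elim _ _
    rw [h2, RD_diag]
    have h3 : wm 0 v ψ = nsq ψ := by
      unfold wm nsq
      refine Finset.sum_congr rfl fun y _ => ?_
      rw [if_pos]
      intro i
      exact i.elim0
    rw [h3, hψ]
    norm_num
  · intro n hn
    obtain ⟨m, hm⟩ := Nat.exists_eq_add_of_le hn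
    refine ⟨RD_psd n _ (by omega) ψ, RD_le n _ (by omega) ψ hψ, RD_diag n _ ψ,
      RD_right n _ (by omega) ψ, RD_left k n m hm F hF ψ ev hev hb, ?_⟩
    refine RD_inv n _ (by omega) F hF ψ (ev ^ (k + 1)) (by rw [norm_pow, hev, one_pow]) ?_
    rw [← (h1 D k F hF).2.2.2]
    have h4 : ∀ j : ℕ, (bk F k ^ j) ψ = ev ^ j • ψ := by
      intro j
      induction j with
      | zero => simp
      | succ j ih =>
        rw [pow_succ', Module.End.mul_apply, ih, map_smul, hb, smul_smul, pow_succ]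
    exact h4 _

end Pool.Agent.N282.WB
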