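import Pool.Agent.N282.WB.Stm

/-!
# Project WB, module SP: the spectral decomposition of the density matrices
-/

set_option autoImplicit false

open scoped ComplexConjugate Matrix ComplexOrder
open Filter Topology MeasureTheory

noncomputable section

namespace Pool.Agent.N282.WB

variable {D : ℕ}

theorem SP_tp_mul (M N : Matrix (Fin D) (Fin D) ℂ) (n : ℕ) : tp (M * N) n = tp M n * tp N n := by
  ext u v
  rw [Matrix.mul_apply]
  simp only [tp, Matrix.mul_apply]
  rw [Finset.prod_univ_sum, Fintype.piFinset_univ]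
  exact Finset.sum_congr rfl fun z _ => Finset.prod_mul_distrib

theorem SP_tp_one (n : ℕ) : tp (1 : Matrix (Fin D) (Fin D) ℂ) n = 1 := by
  ext u v
  simp only [tp, Matrix.one_apply]
  by_cases h : u = v
  · subst h; simp
  · rw [if_neg h]
    obtain ⟨i, hi⟩ := Function.ne_iff.1 h
    exact Finset.prod_eq_zero (Finset.mem_univ i) (if_neg hi)

theorem SP_tp_star (M : Matrix (Fin D) (Fin D) ℂ) (n : ℕ) : (tp M n)ᴴ = tp Mᴴ n := by
  ext u v
  simp [tp, Matrix.conjTranspose_apply]

theorem SP_inv {F : Matrix (Fin D) (Fin D) ℂ}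
    {ρ : (n : ℕ) → Matrix (Fin n → Fin D) (Fin n → Fin D) ℂ} (h : IsInv F ρ) (n j : ℕ) :
    tp (Fᴴ ^ j) n * ρ n * (tp (Fᴴ ^ j) n)ᴴ = ρ n := by
  induction j with
  | zero => rw [pow_zero, SP_tp_one]; simp
  | succ j ih =>
    rw [pow_succ', SP_tp_mul, Matrix.conjTranspose_mul]
    have : tp Fᴴ n * tp (Fᴴ ^ j) n * ρ n * ((tp (Fᴴ ^ j) n)ᴴ * (tp Fᴴ n)ᴴ) =
        tp Fᴴ n * (tp (Fᴴ ^ j) n * ρ n * (tp (Fᴴ ^ j) n)ᴴ) * (tp Fᴴ n)ᴴ := by
      simp only [Matrix.mul_assoc]
    rw [this, ih, ← SP_tp_star, Matrix.conjTranspose_conjTranspose, h.inv]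

/-- the mass of the window -/
def SP_ms (ρ : (n : ℕ) → Matrix (Fin n → Fin D) (Fin n → Fin D) ℂ) (n s : ℕ) {N : ℕ}
    (w : Fin N → Fin D) : ℂ :=
  ∑ y : Fin n → Fin D,
    if ∀ (i : Fin N) (h : s + (i : ℕ) < n), y ⟨s + i, h⟩ = w i then ρ n y y else 0

theorem SP_window {F : Matrix (Fin D) (Fin D) ℂ}
    {ρ : (n : ℕ) → Matrix (Fin n → Fin D) (Fin n → Fin D) ℂ} (hρ : IsInv F ρ) {N : ℕ}
    (w : Fin N → Fin D) : ∀ n s : ℕ, s + N ≤ n → SP_ms ρ n s w = ρ N w w := by
  intro n
  induction n with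
  | zero =>
    intro s hs
    obtain rfl : N = 0 := by omega
    rw [hρ.one, SP_ms]
    simp [hρ.one]
  | succ n ih =>
    intro s hs
    by_cases h1 : s + N ≤ n
    · rw [SP_ms, ← (Fin.snocEquiv fun _ => Fin D).sum_comp, Fintype.sum_prod_type_right,
        ← ih s h1, SP_ms]
      refine Finset.sum_congr rfl fun y _ => ?_
      have hc : ∀ a : Fin D, (∀ (i : Fin N) (h : s + (i : ℕ) < n + 1),
          (Fin.snocEquiv (fun _ => Fin D)) (a, y) ⟨s + i, h⟩ = w i) ↔
          ∀ (i : Fin N) (h : s + (i : ℕ) < n), y ⟨s + i, h⟩ = w i := by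
        intro a
        have hv : ∀ (i : Fin N) (h : s + (i : ℕ) < n),
            (Fin.snocEquiv (fun _ => Fin D)) (a, y) ⟨s + i, by omega⟩ = y ⟨s + i, h⟩ := by
          intro i h
          exact Fin.snoc_castSucc (α := fun _ => Fin D) a y ⟨s + i, h⟩
        constructor
        · intro H i h
          rw [← hv i h]
          exact H i _
        · intro H i h
          have h' : s + (i : ℕ) < n := by have := i.2; omega
          rw [← H i h']
          exact hv i h'
      simp only [hc]
      by_cases hh : ∀ (i : Fin N) (h : s + (i : ℕ) < n), y ⟨s + i, h⟩ = w i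
      · simp only [if_pos hh]
        exact hρ.right n y y
      · simp only [if_neg hh, Finset.sum_const_zero]
    · rcases s with _ | s
      · obtain rfl : N = n + 1 := by omega
        rw [SP_ms, Finset.sum_eq_single w]
        · rw [if_pos]
          intro i h
          congr 1
          exact Fin.ext (Nat.zero_add _)
        · intro y _ hy
          rw [if_neg]
          intro H
          apply hy
          funext i
          rw [← H i (by have := i.2; omega)]
          congr 1
          exact Fin.ext (Nat.zero_add _).symm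
        · intro h; exact absurd (Finset.mem_univ _) h
      · rw [SP_ms, ← (Fin.consEquiv fun _ => Fin D).sum_comp, Fintype.sum_prod_type_right,
          ← ih s (by omega), SP_ms]
        refine Finset.sum_congr rfl fun y _ => ?_
        have hc : ∀ a : Fin D, (∀ (i : Fin N) (h : s + 1 + (i : ℕ) < n + 1),
            (Fin.consEquiv (fun _ => Fin D)) (a, y) ⟨s + 1 + i, h⟩ = w i) ↔
            ∀ (i : Fin N) (h : s + (i : ℕ) < n), y ⟨s + i, h⟩ = w i := by
          intro a
          have hv : ∀ (i : Fin N) (h : s + (i : ℕ) < n),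
              (Fin.consEquiv (fun _ => Fin D)) (a, y) ⟨s + 1 + i, by omega⟩ = y ⟨s + i, h⟩ := by
            intro i h
            have e : (⟨s + 1 + i, by omega⟩ : Fin (n + 1)) = Fin.succ ⟨s + i, h⟩ :=
              Fin.ext (by simp; omega)
            rw [e]
            exact Fin.cons_succ (α := fun _ => Fin D) a y ⟨s + i, h⟩
          constructor
          · intro H i h
            rw [← hv i h]
            exact H i _
          · intro H i h
            have h' : s + (i : ℕ) < n := by omega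
            rw [← H i h']
            exact hv i h'
        simp only [hc]
        by_cases hh : ∀ (i : Fin N) (h : s + (i : ℕ) < n), y ⟨s + i, h⟩ = w i
        · simp only [if_pos hh]
          exact hρ.left n y y
        · simp only [if_neg hh, Finset.sum_const_zero]

theorem SP_trace {F : Matrix (Fin D) (Fin D) ℂ}
    {ρ : (n : ℕ) → Matrix (Fin n → Fin D) (Fin n → Fin D) ℂ} (hρ : IsInv F ρ) (n : ℕ) :
    ∑ y : Fin n → Fin D, ρ n y y = 1 := by
  have h := SP_window hρ (N := 0) (fun i => i.elim0) n 0 (by omega)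
  rw [hρ.one, SP_ms] at h
  rw [← h]
  refine Finset.sum_congr rfl fun y _ => ?_
  rw [if_pos]
  intro i
  exact i.elim0

theorem SP_diag {F : Matrix (Fin D) (Fin D) ℂ}
    {ρ : (n : ℕ) → Matrix (Fin n → Fin D) (Fin n → Fin D) ℂ} (hρ : IsInv F ρ) (n : ℕ)
    (y : Fin n → Fin D) : 0 ≤ (ρ n y y).re := by
  have h := (hρ.psd n).diag_nonneg (i := y)
  exact (Complex.nonneg_iff.1 h).1

theorem SP_trace_re {F : Matrix (Fin D) (Fin D) ℂ}
    {ρ : (n : ℕ) → Matrix (Fin n → Fin D) (Fin n → Fin D) ℂ} (hρ : IsInv F ρ) (n : ℕ) :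
    ∑ y : Fin n → Fin D, (ρ n y y).re = 1 := by
  rw [← Complex.re_sum, SP_trace hρ]
  simp

theorem SP_ms_re (ρ : (n : ℕ) → Matrix (Fin n → Fin D) (Fin n → Fin D) ℂ) (n s : ℕ) {N : ℕ}
    (w : Fin N → Fin D) : (SP_ms ρ n s w).re = ∑ y : Fin n → Fin D,
      if ∀ (i : Fin N) (h : s + (i : ℕ) < n), y ⟨s + i, h⟩ = w i then (ρ n y y).re else 0 := by
  rw [SP_ms, Complex.re_sum]
  refine Finset.sum_congr rfl fun y _ => ?_
  split_ifs <;> simp

theorem SP_ms_mem {F : Matrix (Fin D) (Fin D) ℂ}
    {ρ : (n : ℕ) → Matrix (Fin n → Fin D) (Fin n → Fin D) ℂ} (hρ : IsInv F ρ) (n s : ℕ) {N : ℕ}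
    (w : Fin N → Fin D) : 0 ≤ (SP_ms ρ n s w).re ∧ (SP_ms ρ n s w).re ≤ 1 := by
  rw [SP_ms_re]
  constructor
  · refine Finset.sum_nonneg fun y _ => ?_
    split_ifs
    · exact SP_diag hρ n y
    · exact le_refl _
  · rw [← SP_trace_re hρ n]
    refine Finset.sum_le_sum fun y _ => ?_
    split_ifs
    · exact le_refl _
    · exact SP_diag hρ n y

theorem SP_main {F : Matrix (Fin D) (Fin D) ℂ}
    {ρ : (n : ℕ) → Matrix (Fin n → Fin D) (Fin n → Fin D) ℂ} (hρ : IsInv F ρ) (n N : ℕ)
    (w : Fin N → Fin D) :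
    |∑ s ∈ Finset.range n, (SP_ms ρ n s w).re - n * (ρ N w w).re| ≤ N := by
  have e1 : ∑ s ∈ Finset.range n, (SP_ms ρ n s w).re - n * (ρ N w w).re =
      ∑ s ∈ Finset.range n, ((SP_ms ρ n s w).re - (ρ N w w).re) := by
    rw [Finset.sum_sub_distrib]
    simp
  have h01 : 0 ≤ (ρ N w w).re ∧ (ρ N w w).re ≤ 1 := by
    have := SP_ms_mem hρ N 0 w
    rwa [SP_window hρ w N 0 (by omega)] at this
  have e2 : ∀ s ∈ Finset.range n, |(SP_ms ρ n s w).re - (ρ N w w).re| ≤
      if n < s + N then 1 else 0 := by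
    intro s _
    split_ifs with h
    · have h2 := SP_ms_mem hρ n s w
      rw [abs_le]
      constructor <;> linarith [h2.1, h2.2, h01.1, h01.2]
    · rw [SP_window hρ w n s (by omega)]
      simp
  rw [e1]
  refine (Finset.abs_sum_le_sum_abs _ _).trans ((Finset.sum_le_sum e2).trans ?_)
  rw [← Finset.sum_filter, Finset.sum_const, nsmul_eq_mul, mul_one]
  have hsub : (Finset.range n).filter (fun s => n < s + N) ⊆ Finset.Ico (n - N) n := by
    intro s hs
    rw [Finset.mem_filter, Finset.mem_range] at hs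
    rw [Finset.mem_Ico]
    omega
  have hc := Finset.card_le_card hsub
  rw [Nat.card_Ico] at hc
  have : ((Finset.range n).filter (fun s => n < s + N)).card ≤ N := by omega
  exact_mod_cast this

theorem t_SP : S_SP := by
  intro D F ρ _ hρ n
  have hA : (ρ n).IsHermitian := (hρ.psd n).isHermitian
  set V : Matrix (Fin n → Fin D) (Fin n → Fin D) ℂ :=
    (hA.eigenvectorUnitary : Matrix (Fin n → Fin D) (Fin n → Fin D) ℂ) with hV
  have hVV : Vᴴ * V = 1 := by
    have := Unitary.coe_star_mul_self hA.eigenvectorUnitary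
    exact this
  have hspec : ρ n = V * Matrix.diagonal (fun i => (hA.eigenvalues i : ℂ)) * Vᴴ := by
    have := hA.spectral_theorem
    rw [Unitary.conjStarAlgAut_apply] at this
    exact this
  refine ⟨hA.eigenvalues, fun i u => V u i, fun i => (hρ.psd n).eigenvalues_nonneg i, ?_, ?_, ?_⟩
  · have h1 := hA.trace_eq_sum_eigenvalues
    rw [Matrix.trace] at h1
    simp only [Matrix.diag_apply] at h1
    rw [SP_trace hρ n] at h1
    have h2 : ((∑ i, hA.eigenvalues i : ℝ) : ℂ) = 1 := by
      rw [Complex.ofReal_sum]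
      exact h1.symm
    exact_mod_cast h2
  · intro i
    have h1 := congrFun (congrFun hVV i) i
    rw [Matrix.mul_apply, Matrix.one_apply_eq] at h1
    have h2 : ((nsq (fun u => V u i) : ℝ) : ℂ) = 1 := by
      rw [← h1, nsq, Complex.ofReal_sum]
      refine Finset.sum_congr rfl fun u _ => ?_
      rw [Matrix.conjTranspose_apply, Complex.ofReal_pow, ← Complex.conj_mul']
      rfl
    exact_mod_cast h2
  · intro j N w
    have hk : ∀ y : Fin n → Fin D,
        ∑ i, hA.eigenvalues i * ‖(opA (Fᴴ ^ j) (fun u => V u i) : St D (Fin n)) y‖ ^ 2 =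
          (ρ n y y).re := by
      intro y
      have h1 : ρ n = (tp (Fᴴ ^ j) n * V) * Matrix.diagonal (fun i => (hA.eigenvalues i : ℂ)) *
          (tp (Fᴴ ^ j) n * V)ᴴ := by
        conv_lhs => rw [← SP_inv hρ n j, hspec]
        rw [Matrix.conjTranspose_mul]
        simp only [Matrix.mul_assoc]
      have h2 := congrFun (congrFun h1 y) y
      rw [Matrix.mul_apply] at h2
      have h3 : (((∑ i, hA.eigenvalues i *
          ‖(opA (Fᴴ ^ j) (fun u => V u i) : St D (Fin n)) y‖ ^ 2 : ℝ)) : ℂ) = ρ n y y := by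
        rw [h2, Complex.ofReal_sum]
        refine Finset.sum_congr rfl fun i _ => ?_
        rw [Matrix.mul_diagonal, Matrix.conjTranspose_apply]
        have h4 : (opA (Fᴴ ^ j) (fun u => V u i) : St D (Fin n)) y =
            (tp (Fᴴ ^ j) n * V) y i := by
          rw [Matrix.mul_apply]
          rfl
        rw [h4, Complex.ofReal_mul, Complex.ofReal_pow, ← Complex.mul_conj']
        rw [mul_comm ((tp (Fᴴ ^ j) n * V) y i) (hA.eigenvalues i : ℂ), mul_assoc]
        rfl
      rw [← h3, Complex.ofReal_re]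
    have hsum : ∑ i, hA.eigenvalues i * ∑ s ∈ Finset.range n,
        wm s w (opA (Fᴴ ^ j) (fun u => V u i) : St D (Fin n)) =
        ∑ s ∈ Finset.range n, (SP_ms ρ n s w).re := by
      have e1 : ∀ i, hA.eigenvalues i * ∑ s ∈ Finset.range n,
          wm s w (opA (Fᴴ ^ j) (fun u => V u i) : St D (Fin n)) =
          ∑ s ∈ Finset.range n, ∑ y : Fin n → Fin D,
            if ∀ (i : Fin N) (h : s + (i : ℕ) < n), y ⟨s + i, h⟩ = w i then
              hA.eigenvalues i * ‖(opA (Fᴴ ^ j) (fun u => V u i) : St D (Fin n)) y‖ ^ 2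
            else 0 := by
        intro i
        rw [Finset.mul_sum]
        refine Finset.sum_congr rfl fun s _ => ?_
        rw [wm, Finset.mul_sum]
        refine Finset.sum_congr rfl fun y _ => ?_
        rw [mul_ite, mul_zero]
      rw [Finset.sum_congr rfl fun i _ => e1 i, Finset.sum_comm]
      refine Finset.sum_congr rfl fun s _ => ?_
      rw [SP_ms_re, Finset.sum_comm]
      refine Finset.sum_congr rfl fun y _ => ?_
      by_cases hh : ∀ (i : Fin N) (h : s + (i : ℕ) < n), y ⟨s + i, h⟩ = w i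
      · simp only [if_pos hh]
        exact hk y
      · simp only [if_neg hh, Finset.sum_const_zero]
    rw [hsum]
    exact SP_main hρ n N w

end Pool.Agent.N282.WB
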