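import Pool.Agent.N282.WB.Stm

/-!
# Project WB: masses of windows (module WM)
-/

set_option autoImplicit false

open scoped ComplexConjugate Matrix ComplexOrder
open Filter Topology MeasureTheory

noncomputable section

namespace Pool.Agent.N282.WB

section WM

variable {D : ℕ}

theorem WM_sum_cons {k : ℕ} (f : (Fin (k + 1) → Fin D) → ℝ) :
    ∑ y, f y = ∑ z : Fin k → Fin D, ∑ a, f (Fin.cons a z) := by
  rw [Finset.sum_comm, ← Fintype.sum_prod_type' (fun (a : Fin D) (z : Fin k → Fin D) =>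
    f (Fin.cons a z)), ← (Fin.consEquiv (fun _ => Fin D)).sum_comp]
  rfl

theorem WM_sum_snoc {k : ℕ} (f : (Fin (k + 1) → Fin D) → ℝ) :
    ∑ y, f y = ∑ z : Fin k → Fin D, ∑ a, f (Fin.snoc z a) := by
  rw [Finset.sum_comm, ← Fintype.sum_prod_type' (fun (a : Fin D) (z : Fin k → Fin D) =>
    f (Fin.snoc z a)), ← (Fin.snocEquiv (fun _ => Fin D)).sum_comp]
  rfl

theorem WM_sum_append {R : Type} [AddCommMonoid R] {a b : ℕ} (f : (Fin (a + b) → Fin D) → R) :
    ∑ y, f y = ∑ z : Fin a → Fin D, ∑ z' : Fin b → Fin D, f (Fin.append z z') := by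
  rw [← Fintype.sum_prod_type' (fun (z : Fin a → Fin D) (z' : Fin b → Fin D) =>
    f (Fin.append z z')), ← (Fin.appendEquiv a b).sum_comp]
  rfl

theorem WM_unit {ι : Type} [Fintype ι] [DecidableEq ι] (Q : Matrix ι ι ℂ) (hQ : Qᴴ * Q = 1)
    (v : ι → ℂ) : ∑ c, ‖∑ a, Q c a * v a‖ ^ 2 = ∑ a, ‖v a‖ ^ 2 := by
  have h : star (Q *ᵥ v) ⬝ᵥ (Q *ᵥ v) = star v ⬝ᵥ v := by
    rw [Matrix.star_mulVec, Matrix.dotProduct_mulVec, Matrix.vecMul_vecMul, hQ,
      Matrix.vecMul_one]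
  have h2 : ∀ u : ι → ℂ, star u ⬝ᵥ u = ((∑ a, ‖u a‖ ^ 2 : ℝ) : ℂ) := by
    intro u
    rw [Complex.ofReal_sum]
    refine Finset.sum_congr rfl fun a _ => ?_
    rw [Complex.ofReal_pow, ← Complex.conj_mul']
    rfl
  rw [h2, h2] at h
  exact Complex.ofReal_injective h

theorem WM_shift (k n : ℕ) (F : Matrix (Fin D) (Fin D) ℂ) (hF : Fᴴ * F = 1) (w : Fin n → Fin D)
    (s : ℕ) (ψ : St D (Fin (k + 1))) (hs : s + 1 + n ≤ k + 1) :
    wm s w (bk F k ψ) = wm (s + 1) w ψ := by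
  unfold wm
  rw [WM_sum_snoc, WM_sum_cons]
  refine Finset.sum_congr rfl fun z _ => ?_
  have h1 : ∀ c : Fin D, (∀ (i : Fin n) (h : s + (i : ℕ) < k + 1),
      (Fin.snoc z c : Fin (k + 1) → Fin D) ⟨s + i, h⟩ = w i) ↔
      (∀ (i : Fin n), z ⟨s + i, by omega⟩ = w i) := by
    intro c
    have h3 : ∀ (i : Fin n) (h : s + (i : ℕ) < k + 1),
        (Fin.snoc z c : Fin (k + 1) → Fin D) ⟨s + i, h⟩ = z ⟨s + i, by omega⟩ := by
      intro i h
      have h4 : (⟨s + i, h⟩ : Fin (k + 1)) = Fin.castSucc ⟨s + i, by omega⟩ := rfl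
      rw [h4, Fin.snoc_castSucc]
    constructor
    · intro h i
      rw [← h i (by omega), h3]
    · intro h i hi
      rw [h3, h i]
  have h2 : ∀ a : Fin D, (∀ (i : Fin n) (h : s + 1 + (i : ℕ) < k + 1),
      (Fin.cons a z : Fin (k + 1) → Fin D) ⟨s + 1 + i, h⟩ = w i) ↔
      (∀ (i : Fin n), z ⟨s + i, by omega⟩ = w i) := by
    intro a
    have h3 : ∀ (i : Fin n) (h : s + 1 + (i : ℕ) < k + 1),
        (Fin.cons a z : Fin (k + 1) → Fin D) ⟨s + 1 + i, h⟩ = z ⟨s + i, by omega⟩ := by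
      intro i h
      have h4 : (⟨s + 1 + i, h⟩ : Fin (k + 1)) = Fin.succ ⟨s + i, by omega⟩ := by
        refine Fin.ext ?_
        show s + 1 + (i : ℕ) = s + i + 1
        omega
      rw [h4, Fin.cons_succ]
    constructor
    · intro h i
      rw [← h i (by omega), h3]
    · intro h i hi
      rw [h3, h i]
  by_cases hc : ∀ (i : Fin n), z ⟨s + i, by omega⟩ = w i
  · have e1 : ∀ c : Fin D, (if ∀ (i : Fin n) (h : s + (i : ℕ) < k + 1),
        (Fin.snoc z c : Fin (k + 1) → Fin D) ⟨s + i, h⟩ = w i then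
        ‖bk F k ψ (Fin.snoc z c)‖ ^ 2 else 0) = ‖∑ a, Fᴴ c a * ψ (Fin.cons a z)‖ ^ 2 := by
      intro c
      rw [if_pos ((h1 c).2 hc)]
      have e3 : bk F k ψ (Fin.snoc z c) = ∑ a, Fᴴ c a * ψ (Fin.cons a z) := by
        show ∑ a, conj (F a ((Fin.snoc z c : Fin (k + 1) → Fin D) (Fin.last k))) *
          ψ (Fin.cons a fun i : Fin k => (Fin.snoc z c : Fin (k + 1) → Fin D) i.castSucc) = _
        refine Finset.sum_congr rfl fun a _ => ?_
        rw [Fin.snoc_last]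
        have e4 : (fun i : Fin k => (Fin.snoc z c : Fin (k + 1) → Fin D) i.castSucc) = z := by
          funext i
          rw [Fin.snoc_castSucc]
        rw [e4]
        rfl
      rw [e3]
    have e2 : ∀ a : Fin D, (if ∀ (i : Fin n) (h : s + 1 + (i : ℕ) < k + 1),
        (Fin.cons a z : Fin (k + 1) → Fin D) ⟨s + 1 + i, h⟩ = w i then
        ‖ψ (Fin.cons a z)‖ ^ 2 else 0) = ‖ψ (Fin.cons a z)‖ ^ 2 := by
      intro a
      rw [if_pos ((h2 a).2 hc)]
    rw [Finset.sum_congr rfl fun c _ => e1 c, Finset.sum_congr rfl fun a _ => e2 a]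
    refine WM_unit Fᴴ ?_ fun a => ψ (Fin.cons a z)
    rw [Matrix.conjTranspose_conjTranspose]
    exact mul_eq_one_comm.1 hF
  · rw [Finset.sum_eq_zero, Finset.sum_eq_zero]
    · intro a _
      rw [if_neg fun h => hc ((h2 a).1 h)]
    · intro c _
      rw [if_neg fun h => hc ((h1 c).1 h)]

theorem WM_bound (k n : ℕ) (w : Fin n → Fin D) (s : ℕ) (ψ : St D (Fin k)) :
    0 ≤ wm s w ψ ∧ wm s w ψ ≤ nsq ψ := by
  unfold wm nsq
  constructor
  · refine Finset.sum_nonneg fun y _ => ?_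
    split_ifs
    · positivity
    · exact le_rfl
  · refine Finset.sum_le_sum fun y _ => ?_
    split_ifs
    · exact le_rfl
    · positivity

theorem WM_cut (k n : ℕ) (w : Fin n → Fin D) (ψ : St D (Fin k)) : wm 0 w ψ = nsq (cut w ψ) := by
  unfold wm nsq
  refine Finset.sum_congr rfl fun y _ => ?_
  have h1 : (∀ (i : Fin n) (h : 0 + (i : ℕ) < k), y ⟨0 + i, h⟩ = w i) ↔
      ∀ (i : Fin n) (h : (i : ℕ) < k), y ⟨i, h⟩ = w i := by
    constructor
    · intro h i hi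
      have h2 := h i (by omega)
      have h3 : (⟨0 + i, by omega⟩ : Fin k) = ⟨i, hi⟩ := Fin.ext (Nat.zero_add _)
      rw [h3] at h2
      exact h2
    · intro h i hi
      have h2 := h i (by omega)
      have h3 : (⟨0 + i, hi⟩ : Fin k) = ⟨i, by omega⟩ := Fin.ext (Nat.zero_add _)
      rw [h3]
      exact h2
  have h4 : cut w ψ y = if ∀ (i : Fin n) (h : (i : ℕ) < k), y ⟨i, h⟩ = w i then ψ y else 0 := rfl
  rw [h4]
  by_cases hc : ∀ (i : Fin n) (h : (i : ℕ) < k), y ⟨i, h⟩ = w i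
  · rw [if_pos (h1.2 hc), if_pos hc]
  · rw [if_neg (fun h => hc (h1.1 h)), if_neg hc]
    simp

theorem WM_tens_append {a b : ℕ} (φ : St D (Fin a)) (χ : St D (Fin b)) (z : Fin a → Fin D)
    (z' : Fin b → Fin D) : tens φ χ (Fin.append z z') = φ z * χ z' := by
  unfold tens
  have h1 : (fun i => Fin.append z z' (Fin.castAdd b i)) = z := by
    funext i
    rw [Fin.append_left]
  have h2 : (fun i => Fin.append z z' (Fin.natAdd a i)) = z' := by
    funext i
    rw [Fin.append_right]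
  rw [h1, h2]

theorem WM_nsq_tens (a b : ℕ) (φ : St D (Fin a)) (χ : St D (Fin b)) :
    nsq (tens φ χ) = nsq φ * nsq χ := by
  unfold nsq
  rw [WM_sum_append, Finset.sum_mul_sum]
  refine Finset.sum_congr rfl fun z _ => Finset.sum_congr rfl fun z' _ => ?_
  rw [WM_tens_append, norm_mul, mul_pow]

theorem WM_opA_tens (a b : ℕ) (M : Matrix (Fin D) (Fin D) ℂ) (φ : St D (Fin a))
    (χ : St D (Fin b)) : opA M (tens φ χ) = tens (opA M φ) (opA M χ) := by
  funext w
  show ∑ u : Fin (a + b) → Fin D, (∏ i, M (w i) (u i)) * tens φ χ u =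
    (∑ u : Fin a → Fin D, (∏ i, M (w (Fin.castAdd b i)) (u i)) * φ u) *
      ∑ u : Fin b → Fin D, (∏ i, M (w (Fin.natAdd a i)) (u i)) * χ u
  rw [WM_sum_append, Finset.sum_mul_sum]
  refine Finset.sum_congr rfl fun z _ => Finset.sum_congr rfl fun z' _ => ?_
  rw [WM_tens_append, Fin.prod_univ_add]
  have h1 : (∏ i : Fin a, M (w (Fin.castAdd b i)) (Fin.append z z' (Fin.castAdd b i))) =
      ∏ i, M (w (Fin.castAdd b i)) (z i) :=
    Finset.prod_congr rfl fun i _ => by rw [Fin.append_left]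
  have h2 : (∏ i : Fin b, M (w (Fin.natAdd a i)) (Fin.append z z' (Fin.natAdd a i))) =
      ∏ i, M (w (Fin.natAdd a i)) (z' i) :=
    Finset.prod_congr rfl fun i _ => by rw [Fin.append_right]
  rw [h1, h2]
  ring

theorem WM_nsq_opA (a : ℕ) (M : Matrix (Fin D) (Fin D) ℂ) (φ : St D (Fin a)) (hM : Mᴴ * M = 1) :
    nsq (opA M φ) = nsq φ := by
  unfold nsq
  have h0 : ∀ w : Fin a → Fin D, opA M φ w =
      ∑ u : Fin a → Fin D, (Matrix.of fun w u : Fin a → Fin D => ∏ i, M (w i) (u i)) w u * φ u :=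
    fun w => rfl
  rw [Finset.sum_congr rfl fun w _ => by rw [h0 w]]
  refine WM_unit _ ?_ φ
  ext u v
  rw [Matrix.mul_apply]
  have h1 : ∀ x : Fin a → Fin D,
      (Matrix.of fun w u : Fin a → Fin D => ∏ i, M (w i) (u i))ᴴ u x *
        (Matrix.of fun w u : Fin a → Fin D => ∏ i, M (w i) (u i)) x v =
      ∏ i, (Mᴴ (u i) (x i) * M (x i) (v i)) := by
    intro x
    rw [Finset.prod_mul_distrib]
    congr 1
    show star (∏ i, M (x i) (u i)) = ∏ i, star (M (x i) (u i))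
    rw [star_prod]
  rw [Finset.sum_congr rfl fun x _ => h1 x]
  have h2 : ∏ i : Fin a, ∑ c : Fin D, (Mᴴ (u i) c * M c (v i)) =
      ∑ x : Fin a → Fin D, ∏ i, (Mᴴ (u i) (x i) * M (x i) (v i)) := by
    rw [Finset.prod_univ_sum, Fintype.piFinset_univ]
  rw [← h2]
  have h3 : ∀ i : Fin a, ∑ c : Fin D, (Mᴴ (u i) c * M c (v i)) = if u i = v i then 1 else 0 := by
    intro i
    rw [← Matrix.mul_apply, hM, Matrix.one_apply]
  rw [Finset.prod_congr rfl fun i _ => h3 i]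
  by_cases huv : u = v
  · subst huv
    simp
  · rw [Matrix.one_apply_ne huv]
    obtain ⟨i, hi⟩ := Function.ne_iff.1 huv
    exact Finset.prod_eq_zero (Finset.mem_univ i) (if_neg hi)

theorem WM_win_left {a b n : ℕ} (w : Fin n → Fin D) (φ : St D (Fin a)) (χ : St D (Fin b))
    (hχ : nsq χ = 1) (s : ℕ) (hs : s + n ≤ a) : wm s w (tens φ χ) = wm s w φ := by
  unfold wm
  rw [WM_sum_append]
  refine Finset.sum_congr rfl fun z _ => ?_
  have h1 : ∀ z' : Fin b → Fin D, (∀ (i : Fin n) (h : s + (i : ℕ) < a + b),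
      Fin.append z z' ⟨s + i, h⟩ = w i) ↔
      (∀ (i : Fin n) (h : s + (i : ℕ) < a), z ⟨s + i, h⟩ = w i) := by
    intro z'
    have h3 : ∀ (i : Fin n) (h : s + (i : ℕ) < a + b) (h' : s + (i : ℕ) < a),
        Fin.append z z' ⟨s + i, h⟩ = z ⟨s + i, h'⟩ := by
      intro i h h'
      have h4 : (⟨s + i, h⟩ : Fin (a + b)) = Fin.castAdd b ⟨s + i, h'⟩ := rfl
      rw [h4, Fin.append_left]
    constructor
    · intro h i hi
      rw [← h i (by omega), h3 i _ hi]
    · intro h i hi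
      rw [h3 i hi (by omega), h i]
  by_cases hc : ∀ (i : Fin n) (h : s + (i : ℕ) < a), z ⟨s + i, h⟩ = w i
  · rw [if_pos hc]
    have e1 : ∀ z' : Fin b → Fin D, (if ∀ (i : Fin n) (h : s + (i : ℕ) < a + b),
        Fin.append z z' ⟨s + i, h⟩ = w i then ‖tens φ χ (Fin.append z z')‖ ^ 2 else 0) =
        ‖φ z‖ ^ 2 * ‖χ z'‖ ^ 2 := by
      intro z'
      rw [if_pos ((h1 z').2 hc), WM_tens_append, norm_mul, mul_pow]
    rw [Finset.sum_congr rfl fun z' _ => e1 z', ← Finset.mul_sum]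
    unfold nsq at hχ
    rw [hχ, mul_one]
  · rw [if_neg hc]
    refine Finset.sum_eq_zero fun z' _ => ?_
    rw [if_neg fun h => hc ((h1 z').1 h)]

theorem WM_win_right {a b n : ℕ} (w : Fin n → Fin D) (φ : St D (Fin a)) (χ : St D (Fin b))
    (hφ : nsq φ = 1) (s : ℕ) : wm (a + s) w (tens φ χ) = wm s w χ := by
  unfold wm
  rw [WM_sum_append, Finset.sum_comm]
  refine Finset.sum_congr rfl fun z' _ => ?_
  have h1 : ∀ z : Fin a → Fin D, (∀ (i : Fin n) (h : a + s + (i : ℕ) < a + b),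
      Fin.append z z' ⟨a + s + i, h⟩ = w i) ↔
      (∀ (i : Fin n) (h : s + (i : ℕ) < b), z' ⟨s + i, h⟩ = w i) := by
    intro z
    have h3 : ∀ (i : Fin n) (h : a + s + (i : ℕ) < a + b) (h' : s + (i : ℕ) < b),
        Fin.append z z' ⟨a + s + i, h⟩ = z' ⟨s + i, h'⟩ := by
      intro i h h'
      have h4 : (⟨a + s + i, h⟩ : Fin (a + b)) = Fin.natAdd a ⟨s + i, h'⟩ := by
        refine Fin.ext ?_
        show a + s + (i : ℕ) = a + (s + i)
        omega
      rw [h4, Fin.append_right]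
    constructor
    · intro h i hi
      rw [← h i (by omega), h3 i _ hi]
    · intro h i hi
      rw [h3 i hi (by omega), h i]
  by_cases hc : ∀ (i : Fin n) (h : s + (i : ℕ) < b), z' ⟨s + i, h⟩ = w i
  · rw [if_pos hc]
    have e1 : ∀ z : Fin a → Fin D, (if ∀ (i : Fin n) (h : a + s + (i : ℕ) < a + b),
        Fin.append z z' ⟨a + s + i, h⟩ = w i then ‖tens φ χ (Fin.append z z')‖ ^ 2 else 0) =
        ‖φ z‖ ^ 2 * ‖χ z'‖ ^ 2 := by
      intro z
      rw [if_pos ((h1 z).2 hc), WM_tens_append, norm_mul, mul_pow]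
    rw [Finset.sum_congr rfl fun z _ => e1 z, ← Finset.sum_mul]
    unfold nsq at hφ
    rw [hφ, one_mul]
  · rw [if_neg hc]
    refine Finset.sum_eq_zero fun z _ => ?_
    rw [if_neg fun h => hc ((h1 z).1 h)]

theorem WM_sum_win (a b n : ℕ) (w : Fin n → Fin D) (φ : St D (Fin a)) (χ : St D (Fin b))
    (hφ : nsq φ = 1) (hχ : nsq χ = 1) :
    |∑ s ∈ Finset.range (a + b), wm s w (tens φ χ) -
      ∑ s ∈ Finset.range a, wm s w φ - ∑ s ∈ Finset.range b, wm s w χ| ≤ n := by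
  have h1 : ∑ s ∈ Finset.range (a + b), wm s w (tens φ χ) =
      ∑ s ∈ Finset.range a, wm s w (tens φ χ) + ∑ s ∈ Finset.range b, wm s w χ := by
    rw [Finset.sum_range_add]
    congr 1
    exact Finset.sum_congr rfl fun s _ => WM_win_right w φ χ hφ s
  have h2 : ∑ s ∈ Finset.range (a + b), wm s w (tens φ χ) -
      ∑ s ∈ Finset.range a, wm s w φ - ∑ s ∈ Finset.range b, wm s w χ =
      ∑ s ∈ Finset.range a, (wm s w (tens φ χ) - wm s w φ) := by
    rw [h1, Finset.sum_sub_distrib]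
    ring
  rw [h2]
  refine (Finset.abs_sum_le_sum_abs _ _).trans ?_
  have h3 : ∀ s ∈ Finset.range a, |wm s w (tens φ χ) - wm s w φ| ≤
      if s + n ≤ a then 0 else 1 := by
    intro s _
    by_cases hs : s + n ≤ a
    · rw [if_pos hs, WM_win_left w φ χ hχ s hs, sub_self, abs_zero]
    · rw [if_neg hs]
      have h4 := WM_bound _ n w s (tens φ χ)
      have h5 := WM_bound _ n w s φ
      rw [WM_nsq_tens, hφ, hχ, one_mul] at h4
      rw [hφ] at h5
      rw [abs_le]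
      constructor <;> linarith [h4.1, h4.2, h5.1, h5.2]
  refine (Finset.sum_le_sum h3).trans ?_
  have h6 : (∑ s ∈ Finset.range a, if s + n ≤ a then (0 : ℝ) else 1) =
      (((Finset.range a).filter fun s => ¬ (s + n ≤ a)).card : ℝ) := by
    rw [Finset.card_filter, Nat.cast_sum]
    refine Finset.sum_congr rfl fun s _ => ?_
    by_cases hs : s + n ≤ a
    · rw [if_pos hs, if_neg (not_not.2 hs), Nat.cast_zero]
    · rw [if_neg hs, if_pos hs, Nat.cast_one]
  rw [h6]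
  have h7 : ((Finset.range a).filter fun s => ¬ (s + n ≤ a)) ⊆ Finset.Ico (a - n) a := by
    intro s hs
    rw [Finset.mem_filter, Finset.mem_range] at hs
    rw [Finset.mem_Ico]
    omega
  have h8 := Finset.card_le_card h7
  rw [Nat.card_Ico] at h8
  exact_mod_cast h8.trans (by omega)

end WM

/-- **Module WM.** -/
theorem t_WM : S_WM := fun _ =>
  ⟨fun k n F hF w s ψ hs => WM_shift k n F hF w s ψ hs, WM_bound, WM_cut, WM_nsq_tens,
    WM_opA_tens, WM_nsq_opA, WM_sum_win⟩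

end Pool.Agent.N282.WB
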