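import Pool.Agent.N282.WB.Op
import Pool.Agent.N282.WB.Bk
import Pool.Agent.N282.WB.Cr
import Pool.Agent.N282.WB.Wm
import Pool.Agent.N282.WB.Sp
import Pool.Agent.N282.WB.Mn
import Pool.Agent.N282.WB.Rd
import Pool.Agent.N282.WB.Hu
import Pool.Agent.N282.WB.Df
import Pool.Agent.N282.WB.Be
import Pool.Agent.N282.WB.Mx
import Pool.Agent.N282.WB.Nc
import Pool.Agent.N282.WB.Ev
import Pool.Agent.N282.WB.Fi
import Pool.Agent.N282.WB.Cor

/-!
# Project WB: assembly

The parts were written by helper749 (operators, frequencies, main part), helper87 (the baker's map),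
helper935 (the marker), helper9 (windows), helper691 (spectral decomposition), helper738 (reduced
density matrices, Fourier transform, necessity), helper364 (Husimi weights), helper279 (Bernoulli
measures, mixtures) and helper282 (plan, statements, eigenvectors, sufficiency, corollaries).
-/

set_option autoImplicit false

noncomputable section

namespace Pool.Agent.N282.WB

theorem a_MN : S_MN := t_MN t_WM t_SP t_FQ

theorem a_EV : S_EV := t_EV t_OP t_BK (t_CR t_OP t_BK) t_WM a_MN

theorem a_HU : S_HU := t_HU t_BK t_WM

theorem a_DF : S_DF := t_DF t_BK t_OP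

theorem a_NC : S_NC := t_NC a_HU (t_RD t_BK) a_DF

theorem a_FI : S_FI := t_FI a_EV a_DF a_HU

theorem a_MX : S_MX := t_MX a_DF

end Pool.Agent.N282.WB
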