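import Mathlib

/-!
# Project WB: quantum limits of the Walsh-quantized baker's map, definitions
-/

set_option autoImplicit false

open scoped ComplexConjugate Matrix ComplexOrder
open Filter Topology MeasureTheory

noncomputable section

namespace Pool.Agent.N282.WB

/-- wave functions on the sites `ι`, with `D` basis states at every site -/
abbrev St (D : ℕ) (ι : Type) : Type := (ι → Fin D) → ℂ

section basic

variable {D : ℕ} {ι : Type} [Fintype ι] [DecidableEq ι]

/-- the square of the norm -/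
def nsq (ψ : St D ι) : ℝ := ∑ w, ‖ψ w‖ ^ 2

/-- the inner product, linear in the second argument -/
def ip (φ ψ : St D ι) : ℂ := ∑ w, conj (φ w) * ψ w

/-- the basis vector of the word `α` -/
def bas (α : ι → Fin D) : St D ι := fun w => if w = α then 1 else 0

/-- the matrix `M` acts at the site `i` -/
def op (i : ι) (M : Matrix (Fin D) (Fin D) ℂ) : Module.End ℂ (St D ι) where
  toFun ψ w := ∑ a, M (w i) a * ψ (Function.update w i a)
  map_add' φ ψ := by
    funext w
    simp [mul_add, Finset.sum_add_distrib]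
  map_smul' c ψ := by
    funext w
    simp [Finset.mul_sum, mul_left_comm]

/-- the matrix `M` acts at every site -/
def opA (M : Matrix (Fin D) (Fin D) ℂ) : Module.End ℂ (St D ι) where
  toFun ψ w := ∑ u : ι → Fin D, (∏ i, M (w i) (u i)) * ψ u
  map_add' φ ψ := by
    funext w
    simp [mul_add, Finset.sum_add_distrib]
  map_smul' c ψ := by
    funext w
    simp [Finset.mul_sum, mul_left_comm]

/-- the projection to the words which agree with `α` on `X` -/
def pj (X : Finset ι) (α : ι → Fin D) : Module.End ℂ (St D ι) where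
  toFun ψ w := if ∀ i ∈ X, w i = α i then ψ w else 0
  map_add' φ ψ := by
    funext w
    simp only [Pi.add_apply, Pi.smul_apply, RingHom.id_apply]
    split_ifs <;> simp
  map_smul' c ψ := by
    funext w
    simp only [Pi.add_apply, Pi.smul_apply, RingHom.id_apply]
    split_ifs <;> simp

end basic

section

variable {D : ℕ}

/-- **The Walsh-quantized baker's map** on `k + 1` sites:
`v₀ ⊗ v₁ ⊗ ⋯ ⊗ v_k ↦ v₁ ⊗ ⋯ ⊗ v_k ⊗ F* v₀`. -/
def bk (F : Matrix (Fin D) (Fin D) ℂ) (k : ℕ) : Module.End ℂ (St D (Fin (k + 1))) where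
  toFun ψ w := ∑ a, conj (F a (w (Fin.last k))) *
    ψ (Fin.cons a fun i : Fin k => w i.castSucc)
  map_add' φ ψ := by
    funext w
    simp [mul_add, Finset.sum_add_distrib]
  map_smul' c ψ := by
    funext w
    simp [Finset.mul_sum, mul_left_comm]

/-- the tensor product of two wave functions -/
def tens {a b : ℕ} (φ : St D (Fin a)) (χ : St D (Fin b)) : St D (Fin (a + b)) :=
  fun w => φ (fun i => w (Fin.castAdd b i)) * χ (fun i => w (Fin.natAdd a i))

/-- the wave function with the main part `Φ` and the marker `α` at the end -/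
def mkr {M L : ℕ} (Φ : St D (Fin M)) (α : Fin (L + 1) → Fin D) : St D (Fin (M + L + 1)) :=
  tens (a := M) (b := L + 1) Φ (bas α)

/-- the projection to the words which begin with the word `w` -/
def cut {k n : ℕ} (w : Fin n → Fin D) : Module.End ℂ (St D (Fin k)) where
  toFun ψ y := if ∀ (i : Fin n) (h : (i : ℕ) < k), y ⟨i, h⟩ = w i then ψ y else 0
  map_add' φ ψ := by
    funext y
    simp only [Pi.add_apply, Pi.smul_apply, RingHom.id_apply]
    split_ifs <;> simp
  map_smul' c ψ := by
    funext y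
    simp only [Pi.add_apply, Pi.smul_apply, RingHom.id_apply]
    split_ifs <;> simp

/-- the mass of the words which have the word `w` at the place `s` (places outside of the word are
ignored) -/
def wm {k n : ℕ} (s : ℕ) (w : Fin n → Fin D) (ψ : St D (Fin k)) : ℝ :=
  ∑ y : Fin k → Fin D,
    if ∀ (i : Fin n) (h : s + (i : ℕ) < k), y ⟨s + i, h⟩ = w i then ‖ψ y‖ ^ 2 else 0

/-- the Husimi weight of the word `y`: the square of the modulus of the scalar product of `ψ` with the
coherent state which is the tensor product of the basis vectors `y i` for `i < l` and of the vectors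
`F* y i` for `l ≤ i` -/
def hus (F : Matrix (Fin D) (Fin D) ℂ) (k l : ℕ) (ψ : St D (Fin (k + 1)))
    (y : Fin (k + 1) → Fin D) : ℝ :=
  ‖∑ u : Fin (k + 1) → Fin D,
    (∏ i : Fin (k + 1), if (i : ℕ) < l then (if y i = u i then 1 else 0) else F (y i) (u i)) * ψ u‖ ^ 2

/-- the Husimi mass of the cylinder `{x | x (m + i) = w i for all i}`: the site `j` contains the digit
with the number `j` or `j - (k + 1)` -/
def husC {n : ℕ} (F : Matrix (Fin D) (Fin D) ℂ) (k l : ℕ) (ψ : St D (Fin (k + 1))) (m : ℤ)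
    (w : Fin n → Fin D) : ℝ :=
  ∑ y : Fin (k + 1) → Fin D,
    if ∀ (i : Fin n) (j : Fin (k + 1)), (j : ℤ) ≡ m + i [ZMOD ((k : ℤ) + 1)] → y j = w i then
      hus F k l ψ y else 0

/-- the cylinder -/
def cyl {n : ℕ} (m : ℤ) (w : Fin n → Fin D) : Set (ℤ → Fin D) := {x | ∀ i : Fin n, x (m + i) = w i}

/-- the tensor power of a matrix -/
def tp (F : Matrix (Fin D) (Fin D) ℂ) (n : ℕ) : Matrix (Fin n → Fin D) (Fin n → Fin D) ℂ :=
  fun u v => ∏ i, F (u i) (v i)

/-- a translation invariant state of the quantum spin chain, which is invariant under `F` at all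
sites; `ρ n` is the density matrix of `n` neighbouring sites -/
structure IsInv (F : Matrix (Fin D) (Fin D) ℂ)
    (ρ : (n : ℕ) → Matrix (Fin n → Fin D) (Fin n → Fin D) ℂ) : Prop where
  psd : ∀ n, (ρ n).PosSemidef
  one : ∀ u v, ρ 0 u v = 1
  right : ∀ n (u v : Fin n → Fin D),
    ∑ a, ρ (n + 1) (Fin.snoc u a) (Fin.snoc v a) = ρ n u v
  left : ∀ n (u v : Fin n → Fin D),
    ∑ a, ρ (n + 1) (Fin.cons a u) (Fin.cons a v) = ρ n u v
  inv : ∀ n, (tp F n)ᴴ * ρ n * tp F n = ρ n

/-- the hypotheses on the matrix -/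
structure Good (F : Matrix (Fin D) (Fin D) ℂ) (r : ℕ) : Prop where
  two : 2 ≤ D
  pos : 1 ≤ r
  uni : Fᴴ * F = 1
  pow : F ^ r = 1
  dia : ∀ j, 0 < j → j < r → ∃ a, ‖(F ^ j) a a‖ < 1

/-- the reduced density matrix of the first `n` sites -/
def rd (n : ℕ) {k : ℕ} (ψ : St D (Fin k)) : Matrix (Fin n → Fin D) (Fin n → Fin D) ℂ :=
  fun u v => ∑ y : Fin k → Fin D,
    if ∀ (i : Fin n) (h : (i : ℕ) < k), y ⟨i, h⟩ = u i then
      ψ y * conj (ψ fun i => if h : (i : ℕ) < n then v ⟨i, h⟩ else y i) else 0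

/-- the discrete Fourier transform -/
def dft (D : ℕ) : Matrix (Fin D) (Fin D) ℂ :=
  fun a b => ((Real.sqrt D : ℝ) : ℂ)⁻¹ *
    Complex.exp (-(2 * Real.pi * Complex.I * (a : ℕ) * (b : ℕ) / D))

/-- **Quantum limits of the Walsh-quantized baker's map** -/
def IsQL (D : ℕ) (μ : Measure (ℤ → Fin D)) : Prop :=
  ∃ (k l : ℕ → ℕ) (ψ : ∀ j, St D (Fin (k j + 1))),
    Tendsto l atTop atTop ∧ Tendsto (fun j => k j - l j) atTop atTop ∧
    (∀ j, nsq (ψ j) = 1 ∧ ∃ ev : ℂ, bk (dft D) (k j) (ψ j) = ev • ψ j) ∧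
    ∀ (m : ℤ) (n : ℕ) (w : Fin n → Fin D),
      Tendsto (fun j => husC (dft D) (k j) (l j) (ψ j) m w) atTop (𝓝 (μ.real (cyl m w)))

end

end Pool.Agent.N282.WB
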