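import Pool.Agent.N282.WB.Stm

/-!
# Project WB, module OP: the algebra of the local operators
-/

set_option autoImplicit false

open scoped ComplexConjugate Matrix ComplexOrder
open Filter Topology MeasureTheory

noncomputable section

namespace Pool.Agent.N282.WB

section

variable {D : ℕ} {ι : Type} [Fintype ι] [DecidableEq ι]

omit [Fintype ι] in
lemma OP_apply (i : ι) (M : Matrix (Fin D) (Fin D) ℂ) (ψ : St D ι) (w : ι → Fin D) :
    op i M ψ w = ∑ a, M (w i) a * ψ (Function.update w i a) := rfl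

lemma OP_opA_apply (M : Matrix (Fin D) (Fin D) ℂ) (ψ : St D ι) (w : ι → Fin D) :
    opA M ψ w = ∑ u : ι → Fin D, (∏ i, M (w i) (u i)) * ψ u := rfl

omit [Fintype ι] in
lemma OP_mul_self (i : ι) (M N : Matrix (Fin D) (Fin D) ℂ) :
    (op i M * op i N : Module.End ℂ (St D ι)) = op i (M * N) := by
  apply LinearMap.ext
  intro ψ
  funext w
  rw [Module.End.mul_apply, OP_apply, OP_apply]
  simp_rw [OP_apply, Function.update_self, Function.update_idem, Matrix.mul_apply,
    Finset.mul_sum, Finset.sum_mul]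
  rw [Finset.sum_comm]
  exact Finset.sum_congr rfl fun b _ => Finset.sum_congr rfl fun a _ => by ring

omit [Fintype ι] in
lemma OP_comm (i j : ι) (M N : Matrix (Fin D) (Fin D) ℂ) (hij : i ≠ j) :
    (op i M * op j N : Module.End ℂ (St D ι)) = op j N * op i M := by
  apply LinearMap.ext
  intro ψ
  funext w
  rw [Module.End.mul_apply, Module.End.mul_apply, OP_apply, OP_apply]
  simp_rw [OP_apply, Function.update_of_ne hij, Function.update_of_ne hij.symm, Finset.mul_sum]
  rw [Finset.sum_comm]
  refine Finset.sum_congr rfl fun b _ => Finset.sum_congr rfl fun a _ => ?_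
  rw [Function.update_comm hij]
  ring

omit [Fintype ι] in
lemma OP_one (i : ι) : (op i 1 : Module.End ℂ (St D ι)) = 1 := by
  apply LinearMap.ext
  intro ψ
  funext w
  rw [OP_apply, Finset.sum_eq_single (w i)]
  · rw [Matrix.one_apply_eq, one_mul, Function.update_eq_self]
    rfl
  · intro b _ hb
    rw [Matrix.one_apply_ne hb.symm, zero_mul]
  · intro h
    exact absurd (Finset.mem_univ _) h

lemma OP_adj (i : ι) (M : Matrix (Fin D) (Fin D) ℂ) (φ ψ : St D ι) :
    ip φ (op i M ψ) = ip (op i Mᴴ φ) ψ := by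
  unfold ip
  simp_rw [OP_apply, Finset.mul_sum, map_sum, Finset.sum_mul, map_mul,
    Matrix.conjTranspose_apply]
  have h1 : Function.Involutive (fun q : (ι → Fin D) × Fin D =>
      (Function.update q.1 i q.2, q.1 i)) := by
    intro q
    simp
  rw [← Fintype.sum_prod_type' (f := fun (w : ι → Fin D) (a : Fin D) =>
      conj (φ w) * (M (w i) a * ψ (Function.update w i a))),
    ← Fintype.sum_prod_type' (f := fun (w : ι → Fin D) (a : Fin D) =>
      conj (star (M a (w i))) * conj (φ (Function.update w i a)) * ψ w),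
    ← Equiv.sum_comp (h1.toPerm _)]
  refine Finset.sum_congr rfl fun q _ => ?_
  simp only [Function.Involutive.coe_toPerm, Function.update_self, Function.update_idem,
    Function.update_eq_self, RCLike.star_def, Complex.conj_conj]
  ring

lemma OP_prod_sum (f : ι → Fin D → ℂ) : ∏ i, ∑ a, f i a = ∑ u : ι → Fin D, ∏ i, f i (u i) := by
  rw [Finset.prod_univ_sum, Fintype.piFinset_univ]

lemma OP_opA_mul (M N : Matrix (Fin D) (Fin D) ℂ) :
    (opA M * opA N : Module.End ℂ (St D ι)) = opA (M * N) := by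
  apply LinearMap.ext
  intro ψ
  funext w
  rw [Module.End.mul_apply, OP_opA_apply, OP_opA_apply]
  simp_rw [OP_opA_apply, Matrix.mul_apply, OP_prod_sum, Finset.mul_sum, Finset.sum_mul]
  rw [Finset.sum_comm]
  refine Finset.sum_congr rfl fun b _ => Finset.sum_congr rfl fun a _ => ?_
  rw [Finset.prod_mul_distrib]
  ring

lemma OP_prod_one (w u : ι → Fin D) :
    ∏ i, (1 : Matrix (Fin D) (Fin D) ℂ) (w i) (u i) = if w = u then 1 else 0 := by
  split_ifs with h
  · subst h
    simp
  · obtain ⟨i, hi⟩ := Function.ne_iff.1 h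
    exact Finset.prod_eq_zero (Finset.mem_univ i) (Matrix.one_apply_ne hi)

lemma OP_opA_one : (opA 1 : Module.End ℂ (St D ι)) = 1 := by
  apply LinearMap.ext
  intro ψ
  funext w
  rw [OP_opA_apply]
  simp_rw [OP_prod_one, ite_mul, one_mul, zero_mul]
  rw [Finset.sum_ite_eq]
  simp

lemma OP_opA_adj (M : Matrix (Fin D) (Fin D) ℂ) (φ ψ : St D ι) :
    ip φ (opA M ψ) = ip (opA Mᴴ φ) ψ := by
  unfold ip
  simp_rw [OP_opA_apply, Finset.mul_sum, map_sum, Finset.sum_mul, map_mul, map_prod,
    Matrix.conjTranspose_apply, RCLike.star_def, Complex.conj_conj]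
  rw [Finset.sum_comm]
  refine Finset.sum_congr rfl fun b _ => Finset.sum_congr rfl fun a _ => ?_
  ring

lemma OP_pj_apply (X : Finset ι) (α : ι → Fin D) (ψ : St D ι) (w : ι → Fin D) :
    pj X α ψ w = if ∀ i ∈ X, w i = α i then ψ w else 0 := rfl

lemma OP_pj_adj (X : Finset ι) (α : ι → Fin D) (φ ψ : St D ι) :
    ip φ (pj X α ψ) = ip (pj X α φ) ψ := by
  unfold ip
  refine Finset.sum_congr rfl fun w _ => ?_
  rw [OP_pj_apply, OP_pj_apply]
  split_ifs <;> simp

lemma OP_pj_insert (X : Finset ι) (α : ι → Fin D) (i : ι) (hi : i ∉ X) :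
    (pj (insert i X) α : Module.End ℂ (St D ι)) =
      op i (Matrix.single (α i) (α i) 1) * pj X α := by
  apply LinearMap.ext
  intro ψ
  funext w
  rw [Module.End.mul_apply, OP_apply, OP_pj_apply]
  by_cases hw : w i = α i
  · rw [Finset.sum_eq_single (α i)]
    · rw [hw, Matrix.single_apply_same, one_mul, ← hw, Function.update_eq_self, OP_pj_apply]
      refine if_congr ?_ rfl rfl
      rw [Finset.forall_mem_insert]
      exact ⟨fun h => h.2, fun h => ⟨hw, h⟩⟩
    · intro b _ hb
      rw [Matrix.single_apply_of_ne, zero_mul]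
      exact fun h => hb h.2.symm
    · intro h
      exact absurd (Finset.mem_univ _) h
  · rw [if_neg, Finset.sum_eq_zero]
    · intro b _
      rw [Matrix.single_apply_of_ne, zero_mul]
      exact fun h => hw h.1.symm
    · intro h
      exact hw (h i (Finset.mem_insert_self i X))

end

theorem t_OP : S_OP := by
  intro D ι _ _
  exact ⟨OP_mul_self, OP_comm, OP_one, OP_adj, OP_opA_mul, OP_opA_one, OP_opA_adj, OP_pj_adj,
    OP_pj_insert⟩

end Pool.Agent.N282.WB
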