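import Pool.Agent.N282.WB.Def

/-!
# Project WB: statements of the modules
-/

set_option autoImplicit false

open scoped ComplexConjugate Matrix ComplexOrder
open Filter Topology MeasureTheory

noncomputable section

namespace Pool.Agent.N282.WB

/-- module OP: the algebra of the local operators -/
def S_OP : Prop := ∀ (D : ℕ) (ι : Type) [Fintype ι] [DecidableEq ι],
  (∀ (i : ι) (M N : Matrix (Fin D) (Fin D) ℂ),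
    (op i M * op i N : Module.End ℂ (St D ι)) = op i (M * N)) ∧
  (∀ (i j : ι) (M N : Matrix (Fin D) (Fin D) ℂ), i ≠ j →
    (op i M * op j N : Module.End ℂ (St D ι)) = op j N * op i M) ∧
  (∀ i : ι, (op i 1 : Module.End ℂ (St D ι)) = 1) ∧
  (∀ (i : ι) (M : Matrix (Fin D) (Fin D) ℂ) (φ ψ : St D ι), ip φ (op i M ψ) = ip (op i Mᴴ φ) ψ) ∧
  (∀ M N : Matrix (Fin D) (Fin D) ℂ, (opA M * opA N : Module.End ℂ (St D ι)) = opA (M * N)) ∧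
  ((opA 1 : Module.End ℂ (St D ι)) = 1) ∧
  (∀ (M : Matrix (Fin D) (Fin D) ℂ) (φ ψ : St D ι), ip φ (opA M ψ) = ip (opA Mᴴ φ) ψ) ∧
  (∀ (X : Finset ι) (α : ι → Fin D) (φ ψ : St D ι), ip φ (pj X α ψ) = ip (pj X α φ) ψ) ∧
  (∀ (X : Finset ι) (α : ι → Fin D) (i : ι), i ∉ X →
    (pj (insert i X) α : Module.End ℂ (St D ι)) =
      op i (Matrix.single (α i) (α i) 1) * pj X α)

/-- module BK: the baker's map -/
def S_BK : Prop := ∀ (D k : ℕ) (F : Matrix (Fin D) (Fin D) ℂ), Fᴴ * F = 1 →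
  (∀ φ ψ, ip (bk F k φ) (bk F k ψ) = ip φ ψ) ∧
  (∀ (i : Fin (k + 1)) (M : Matrix (Fin D) (Fin D) ℂ), ∃ M' : Matrix (Fin D) (Fin D) ℂ,
    bk F k * op i M = op (i - 1) M' * bk F k) ∧
  (∀ m : ℕ, m ≤ k + 1 → ∀ (ψ : St D (Fin (k + 1))) (y : Fin (k + 1) → Fin D),
    (bk F k ^ m) ψ y = ∑ u : Fin (k + 1) → Fin D,
      (∏ i : Fin (k + 1), if k + 1 ≤ (i : ℕ) + m then conj (F (u i) (y i)) else
        if y i = u i then 1 else 0) * ψ (fun i => u (i - Fin.ofNat (k + 1) m))) ∧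
  bk F k ^ (k + 1) = opA Fᴴ

/-- module CR: the choice of the marker `α` -/
def S_CR : Prop := ∀ (D r : ℕ) (F : Matrix (Fin D) (Fin D) ℂ), Good F r →
  ∃ q : ℝ, 0 < q ∧ q < 1 ∧ ∀ (M L n : ℕ) (Φ : St D (Fin M)), nsq Φ = 1 →
    ∃ α : Fin (L + 1) → Fin D, ∀ s s' : ℕ, s < r * (M + L + 1) → s' < r * (M + L + 1) → s ≠ s' →
      ∀ w : Fin n → Fin D,
        ‖ip ((bk F (M + L) ^ s) (mkr Φ α)) (cut w ((bk F (M + L) ^ s') (mkr Φ α)))‖ ^ 2 ≤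
          ((r * (M + L + 1) : ℕ) : ℝ) ^ 2 * D ^ n * q ^ ((L - n) / 3)

/-- module WM: masses of windows -/
def S_WM : Prop := ∀ D : ℕ,
  (∀ (k n : ℕ) (F : Matrix (Fin D) (Fin D) ℂ), Fᴴ * F = 1 → ∀ (w : Fin n → Fin D) (s : ℕ)
    (ψ : St D (Fin (k + 1))), s + 1 + n ≤ k + 1 → wm s w (bk F k ψ) = wm (s + 1) w ψ) ∧
  (∀ (k n : ℕ) (w : Fin n → Fin D) (s : ℕ) (ψ : St D (Fin k)), 0 ≤ wm s w ψ ∧ wm s w ψ ≤ nsq ψ) ∧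
  (∀ (k n : ℕ) (w : Fin n → Fin D) (ψ : St D (Fin k)), wm 0 w ψ = nsq (cut w ψ)) ∧
  (∀ (a b : ℕ) (φ : St D (Fin a)) (χ : St D (Fin b)), nsq (tens φ χ) = nsq φ * nsq χ) ∧
  (∀ (a b : ℕ) (M : Matrix (Fin D) (Fin D) ℂ) (φ : St D (Fin a)) (χ : St D (Fin b)),
    opA M (tens φ χ) = tens (opA M φ) (opA M χ)) ∧
  (∀ (a : ℕ) (M : Matrix (Fin D) (Fin D) ℂ) (φ : St D (Fin a)), Mᴴ * M = 1 →
    nsq (opA M φ) = nsq φ) ∧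
  (∀ (a b n : ℕ) (w : Fin n → Fin D) (φ : St D (Fin a)) (χ : St D (Fin b)), nsq φ = 1 →
    nsq χ = 1 → |∑ s ∈ Finset.range (a + b), wm s w (tens φ χ) -
      ∑ s ∈ Finset.range a, wm s w φ - ∑ s ∈ Finset.range b, wm s w χ| ≤ n)

/-- module SP: the spectral decomposition of the density matrices -/
def S_SP : Prop := ∀ (D : ℕ) (F : Matrix (Fin D) (Fin D) ℂ)
  (ρ : (n : ℕ) → Matrix (Fin n → Fin D) (Fin n → Fin D) ℂ), Fᴴ * F = 1 → IsInv F ρ →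
  ∀ n : ℕ, ∃ (p : (Fin n → Fin D) → ℝ) (φ : (Fin n → Fin D) → St D (Fin n)),
    (∀ i, 0 ≤ p i) ∧ ∑ i, p i = 1 ∧ (∀ i, nsq (φ i) = 1) ∧
    ∀ (j N : ℕ) (w : Fin N → Fin D),
      |∑ i, p i * ∑ s ∈ Finset.range n, wm s w (opA (Fᴴ ^ j) (φ i)) - n * (ρ N w w).re| ≤ N

/-- module FQ: frequencies -/
def S_FQ : Prop := ∀ (ι : Type) [Fintype ι] [DecidableEq ι] (p : ι → ℝ), (∀ i, 0 ≤ p i) →
  ∑ i, p i = 1 → ∀ m : ℕ, ∃ f : Fin m → ι,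
    ∀ i, |((Finset.univ.filter fun b => f b = i).card : ℝ) - p i * m| ≤ 1

/-- module MN: the main part of the wave function -/
def S_MN : Prop := ∀ (D : ℕ) (F : Matrix (Fin D) (Fin D) ℂ)
  (ρ : (n : ℕ) → Matrix (Fin n → Fin D) (Fin n → Fin D) ℂ), Fᴴ * F = 1 → IsInv F ρ →
  ∀ n m : ℕ, ∃ Φ : St D (Fin (n * m)), nsq Φ = 1 ∧ ∀ (j N : ℕ) (w : Fin N → Fin D),
    |∑ s ∈ Finset.range (n * m), wm s w (opA (Fᴴ ^ j) Φ) - n * m * (ρ N w w).re| ≤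
      2 * m * N + n * D ^ n

/-- module EV: the eigenvectors -/
def S_EV : Prop := ∀ (D r : ℕ) (F : Matrix (Fin D) (Fin D) ℂ)
  (ρ : (n : ℕ) → Matrix (Fin n → Fin D) (Fin n → Fin D) ℂ), Good F r → IsInv F ρ →
  ∀ (N : ℕ) (ε : ℝ), 0 < ε → ∃ K : ℕ, ∀ k, K ≤ k → ∀ ev : ℂ, ev ^ (r * (k + 1)) = 1 →
    ∃ ψ : St D (Fin (k + 1)), nsq ψ = 1 ∧ bk F k ψ = ev • ψ ∧
      ∀ w : Fin N → Fin D, |wm 0 w ψ - (ρ N w w).re| ≤ ε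

/-- module RD: the reduced density matrices of an eigenvector -/
def S_RD : Prop := ∀ (D k : ℕ) (F : Matrix (Fin D) (Fin D) ℂ), Fᴴ * F = 1 →
  ∀ (ψ : St D (Fin (k + 1))) (ev : ℂ), nsq ψ = 1 → bk F k ψ = ev • ψ →
    (∀ u v, rd 0 ψ u v = 1) ∧
    ∀ n : ℕ, n ≤ k →
      (rd n ψ).PosSemidef ∧ (∀ u v, ‖rd n ψ u v‖ ≤ 1) ∧ (∀ u, rd n ψ u u = (wm 0 u ψ : ℝ)) ∧
      (∀ u v : Fin n → Fin D, ∑ a, rd (n + 1) ψ (Fin.snoc u a) (Fin.snoc v a) = rd n ψ u v) ∧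
      (∀ u v : Fin n → Fin D, ∑ a, rd (n + 1) ψ (Fin.cons a u) (Fin.cons a v) = rd n ψ u v) ∧
      (tp F n)ᴴ * rd n ψ * tp F n = rd n ψ

/-- module HU: the Husimi weights of an eigenvector -/
def S_HU : Prop := ∀ (D k l : ℕ) (F : Matrix (Fin D) (Fin D) ℂ), Fᴴ * F = 1 → l ≤ k + 1 →
  ∀ (ψ : St D (Fin (k + 1))) (ev : ℂ), nsq ψ = 1 → bk F k ψ = ev • ψ →
    (∀ y, hus F k l ψ y = ‖ψ fun i => y (i + Fin.ofNat (k + 1) l)‖ ^ 2) ∧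
    ∀ (m : ℤ) (n : ℕ) (w : Fin n → Fin D), (l : ℤ) - (k + 1) ≤ m → m + n ≤ l →
      husC F k l ψ m w = wm 0 w ψ

/-- module NC: necessity -/
def S_NC : Prop := ∀ (D : ℕ), 2 ≤ D → ∀ (μ : Measure (ℤ → Fin D)) [IsProbabilityMeasure μ],
  IsQL D μ → ∃ ρ : (n : ℕ) → Matrix (Fin n → Fin D) (Fin n → Fin D) ℂ, IsInv (dft D) ρ ∧
    ∀ (m : ℤ) (n : ℕ) (w : Fin n → Fin D), μ.real (cyl m w) = (ρ n w w).re

/-- module DF: the discrete Fourier transform -/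
def S_DF : Prop := ∀ D : ℕ, 2 ≤ D → Good (dft D) (if D = 2 then 2 else 4) ∧
  ∀ (k : ℕ) (ev : ℂ), Module.End.HasEigenvalue (bk (dft D) k) ev →
    ev ^ ((if D = 2 then 2 else 4) * (k + 1)) = 1

/-- module BE: Bernoulli measures for `D = 2` -/
def S_BE : Prop := ∀ p : ℝ, 0 ≤ p → p ≤ 1 →
  ((∃ ρ : (n : ℕ) → Matrix (Fin n → Fin 2) (Fin n → Fin 2) ℂ, IsInv (dft 2) ρ ∧
    ∀ (n : ℕ) (w : Fin n → Fin 2), (ρ n w w).re = ∏ i, if w i = 1 then p else 1 - p) ↔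
  (2 * p - 1) ^ 2 ≤ 1 / 2)

/-- module MX: mixtures with the uniform measure -/
def S_MX : Prop := ∀ D : ℕ, 2 ≤ D → ∀ c : (n : ℕ) → (Fin n → Fin D) → ℝ, (∀ n w, 0 ≤ c n w) →
  (∀ w, c 0 w = 1) → (∀ n (w : Fin n → Fin D), ∑ a, c (n + 1) (Fin.snoc w a) = c n w) →
  (∀ n (w : Fin n → Fin D), ∑ a, c (n + 1) (Fin.cons a w) = c n w) →
  ∃ ρ : (n : ℕ) → Matrix (Fin n → Fin D) (Fin n → Fin D) ℂ, IsInv (dft D) ρ ∧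
    ∀ (n : ℕ) (w w' : Fin n → Fin D), (∀ i, ((w i : ℕ) + (w' i : ℕ)) % D = 0) →
      (ρ n w w).re = 1 / 4 * c n w + 1 / 4 * c n w' + 1 / 2 * ((D : ℝ) ^ n)⁻¹

/-- module FI: sufficiency -/
def S_FI : Prop := ∀ D : ℕ, 2 ≤ D → ∀ (μ : Measure (ℤ → Fin D)) [IsProbabilityMeasure μ]
  (ρ : (n : ℕ) → Matrix (Fin n → Fin D) (Fin n → Fin D) ℂ), IsInv (dft D) ρ →
  (∀ (m : ℤ) (n : ℕ) (w : Fin n → Fin D), μ.real (cyl m w) = (ρ n w w).re) →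
  ∀ ev : ℕ → ℂ, (∀ k, Module.End.HasEigenvalue (bk (dft D) k) (ev k)) →
  ∀ l : ℕ → ℕ, Tendsto l atTop atTop → Tendsto (fun k => k - l k) atTop atTop →
  ∃ ψ : ∀ k, St D (Fin (k + 1)), (∀ k, nsq (ψ k) = 1 ∧ bk (dft D) k (ψ k) = ev k • ψ k) ∧
    ∀ (m : ℤ) (n : ℕ) (w : Fin n → Fin D),
      Tendsto (fun k => husC (dft D) k (l k) (ψ k) m w) atTop (𝓝 (μ.real (cyl m w)))

end Pool.Agent.N282.WB
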